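import Pool.Agent.H11.TB.Structure

/-!
Groups all of whose subgroups are T-groups, acting on complete linear orders.

If all the groups of one-sided germs of the stabilizers of points are locally graded and in `Cls`, then the
group is abelian.
-/

set_option autoImplicit false

namespace Pool.Agent.H11.TB

section Abstract

/-- if all quotients by `N` of elements outside `N` have infinite order and `S ⧸ N` is good, then commutators
are in `N` -/
theorem comm_mem_of_quotient {S : Type} [Group S] (hS : TB2 S) (N : Subgroup S) [N.Normal]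
    (hl : LocGraded (S ⧸ N)) (hc : Cls (S ⧸ N))
    (htf : ∀ (s : S) (n : ℕ), 0 < n → s ^ n ∈ N → s ∈ N) (x y : S) :
    x * y * x⁻¹ * y⁻¹ ∈ N := by
  by_contra h
  have hinf : ¬ IsOfFinOrder (QuotientGroup.mk' N (x * y * x⁻¹ * y⁻¹)) := by
    intro hf
    obtain ⟨n, hn, hn1⟩ := isOfFinOrder_iff_pow_eq_one.1 hf
    rw [← map_pow] at hn1
    exact h (htf _ n hn ((QuotientGroup.eq_one_iff _).1 hn1))
  have hcomm := main_comm hc (hS.quotient N).tbar hl ⟨_, hinf⟩ (QuotientGroup.mk' N x) (QuotientGroup.mk' N y)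
  apply h
  apply (QuotientGroup.eq_one_iff _).1
  show QuotientGroup.mk' N (x * y * x⁻¹ * y⁻¹) = 1
  rw [map_mul, map_mul, map_mul, map_inv, map_inv, hcomm]
  group

/-- if `c` commutes with its conjugates by the powers of `g` then `g` normalises the group generated by `c` -/
theorem displaced {P : Type} [Group P] (hP : TB2 P) {g c : P}
    (h : ∀ n : ℕ, 0 < n → c * (g ^ n * c * (g ^ n)⁻¹) = (g ^ n * c * (g ^ n)⁻¹) * c) :
    g * c * g⁻¹ ∈ Subgroup.zpowers c := by
  set S : Set P := {z | ∃ k : ℤ, z = g ^ k * c * (g ^ k)⁻¹} with hS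
  have hlt : ∀ k l : ℤ, k < l → (g ^ k * c * (g ^ k)⁻¹) * (g ^ l * c * (g ^ l)⁻¹) =
      (g ^ l * c * (g ^ l)⁻¹) * (g ^ k * c * (g ^ k)⁻¹) := by
    intro k l hkl
    obtain ⟨n, hn⟩ := Int.eq_ofNat_of_zero_le (sub_pos.2 hkl).le
    have hn0 : 0 < n := by omega
    have hl : l = k + n := by omega
    have e : g ^ l = g ^ k * g ^ n := by rw [hl, zpow_add, zpow_natCast]
    have h1 := h n hn0
    rw [e]
    calc (g ^ k * c * (g ^ k)⁻¹) * (g ^ k * g ^ n * c * (g ^ k * g ^ n)⁻¹)
        = g ^ k * (c * (g ^ n * c * (g ^ n)⁻¹)) * (g ^ k)⁻¹ := by group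
      _ = g ^ k * ((g ^ n * c * (g ^ n)⁻¹) * c) * (g ^ k)⁻¹ := by rw [h1]
      _ = _ := by group
  have hcomm : ∀ a ∈ S, ∀ b ∈ S, a * b = b * a := by
    rintro _ ⟨k, rfl⟩ _ ⟨l, rfl⟩
    rcases lt_trichotomy k l with hkl | hkl | hkl
    · exact hlt k l hkl
    · subst hkl; rfl
    · exact (hlt l k hkl).symm
  have hA := closure_comm hcomm
  have hcA : c ∈ Subgroup.closure S := Subgroup.subset_closure ⟨0, by simp⟩
  have hgen : ∀ (d : P), (∀ s ∈ S, d * s * d⁻¹ ∈ S) → ∀ a ∈ Subgroup.closure S, d * a * d⁻¹ ∈ Subgroup.closure S := by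
    intro d hd a ha
    induction ha using Subgroup.closure_induction with
    | mem x hx => exact Subgroup.subset_closure (hd x hx)
    | one => simp
    | mul x y _ _ hx hy =>
      have : d * (x * y) * d⁻¹ = (d * x * d⁻¹) * (d * y * d⁻¹) := by group
      rw [this]; exact Subgroup.mul_mem _ hx hy
    | inv x _ hx =>
      have : d * x⁻¹ * d⁻¹ = (d * x * d⁻¹)⁻¹ := by group
      rw [this]; exact Subgroup.inv_mem _ hx
  have hg1 : ∀ s ∈ S, g * s * g⁻¹ ∈ S := by
    rintro _ ⟨k, rfl⟩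
    refine ⟨k + 1, ?_⟩
    have : g ^ (k + 1) = g * g ^ k := by rw [add_comm, zpow_add, zpow_one]
    rw [this]; group
  have hg2 : ∀ s ∈ S, g⁻¹ * s * (g⁻¹)⁻¹ ∈ S := by
    rintro _ ⟨k, rfl⟩
    refine ⟨k - 1, ?_⟩
    have : g ^ (k - 1) = g⁻¹ * g ^ k := by rw [sub_eq_add_neg, add_comm, zpow_add, zpow_neg, zpow_one]
    rw [this]; group
  -- the group of the elements that normalise the closure of `S`
  have hC : ∀ d ∈ Subgroup.closure (S ∪ {g}), ∀ a ∈ Subgroup.closure S,
      d * a * d⁻¹ ∈ Subgroup.closure S ∧ d⁻¹ * a * d ∈ Subgroup.closure S := by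
    intro d hd
    induction hd using Subgroup.closure_induction with
    | mem x hx =>
      intro a ha
      rcases hx with hx | hx
      · have hx' : x ∈ Subgroup.closure S := Subgroup.subset_closure hx
        exact ⟨Subgroup.mul_mem _ (Subgroup.mul_mem _ hx' ha) (Subgroup.inv_mem _ hx'),
          Subgroup.mul_mem _ (Subgroup.mul_mem _ (Subgroup.inv_mem _ hx') ha) hx'⟩
      · rw [Set.mem_singleton_iff] at hx
        subst hx
        refine ⟨hgen _ hg1 a ha, ?_⟩
        have := hgen _ hg2 a ha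
        rwa [inv_inv] at this
    | one => intro a ha; simpa using ha
    | mul x y _ _ hx hy =>
      intro a ha
      constructor
      · have : x * y * a * (x * y)⁻¹ = x * (y * a * y⁻¹) * x⁻¹ := by group
        rw [this]; exact (hx _ (hy a ha).1).1
      · have : (x * y)⁻¹ * a * (x * y) = y⁻¹ * (x⁻¹ * a * x) * y := by group
        rw [this]; exact (hy _ (hx a ha).2).2
    | inv x _ hx =>
      intro a ha
      rw [inv_inv]
      exact ⟨(hx a ha).2, (hx a ha).1⟩
  exact cyclic_normal_of_abelian hP (Subgroup.closure S) (Subgroup.closure (S ∪ {g})) hA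
    (Subgroup.closure_mono Set.subset_union_left) (fun d hd a ha => (hC d hd a ha).1) hcA
    (Subgroup.subset_closure (by simp))

end Abstract

section Order

variable {G X : Type} [Group G] [CompleteLinearOrder X]

theorem act_mul (φ : G →* (X ≃o X)) (a b : G) (s : X) : φ (a * b) s = φ a (φ b s) := by
  rw [map_mul]; rfl

theorem act_one (φ : G →* (X ≃o X)) (s : X) : φ 1 s = s := by
  rw [map_one]; rfl

theorem act_inv (φ : G →* (X ≃o X)) (a : G) (s : X) : φ a⁻¹ (φ a s) = s := by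
  rw [← act_mul, inv_mul_cancel, act_one]

theorem act_inv' (φ : G →* (X ≃o X)) (a : G) (s : X) : φ a (φ a⁻¹ s) = s := by
  rw [← act_mul, mul_inv_cancel, act_one]

theorem act_inv_fix (φ : G →* (X ≃o X)) {a : G} {s : X} (h : φ a s = s) : φ a⁻¹ s = s := by
  have := act_inv φ a s
  rwa [h] at this

theorem act_lt (φ : G →* (X ≃o X)) (a : G) {s t : X} (h : s < t) : φ a s < φ a t :=
  (φ a).lt_iff_lt.2 h

theorem act_le (φ : G →* (X ≃o X)) (a : G) {s t : X} (h : s ≤ t) : φ a s ≤ φ a t :=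
  (φ a).le_iff_le.2 h

theorem lt_act_pow (φ : G →* (X ≃o X)) {a : G} {s : X} (h : s < φ a s) (n : ℕ) : s < φ (a ^ (n + 1)) s := by
  induction n with
  | zero => simpa using h
  | succ n ih =>
    rw [pow_succ', act_mul]
    exact h.trans (act_lt φ a ih)

theorem act_pow_lt (φ : G →* (X ≃o X)) {a : G} {s : X} (h : φ a s < s) (n : ℕ) : φ (a ^ (n + 1)) s < s := by
  induction n with
  | zero => simpa using h
  | succ n ih =>
    rw [pow_succ', act_mul]
    exact (act_lt φ a ih).trans h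

theorem fix_of_pow (φ : G →* (X ≃o X)) {a : G} {s : X} {n : ℕ} (hn : 0 < n) (h : φ (a ^ n) s = s) : φ a s = s := by
  obtain ⟨k, rfl⟩ : ∃ k, n = k + 1 := ⟨n - 1, by omega⟩
  rcases lt_trichotomy (φ a s) s with h1 | h1 | h1
  · exact absurd h (act_pow_lt φ h1 k).ne
  · exact h1
  · exact absurd h (lt_act_pow φ h1 k).ne'

theorem fix_of_zpow (φ : G →* (X ≃o X)) {a : G} {s : X} {m : ℤ} (hm : m ≠ 0) (h : φ (a ^ m) s = s) : φ a s = s := by
  rcases lt_trichotomy m 0 with h0 | h0 | h0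
  · obtain ⟨n, hn⟩ := Int.eq_ofNat_of_zero_le (a := -m) (by omega)
    have h1 : φ (a ^ n) s = s := by
      have h2 := act_inv_fix φ h
      rw [← zpow_neg, hn, zpow_natCast] at h2
      exact h2
    exact fix_of_pow φ (by omega) h1
  · exact absurd h0 hm
  · obtain ⟨n, hn⟩ := Int.eq_ofNat_of_zero_le (a := m) (by omega)
    rw [hn, zpow_natCast] at h
    exact fix_of_pow φ (by omega) h

/-- the stabilizer of the point `p` -/
def Stab (φ : G →* (X ≃o X)) (p : X) : Subgroup G where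
  carrier := {g | φ g p = p}
  one_mem' := act_one φ p
  mul_mem' := by
    intro a b ha hb
    show φ (a * b) p = p
    rw [act_mul, show φ b p = p from hb, show φ a p = p from ha]
  inv_mem' := by
    intro a ha
    exact act_inv_fix φ ha

/-- the elements of the stabilizer of `p` whose right germ at `p` is trivial -/
def RightTrivial (φ : G →* (X ≃o X)) (p : X) : Subgroup (Stab φ p) where
  carrier := {g | ∀ q : X, p < q → ∃ r : X, p < r ∧ ∀ s : X, p < s → s < r → φ (g : G) s = s}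
  one_mem' := fun q hq => ⟨q, hq, fun s _ _ => act_one φ s⟩
  mul_mem' := by
    intro a b ha hb q hq
    obtain ⟨r, hr, hr'⟩ := ha q hq
    obtain ⟨u, hu, hu'⟩ := hb q hq
    refine ⟨min r u, lt_min hr hu, fun s hs hs' => ?_⟩
    show φ ((a : G) * b) s = s
    rw [act_mul, hu' s hs (hs'.trans_le (min_le_right _ _)), hr' s hs (hs'.trans_le (min_le_left _ _))]
  inv_mem' := by
    intro a ha q hq
    obtain ⟨r, hr, hr'⟩ := ha q hq
    exact ⟨r, hr, fun s hs hs' => act_inv_fix φ (hr' s hs hs')⟩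

/-- the elements of the stabilizer of `p` whose left germ at `p` is trivial -/
def LeftTrivial (φ : G →* (X ≃o X)) (p : X) : Subgroup (Stab φ p) where
  carrier := {g | ∀ q : X, q < p → ∃ r : X, r < p ∧ ∀ s : X, r < s → s < p → φ (g : G) s = s}
  one_mem' := fun q hq => ⟨q, hq, fun s _ _ => act_one φ s⟩
  mul_mem' := by
    intro a b ha hb q hq
    obtain ⟨r, hr, hr'⟩ := ha q hq
    obtain ⟨u, hu, hu'⟩ := hb q hq
    refine ⟨max r u, max_lt hr hu, fun s hs hs' => ?_⟩
    show φ ((a : G) * b) s = s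
    rw [act_mul, hu' s ((le_max_right _ _).trans_lt hs) hs', hr' s ((le_max_left _ _).trans_lt hs) hs']
  inv_mem' := by
    intro a ha q hq
    obtain ⟨r, hr, hr'⟩ := ha q hq
    exact ⟨r, hr, fun s hs hs' => act_inv_fix φ (hr' s hs hs')⟩

instance (φ : G →* (X ≃o X)) (p : X) : (RightTrivial φ p).Normal where
  conj_mem := by
    intro n hn g q hq
    obtain ⟨r, hr, hr'⟩ := hn q hq
    have hg : φ (g : G) p = p := g.2
    refine ⟨φ (g : G) r, ?_, fun s hs hs' => ?_⟩
    · have := act_lt φ (g : G) hr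
      rwa [hg] at this
    · show φ ((g : G) * n * (g : G)⁻¹) s = s
      have h1 : p < φ (g : G)⁻¹ s := by
        have := act_lt φ (g : G)⁻¹ hs
        rwa [act_inv_fix φ hg] at this
      have h2 : φ (g : G)⁻¹ s < r := by
        have := act_lt φ (g : G)⁻¹ hs'
        rwa [act_inv] at this
      rw [act_mul, act_mul, hr' _ h1 h2, act_inv']

instance (φ : G →* (X ≃o X)) (p : X) : (LeftTrivial φ p).Normal where
  conj_mem := by
    intro n hn g q hq
    obtain ⟨r, hr, hr'⟩ := hn q hq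
    have hg : φ (g : G) p = p := g.2
    refine ⟨φ (g : G) r, ?_, fun s hs hs' => ?_⟩
    · have := act_lt φ (g : G) hr
      rwa [hg] at this
    · show φ ((g : G) * n * (g : G)⁻¹) s = s
      have h1 : φ (g : G)⁻¹ s < p := by
        have := act_lt φ (g : G)⁻¹ hs'
        rwa [act_inv_fix φ hg] at this
      have h2 : r < φ (g : G)⁻¹ s := by
        have := act_lt φ (g : G)⁻¹ hs
        rwa [act_inv] at this
      rw [act_mul, act_mul, hr' _ h2 h1, act_inv']

theorem right_pow (φ : G →* (X ≃o X)) (p : X) (s : Stab φ p) (n : ℕ) (hn : 0 < n)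
    (h : s ^ n ∈ RightTrivial φ p) : s ∈ RightTrivial φ p := by
  intro q hq
  obtain ⟨r, hr, hr'⟩ := h q hq
  refine ⟨r, hr, fun u hu hu' => fix_of_pow φ hn ?_⟩
  have := hr' u hu hu'
  rwa [Subgroup.coe_pow] at this

theorem left_pow (φ : G →* (X ≃o X)) (p : X) (s : Stab φ p) (n : ℕ) (hn : 0 < n)
    (h : s ^ n ∈ LeftTrivial φ p) : s ∈ LeftTrivial φ p := by
  intro q hq
  obtain ⟨r, hr, hr'⟩ := h q hq
  refine ⟨r, hr, fun u hu hu' => fix_of_pow φ hn ?_⟩
  have := hr' u hu hu'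
  rwa [Subgroup.coe_pow] at this

theorem fix_sSup (φ : G →* (X ≃o X)) (h : G) (S : Set X) (hS : ∀ s ∈ S, φ h s = s) : φ h (sSup S) = sSup S := by
  rw [OrderIso.map_sSup, sSup_eq_iSup]
  exact iSup_congr fun s => iSup_congr fun hs => hS s hs

theorem fix_sInf (φ : G →* (X ≃o X)) (h : G) (S : Set X) (hS : ∀ s ∈ S, φ h s = s) : φ h (sInf S) = sInf S := by
  rw [OrderIso.map_sInf, sInf_eq_iInf]
  exact iInf_congr fun s => iInf_congr fun hs => hS s hs

/-- the action of a subgroup on an interval whose end points it fixes -/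
def onIoo (φ : G →* (X ≃o X)) (H : Subgroup G) (p q : X) (hp : ∀ h ∈ H, φ h p = p) (hq : ∀ h ∈ H, φ h q = q) :
    H →* Equiv.Perm (Set.Ioo p q) where
  toFun h :=
    { toFun := fun s => ⟨φ (h : G) s, by
        have h1 := act_lt φ (h : G) s.2.1
        have h2 := act_lt φ (h : G) s.2.2
        rw [hp h h.2] at h1
        rw [hq h h.2] at h2
        exact ⟨h1, h2⟩⟩
      invFun := fun s => ⟨φ (h : G)⁻¹ s, by
        have h1 := act_lt φ (h : G)⁻¹ s.2.1
        have h2 := act_lt φ (h : G)⁻¹ s.2.2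
        rw [act_inv_fix φ (hp h h.2)] at h1
        rw [act_inv_fix φ (hq h h.2)] at h2
        exact ⟨h1, h2⟩⟩
      left_inv := fun s => Subtype.ext (act_inv φ (h : G) s)
      right_inv := fun s => Subtype.ext (act_inv' φ (h : G) s) }
  map_one' := by
    ext s
    exact act_one φ (s : X)
  map_mul' := by
    intro a b
    ext s
    exact act_mul φ (a : G) (b : G) (s : X)

theorem onIoo_apply (φ : G →* (X ≃o X)) (H : Subgroup G) (p q : X) (hp : ∀ h ∈ H, φ h p = p)
    (hq : ∀ h ∈ H, φ h q = q) (h : H) (s : Set.Ioo p q) : ((onIoo φ H p q hp hq h s : Set.Ioo p q) : X) = φ (h : G) s :=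
  rfl

theorem comm_of_order (φ : G →* (X ≃o X)) (hφ : Function.Injective φ) (hT : TBar G)
    (hR : ∀ p : X, LocGraded (Stab φ p ⧸ RightTrivial φ p) ∧ Cls (Stab φ p ⧸ RightTrivial φ p))
    (hL : ∀ p : X, LocGraded (Stab φ p ⧸ LeftTrivial φ p) ∧ Cls (Stab φ p ⧸ LeftTrivial φ p)) :
    ∀ a b : G, a * b = b * a := by
  by_contra hab
  obtain ⟨x, y, hxy⟩ : ∃ x y : G, x * y ≠ y * x := by
    by_contra h
    exact hab fun a b => by_contra fun h' => h ⟨a, b, h'⟩
  set c : G := x * y * x⁻¹ * y⁻¹ with hc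
  have hc1 : c ≠ 1 := by
    intro h
    apply hxy
    have : x * y = c * (y * x) := by rw [hc]; group
    rw [this, h, one_mul]
  obtain ⟨t, ht⟩ : ∃ t : X, φ c t ≠ t := by
    by_contra hall
    apply hc1
    apply hφ
    rw [map_one]
    ext s
    exact by_contra fun h' => hall ⟨s, h'⟩
  set H : Subgroup G := Subgroup.closure {x, y} with hH
  have hxH : x ∈ H := Subgroup.subset_closure (by simp)
  have hyH : y ∈ H := Subgroup.subset_closure (by simp)
  have hcH : c ∈ H := H.mul_mem (H.mul_mem (H.mul_mem hxH hyH) (H.inv_mem hxH)) (H.inv_mem hyH)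
  -- the component of `t`
  obtain ⟨p, hpFix, hpt, hpmax⟩ : ∃ p : X, (∀ h ∈ H, φ h p = p) ∧ p < t ∧
      ∀ s : X, (∀ h ∈ H, φ h s = s) → s ≤ t → s ≤ p := by
    refine ⟨sSup {s | (∀ h ∈ H, φ h s = s) ∧ s ≤ t}, ?_, ?_, ?_⟩
    · intro h hh
      exact fix_sSup φ h _ fun s hs => hs.1 h hh
    · refine lt_of_le_of_ne (sSup_le fun s hs => hs.2) ?_
      intro he
      apply ht
      rw [← he]
      exact fix_sSup φ c _ fun s hs => hs.1 c hcH
    · intro s hs hst
      exact le_sSup ⟨hs, hst⟩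
  obtain ⟨q, hqFix, htq, hqmin⟩ : ∃ q : X, (∀ h ∈ H, φ h q = q) ∧ t < q ∧
      ∀ s : X, (∀ h ∈ H, φ h s = s) → t ≤ s → q ≤ s := by
    refine ⟨sInf {s | (∀ h ∈ H, φ h s = s) ∧ t ≤ s}, ?_, ?_, ?_⟩
    · intro h hh
      exact fix_sInf φ h _ fun s hs => hs.1 h hh
    · refine lt_of_le_of_ne (le_sInf fun s hs => hs.2) ?_
      intro he
      apply ht
      rw [he]
      exact fix_sInf φ c _ fun s hs => hs.1 c hcH
    · intro s hs hst
      exact sInf_le ⟨hs, hst⟩
  -- the commutator is trivial near the end points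
  have hcp : ∀ r : X, p < r → ∃ r : X, p < r ∧ ∀ s : X, p < s → s < r → φ c s = s :=
    comm_mem_of_quotient (hT.tb2.subgroup (Stab φ p)) (RightTrivial φ p) (hR p).1 (hR p).2 (right_pow φ p)
      ⟨x, hpFix x hxH⟩ ⟨y, hpFix y hyH⟩
  have hcq : ∀ r : X, r < q → ∃ r : X, r < q ∧ ∀ s : X, r < s → s < q → φ c s = s :=
    comm_mem_of_quotient (hT.tb2.subgroup (Stab φ q)) (LeftTrivial φ q) (hL q).1 (hL q).2 (left_pow φ q)
      ⟨x, hqFix x hxH⟩ ⟨y, hqFix y hyH⟩
  obtain ⟨r1, hr1, hr1'⟩ := hcp t hpt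
  obtain ⟨r2, hr2, hr2'⟩ := hcq t htq
  have h1t : r1 ≤ t := by
    by_contra h
    exact ht (hr1' t hpt (not_le.1 h))
  have ht2 : t ≤ r2 := by
    by_contra h
    exact ht (hr2' t (not_le.1 h) htq)
  -- an element that moves `r1` beyond `r2`
  obtain ⟨g, hgH, hg⟩ : ∃ g ∈ H, r2 < φ g r1 := by
    set σ : X := ⨆ h : H, φ (h : G) r1 with hσ
    have hle : ∀ g ∈ H, φ g σ ≤ σ := by
      intro g hg
      rw [hσ, OrderIso.map_iSup]
      refine iSup_le fun h => ?_
      rw [← act_mul]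
      exact le_iSup (fun h : H => φ (h : G) r1) (⟨g, hg⟩ * h)
    have hfix : ∀ g ∈ H, φ g σ = σ := by
      intro g hg
      refine le_antisymm (hle g hg) ?_
      have h1 := act_le φ g (hle g⁻¹ (H.inv_mem hg))
      rwa [act_inv'] at h1
    have hr1σ : r1 ≤ σ := by
      have := le_iSup (fun h : H => φ (h : G) r1) 1
      simp only [Subgroup.coe_one, act_one] at this
      exact this
    have hqσ : q ≤ σ := by
      apply hqmin σ hfix
      by_contra h
      exact absurd (hpmax σ hfix (not_le.1 h).le) (not_le.2 (hr1.trans_le hr1σ))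
    have h2 : r2 < ⨆ h : H, φ (h : G) r1 := hr2.trans_le hqσ
    obtain ⟨h, hh⟩ := lt_iSup_iff.1 h2
    exact ⟨h, h.2, hh⟩
  have hr12 : r1 ≤ r2 := h1t.trans ht2
  have hgpow : ∀ n : ℕ, r2 < φ (g ^ (n + 1)) r1 := by
    intro n
    induction n with
    | zero => simpa using hg
    | succ n ih =>
      rw [pow_succ', act_mul]
      exact hg.trans_le (act_le φ g (hr12.trans ih.le))
  -- the action on the component
  set ρ := onIoo φ H p q hpFix hqFix with hρ
  have hP : TB2 ρ.range := (hT.tb2.subgroup H).of_surjective ρ.rangeRestrict ρ.rangeRestrict_surjective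
  set g' : ρ.range := ρ.rangeRestrict ⟨g, hgH⟩ with hg'
  set c' : ρ.range := ρ.rangeRestrict ⟨c, hcH⟩ with hc'
  have key : g' * c' * g'⁻¹ ∈ Subgroup.zpowers c' := by
    refine displaced hP fun n hn => ?_
    obtain ⟨k, rfl⟩ : ∃ k, n = k + 1 := ⟨n - 1, by omega⟩
    have hdis : Equiv.Perm.Disjoint (ρ ⟨c, hcH⟩) (ρ (⟨g, hgH⟩ ^ (k + 1) * ⟨c, hcH⟩ * (⟨g, hgH⟩ ^ (k + 1))⁻¹)) := by
      intro s
      rcases lt_or_ge (s : X) (φ (g ^ (k + 1)) r1) with hs | hs
      · right
        apply Subtype.ext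
        rw [hρ, onIoo_apply]
        show φ (g ^ (k + 1) * c * (g ^ (k + 1))⁻¹) s = s
        have hgk : g ^ (k + 1) ∈ H := H.pow_mem hgH _
        have h1 : p < φ (g ^ (k + 1))⁻¹ s := by
          have := act_lt φ (g ^ (k + 1))⁻¹ s.2.1
          rwa [act_inv_fix φ (hpFix _ hgk)] at this
        have h2 : φ (g ^ (k + 1))⁻¹ s < r1 := by
          have := act_lt φ (g ^ (k + 1))⁻¹ hs
          rwa [act_inv] at this
        rw [act_mul, act_mul, hr1' _ h1 h2, act_inv']
      · left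
        apply Subtype.ext
        rw [hρ, onIoo_apply]
        exact hr2' s ((hgpow k).trans_le hs) s.2.2
    have h3 := hdis.commute.eq
    rw [map_mul, map_mul, map_inv, map_pow] at h3
    exact Subtype.ext h3
  obtain ⟨m, hm⟩ := Subgroup.mem_zpowers_iff.1 key
  -- evaluate at `t`
  have hmt : φ (c ^ m) t = φ (g * c * g⁻¹) t := by
    have h1 : ρ (⟨c, hcH⟩ ^ m) = ρ (⟨g, hgH⟩ * ⟨c, hcH⟩ * ⟨g, hgH⟩⁻¹) := by
      rw [map_mul, map_mul, map_inv, map_zpow]
      exact congrArg Subtype.val hm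
    have h2 := congrArg (fun f : Equiv.Perm (Set.Ioo p q) => ((f ⟨t, hpt, htq⟩ : Set.Ioo p q) : X)) h1
    exact h2
  have hgt : φ (g * c * g⁻¹) t = t := by
    have h1 : p < φ g⁻¹ t := by
      have := act_lt φ g⁻¹ hpt
      rwa [act_inv_fix φ (hpFix _ hgH)] at this
    have h2 : φ g⁻¹ t < r1 := by
      have := act_lt φ g⁻¹ (ht2.trans_lt hg)
      rwa [act_inv] at this
    rw [act_mul, act_mul, hr1' _ h1 h2, act_inv']
  have hm0 : m = 0 := by
    by_contra hne
    exact ht (fix_of_zpow φ hne (hmt.trans hgt))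
  rw [hm0, zpow_zero] at hm
  have hc'1 : c' = 1 := by
    have : g' * c' = g' := by
      have h4 : g' * c' * g'⁻¹ = 1 := hm.symm
      rw [mul_inv_eq_one] at h4
      exact h4
    exact mul_left_cancel (this.trans (mul_one g').symm)
  apply ht
  have h5 : ρ ⟨c, hcH⟩ = 1 := by
    exact congrArg Subtype.val hc'1
  have h6 := congrArg (fun f : Equiv.Perm (Set.Ioo p q) => ((f ⟨t, hpt, htq⟩ : Set.Ioo p q) : X)) h5
  exact h6

end Order

end Pool.Agent.H11.TB
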