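import Pool.Agent.H11.TB.Defs

set_option autoImplicit false

namespace Pool.Agent.H11.TB

/-- every subgroup is a group in which normality is transitive (two step form) -/
def TB2 (G : Type) [Group G] : Prop :=
  ∀ A B C : Subgroup G, A ≤ B → B ≤ C → (∀ b ∈ B, ∀ a ∈ A, b * a * b⁻¹ ∈ A) →
    (∀ c ∈ C, ∀ b ∈ B, c * b * c⁻¹ ∈ B) → ∀ c ∈ C, ∀ a ∈ A, c * a * c⁻¹ ∈ A

variable {G : Type} [Group G]

theorem TB2.of_injective {H : Type} [Group H] (hG : TB2 G) (f : H →* G)
    (hf : Function.Injective f) : TB2 H := by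
  intro A B C hAB hBC h1 h2 c hc a ha
  have := hG (A.map f) (B.map f) (C.map f) (Subgroup.map_mono hAB) (Subgroup.map_mono hBC)
    (by
      rintro _ ⟨b, hb, rfl⟩ _ ⟨a, ha, rfl⟩
      exact ⟨b * a * b⁻¹, h1 b hb a ha, by simp⟩)
    (by
      rintro _ ⟨b, hb, rfl⟩ _ ⟨a, ha, rfl⟩
      exact ⟨b * a * b⁻¹, h2 b hb a ha, by simp⟩)
    (f c) ⟨c, hc, rfl⟩ (f a) ⟨a, ha, rfl⟩
  obtain ⟨x, hx, hxe⟩ := this
  have : x = c * a * c⁻¹ := hf (by rw [hxe]; simp)
  rw [← this]; exact hx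

theorem TB2.subgroup (hG : TB2 G) (H : Subgroup G) : TB2 H :=
  hG.of_injective H.subtype H.subtype_injective

theorem TB2.of_surjective {H : Type} [Group H] (hG : TB2 G) (f : G →* H)
    (hf : Function.Surjective f) : TB2 H := by
  intro A B C hAB hBC h1 h2 c hc a ha
  obtain ⟨c', rfl⟩ := hf c
  obtain ⟨a', rfl⟩ := hf a
  have := hG (A.comap f) (B.comap f) (C.comap f) (Subgroup.comap_mono hAB)
    (Subgroup.comap_mono hBC)
    (by
      intro b hb a ha
      rw [Subgroup.mem_comap] at *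
      simpa using h1 _ hb _ ha)
    (by
      intro b hb a ha
      rw [Subgroup.mem_comap] at *
      simpa using h2 _ hb _ ha)
    c' hc a' ha
  simpa [Subgroup.mem_comap] using this

theorem TB2.quotient (hG : TB2 G) (N : Subgroup G) [N.Normal] : TB2 (G ⧸ N) :=
  hG.of_surjective (QuotientGroup.mk' N) (QuotientGroup.mk'_surjective N)

/-- the normal form of elements of the subgroup generated by `a ^ m` and `g`, `g` inverting `a` -/
theorem closure_form {a g : G} (hg : g * a * g⁻¹ = a⁻¹) (m : ℕ) {x : G}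
    (hx : x ∈ Subgroup.closure ({a ^ m, g} : Set G)) :
    ∃ i j : ℤ, x = a ^ (m * i) * g ^ j := by
  -- g^j a^i = a^(±i) g^j
  have hga : ∀ i : ℤ, g * a ^ i * g⁻¹ = a ^ (-i) := by
    intro i
    have : g * a ^ i * g⁻¹ = (g * a * g⁻¹) ^ i := by
      rw [conj_zpow]
    rw [this, hg, inv_zpow, zpow_neg]
  have hga' : ∀ i : ℤ, g * a ^ i = a ^ (-i) * g := by
    intro i
    have := hga i
    rw [mul_inv_eq_iff_eq_mul] at this
    exact this
  have hgi : ∀ i : ℤ, g⁻¹ * a ^ i = a ^ (-i) * g⁻¹ := by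
    intro i
    have := hga' (-i)
    rw [neg_neg] at this
    have h2 : a ^ (-i) = g⁻¹ * (a ^ i * g) := by
      rw [← this]; group
    rw [h2]; group
  have hgj : ∀ j : ℤ, ∀ i : ℤ, ∃ i' : ℤ, g ^ j * a ^ (m * i) = a ^ (m * i') * g ^ j := by
    intro j
    induction j using Int.induction_on with
    | zero => intro i; exact ⟨i, by simp⟩
    | succ n ih =>
      intro i
      obtain ⟨i', hi'⟩ := ih (-i)
      refine ⟨i', ?_⟩
      have : g ^ ((n : ℤ) + 1) = g ^ (n : ℤ) * g := zpow_add_one g _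
      rw [this, mul_assoc, hga', ← mul_assoc]
      have h3 : a ^ (-((m : ℤ) * i)) = a ^ ((m : ℤ) * (-i)) := by congr 1; ring
      rw [h3, hi', mul_assoc]
    | pred n ih =>
      intro i
      obtain ⟨i', hi'⟩ := ih (-i)
      refine ⟨i', ?_⟩
      have : g ^ (-(n : ℤ) - 1) = g ^ (-(n : ℤ)) * g⁻¹ := zpow_sub_one g _
      rw [this, mul_assoc, hgi, ← mul_assoc]
      have h3 : a ^ (-((m : ℤ) * i)) = a ^ ((m : ℤ) * (-i)) := by congr 1; ring
      rw [h3, hi', mul_assoc]
  induction hx using Subgroup.closure_induction with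
  | mem x hx =>
    rcases hx with rfl | hx
    · exact ⟨1, 0, by simp⟩
    · rw [Set.mem_singleton_iff] at hx
      subst hx
      exact ⟨0, 1, by simp⟩
  | one => exact ⟨0, 0, by simp⟩
  | mul x y _ _ hx hy =>
    obtain ⟨i, j, rfl⟩ := hx
    obtain ⟨k, l, rfl⟩ := hy
    obtain ⟨k', hk'⟩ := hgj j k
    refine ⟨i + k', j + l, ?_⟩
    calc a ^ (m * i) * g ^ j * (a ^ (m * k) * g ^ l)
        = a ^ (m * i) * (g ^ j * a ^ (m * k)) * g ^ l := by simp only [mul_assoc]
      _ = a ^ (m * i) * (a ^ (m * k') * g ^ j) * g ^ l := by rw [hk']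
      _ = (a ^ (m * i) * a ^ (m * k')) * (g ^ j * g ^ l) := by simp only [mul_assoc]
      _ = _ := by rw [← zpow_add, ← zpow_add, ← mul_add]
  | inv x _ hx =>
    obtain ⟨i, j, rfl⟩ := hx
    obtain ⟨k', hk'⟩ := hgj (-j) (-i)
    refine ⟨k', -j, ?_⟩
    rw [← hk', mul_inv_rev, zpow_neg]
    congr 1
    rw [← zpow_neg]; congr 1; ring

/-- no element inverts an element of infinite order in a `TB2` group -/
theorem not_inverting (hG : TB2 G) {a g : G} (hg : g * a * g⁻¹ = a⁻¹) : IsOfFinOrder a := by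
  by_contra hinf
  have hinj : ∀ i : ℤ, a ^ i = 1 → i = 0 := by
    intro i hi
    by_contra hne
    exact hinf (isOfFinOrder_iff_zpow_eq_one.2 ⟨i, hne, hi⟩)
  set A := Subgroup.closure ({a ^ 4, g} : Set G) with hA
  set B := Subgroup.closure ({a ^ 2, g} : Set G) with hB
  set C := Subgroup.closure ({a, g} : Set G) with hC
  have hgA : g ∈ A := Subgroup.subset_closure (by simp)
  have hgB : g ∈ B := Subgroup.subset_closure (by simp)
  have hgC : g ∈ C := Subgroup.subset_closure (by simp)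
  have haA : a ^ 4 ∈ A := Subgroup.subset_closure (by simp)
  have haB : a ^ 2 ∈ B := Subgroup.subset_closure (by simp)
  have haC : a ∈ C := Subgroup.subset_closure (by simp)
  have hAB : A ≤ B := by
    rw [hA, Subgroup.closure_le]
    rintro x (rfl | hx)
    · have : a ^ 4 = a ^ 2 * a ^ 2 := by rw [← pow_add]
      rw [this]; exact B.mul_mem haB haB
    · rw [Set.mem_singleton_iff] at hx; subst hx; exact hgB
  have hBC : B ≤ C := by
    rw [hB, Subgroup.closure_le]
    rintro x (rfl | hx)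
    · exact C.pow_mem haC 2
    · rw [Set.mem_singleton_iff] at hx; subst hx; exact hgC
  have hga' : ∀ i : ℤ, a ^ i * g * (a ^ i)⁻¹ = a ^ (2 * i) * g := by
    intro i
    have h1 : g * a ^ (-i) * g⁻¹ = a ^ i := by
      have : g * a ^ (-i) * g⁻¹ = (g * a * g⁻¹) ^ (-i) := by rw [conj_zpow]
      rw [this, hg, inv_zpow, zpow_neg, inv_inv]
    have h2 : g * a ^ (-i) = a ^ i * g := by rw [← h1]; group
    rw [← zpow_neg, mul_assoc, h2, ← mul_assoc, ← zpow_add]
    congr 2; ring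
  -- general: conjugation by generator preserves
  have key : ∀ (S : Subgroup G) (T : Set G), S = Subgroup.closure T → ∀ c : G,
      (∀ t ∈ T, c * t * c⁻¹ ∈ S) → ∀ s ∈ S, c * s * c⁻¹ ∈ S := by
    intro S T hST c hc s hs
    rw [hST] at hs
    induction hs using Subgroup.closure_induction with
    | mem x hx => exact hc x hx
    | one => simpa using S.one_mem
    | mul x y _ _ hx hy =>
      have : c * (x * y) * c⁻¹ = (c * x * c⁻¹) * (c * y * c⁻¹) := by group
      rw [this]; exact S.mul_mem hx hy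
    | inv x _ hx =>
      have : c * x⁻¹ * c⁻¹ = (c * x * c⁻¹)⁻¹ := by group
      rw [this]; exact S.inv_mem hx
  have key2 : ∀ (S : Subgroup G) (T : Set G),
      (∀ t ∈ T, (∀ s ∈ S, t * s * t⁻¹ ∈ S) ∧ (∀ s ∈ S, t⁻¹ * s * t ∈ S)) →
      ∀ c ∈ Subgroup.closure T, (∀ s ∈ S, c * s * c⁻¹ ∈ S) ∧ (∀ s ∈ S, c⁻¹ * s * c ∈ S) := by
    intro S T hT c hc
    induction hc using Subgroup.closure_induction with
    | mem x hx => exact hT x hx
    | one => simp
    | mul x y _ _ hx hy =>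
      constructor
      · intro s hs
        have : x * y * s * (x * y)⁻¹ = x * (y * s * y⁻¹) * x⁻¹ := by group
        rw [this]; exact hx.1 _ (hy.1 _ hs)
      · intro s hs
        have : (x * y)⁻¹ * s * (x * y) = y⁻¹ * (x⁻¹ * s * x) * y := by group
        rw [this]; exact hy.2 _ (hx.2 _ hs)
    | inv x _ hx =>
      refine ⟨fun s hs => ?_, fun s hs => ?_⟩
      · rw [inv_inv]; exact hx.2 s hs
      · rw [inv_inv]; exact hx.1 s hs
  have hselfc : ∀ (S : Subgroup G) (t : G), t ∈ S →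
      (∀ s ∈ S, t * s * t⁻¹ ∈ S) ∧ (∀ s ∈ S, t⁻¹ * s * t ∈ S) := fun S t ht =>
    ⟨fun s hs => S.mul_mem (S.mul_mem ht hs) (S.inv_mem ht),
     fun s hs => S.mul_mem (S.mul_mem (S.inv_mem ht) hs) ht⟩
  have h1 : ∀ b ∈ B, ∀ x ∈ A, b * x * b⁻¹ ∈ A := by
    intro b hb
    refine (key2 A {a ^ 2, g} ?_ b hb).1
    rintro t (rfl | ht)
    · constructor
      · refine key A _ hA (a ^ 2) ?_
        rintro t (rfl | ht)
        · have : a ^ 2 * a ^ 4 * (a ^ 2)⁻¹ = a ^ 4 := by group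
          rw [this]; exact haA
        · rw [Set.mem_singleton_iff] at ht; subst ht
          have := hga' 2
          have e : a ^ 2 = a ^ (2 : ℤ) := by norm_cast
          rw [e, this]
          have e4 : a ^ (2 * (2 : ℤ)) = a ^ 4 := by norm_cast
          rw [e4]; exact A.mul_mem haA hgA
      · have := key A _ hA ((a ^ 2)⁻¹) ?_
        · intro s hs; simpa using this s hs
        rintro t (rfl | ht)
        · have : (a ^ 2)⁻¹ * a ^ 4 * ((a ^ 2)⁻¹)⁻¹ = a ^ 4 := by group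
          rw [this]; exact haA
        · rw [Set.mem_singleton_iff] at ht; subst ht
          have := hga' (-2)
          have e : (a ^ 2)⁻¹ = a ^ (-2 : ℤ) := by
            rw [zpow_neg]; norm_cast
          rw [e, this]
          have e4 : a ^ (2 * (-2 : ℤ)) = (a ^ 4)⁻¹ := by
            rw [← zpow_natCast, ← zpow_neg]; norm_num
          rw [e4]; exact A.mul_mem (A.inv_mem haA) hgA
    · rw [Set.mem_singleton_iff] at ht; subst ht
      exact hselfc A _ hgA
  have h2 : ∀ c ∈ C, ∀ x ∈ B, c * x * c⁻¹ ∈ B := by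
    intro c hc
    refine (key2 B {a, g} ?_ c hc).1
    rintro t (rfl | ht)
    · constructor
      · refine key B _ hB t ?_
        rintro s (rfl | hs)
        · have : t * t ^ 2 * t⁻¹ = t ^ 2 := by group
          rw [this]; exact haB
        · rw [Set.mem_singleton_iff] at hs; subst hs
          have := hga' 1
          rw [zpow_one] at this
          rw [this]
          have e4 : t ^ (2 * (1 : ℤ)) = t ^ 2 := by norm_cast
          rw [e4]; exact B.mul_mem haB hgB
      · have := key B _ hB (t⁻¹) ?_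
        · intro s hs; simpa using this s hs
        rintro s (rfl | hs)
        · have : t⁻¹ * t ^ 2 * (t⁻¹)⁻¹ = t ^ 2 := by group
          rw [this]; exact haB
        · rw [Set.mem_singleton_iff] at hs; subst hs
          have := hga' (-1)
          have e : t⁻¹ = t ^ (-1 : ℤ) := by simp
          rw [e, this]
          have e4 : t ^ (2 * (-1 : ℤ)) = (t ^ 2)⁻¹ := by
            rw [← zpow_natCast, ← zpow_neg]; norm_num
          rw [e4]; exact B.mul_mem (B.inv_mem haB) hgB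
    · rw [Set.mem_singleton_iff] at ht; subst ht
      exact hselfc B _ hgB
  have h3 := hG A B C hAB hBC h1 h2 a haC g hgA
  have h4 := hga' 1
  rw [zpow_one] at h4
  rw [h4] at h3
  have h5 : a ^ (2 * (1 : ℤ)) ∈ A := by
    have := A.mul_mem h3 (A.inv_mem hgA)
    simpa using this
  obtain ⟨i, j, hij⟩ := closure_form hg 4 h5
  -- a^(2-4i) = g^j
  have h6 : a ^ (2 - 4 * i) = g ^ j := by
    rw [zpow_sub]
    have : a ^ (4 * i) = a ^ (((4 : ℕ) : ℤ) * i) := by norm_num
    rw [this]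
    have h7 : a ^ (2 : ℤ) = a ^ (2 * (1 : ℤ)) := by norm_num
    rw [h7, hij]
    have : Commute (a ^ (((4 : ℕ) : ℤ) * i)) (a ^ (2 * (1 : ℤ))) := Commute.zpow_zpow_self _ _ _
    have h8 : a ^ (((4 : ℕ) : ℤ) * i) * g ^ j = g ^ j * a ^ (((4 : ℕ) : ℤ) * i) := by
      rw [hij] at this
      have h9 := this.eq
      rw [← mul_assoc] at h9
      have h10 : a ^ (((4 : ℕ) : ℤ) * i) * (a ^ (((4 : ℕ) : ℤ) * i) * g ^ j)
        = a ^ (((4 : ℕ) : ℤ) * i) * (g ^ j * a ^ (((4 : ℕ) : ℤ) * i)) := by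
        rw [← mul_assoc, h9, mul_assoc]
      exact mul_left_cancel h10
    rw [h8, mul_inv_cancel_right]
  have h7 : g * a ^ (2 - 4 * i) * g⁻¹ = a ^ (2 - 4 * i) := by
    rw [h6]; group
  have h8 : g * a ^ (2 - 4 * i) * g⁻¹ = a ^ (-(2 - 4 * i)) := by
    have : g * a ^ (2 - 4 * i) * g⁻¹ = (g * a * g⁻¹) ^ (2 - 4 * i) := by rw [conj_zpow]
    rw [this, hg, inv_zpow, zpow_neg]
  have h9 : a ^ ((2 - 4 * i) + (2 - 4 * i)) = 1 := by
    rw [zpow_add]
    nth_rewrite 1 [← h7]
    rw [h8, ← zpow_add]; simp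
  have := hinj _ h9
  omega

/-- an element normalising the subgroup generated by an element of infinite order centralises it -/
theorem commute_of_normalizes (hG : TB2 G) {a g : G} (ha : ¬ IsOfFinOrder a)
    (h1 : g * a * g⁻¹ ∈ Subgroup.zpowers a) (h2 : g⁻¹ * a * g ∈ Subgroup.zpowers a) :
    g * a * g⁻¹ = a := by
  obtain ⟨m, hm⟩ := h1
  obtain ⟨n, hn⟩ := h2
  simp only at hm hn
  have h3 : a = a ^ (m * n) := by
    have : a = g * (g⁻¹ * a * g) * g⁻¹ := by group
    rw [← hn, ← conj_zpow, ← hm, ← zpow_mul] at this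
    exact this
  have h4 : m * n = 1 := by
    by_contra hne
    apply ha
    refine isOfFinOrder_iff_zpow_eq_one.2 ⟨m * n - 1, sub_ne_zero.2 hne, ?_⟩
    rw [zpow_sub_one, ← h3, mul_inv_cancel]
  rcases Int.eq_one_or_neg_one_of_mul_eq_one h4 with h | h
  · rw [← hm, h, zpow_one]
  · exfalso
    apply ha
    apply not_inverting hG (g := g)
    rw [← hm, h, zpow_neg_one]

/-- cyclic subgroups of an abelian subgroup `A` normalised by `C` are normalised by `C` -/
theorem cyclic_normal_of_abelian (hG : TB2 G) (A C : Subgroup G)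
    (hcomm : ∀ x ∈ A, ∀ y ∈ A, x * y = y * x) (hAC : A ≤ C)
    (hn : ∀ c ∈ C, ∀ a ∈ A, c * a * c⁻¹ ∈ A) {a c : G} (ha : a ∈ A) (hc : c ∈ C) :
    c * a * c⁻¹ ∈ Subgroup.zpowers a := by
  refine hG (Subgroup.zpowers a) A C ((Subgroup.zpowers_le).2 ha) hAC ?_ hn c hc a
    (Subgroup.mem_zpowers a)
  intro b hb x hx
  obtain ⟨i, rfl⟩ := hx
  have := hcomm b hb (a ^ i) (A.zpow_mem ha i)
  simp only
  rw [this, mul_inv_cancel_right]
  exact ⟨i, rfl⟩

/-- cyclic subgroups of a class two subgroup `N` normalised by `C` are normalised by `C` -/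
theorem cyclic_normal_of_class_two (hG : TB2 G) (N C : Subgroup G)
    (hcl : ∀ x ∈ N, ∀ y ∈ N, ∀ z ∈ N, (x * y * x⁻¹ * y⁻¹) * z = z * (x * y * x⁻¹ * y⁻¹))
    (hNC : N ≤ C) (hn : ∀ c ∈ C, ∀ a ∈ N, c * a * c⁻¹ ∈ N) {a c : G} (ha : a ∈ N) (hc : c ∈ C) :
    c * a * c⁻¹ ∈ Subgroup.zpowers a := by
  -- B : elements b of N of the form with [b, ...] ; use B = closure of a and commutators of N
  set D : Subgroup G := Subgroup.closure {w | ∃ x ∈ N, ∃ y ∈ N, w = x * y * x⁻¹ * y⁻¹} with hD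
  have hDN : D ≤ N := by
    rw [hD, Subgroup.closure_le]
    rintro w ⟨x, hx, y, hy, rfl⟩
    exact N.mul_mem (N.mul_mem (N.mul_mem hx hy) (N.inv_mem hx)) (N.inv_mem hy)
  have hDc : ∀ d ∈ D, ∀ z ∈ N, d * z = z * d := by
    intro d hd z hz
    rw [hD] at hd
    induction hd using Subgroup.closure_induction with
    | mem x hx => obtain ⟨x, hx, y, hy, rfl⟩ := hx; exact hcl x hx y hy z hz
    | one => simp
    | mul x y _ _ hx hy => rw [mul_assoc, hy, ← mul_assoc, hx, mul_assoc]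
    | inv x _ hx =>
      have : Commute x z := hx
      exact this.inv_left.eq
  set B : Subgroup G := Subgroup.zpowers a ⊔ D with hB
  have haB : a ∈ B := (le_sup_left : Subgroup.zpowers a ≤ B) (Subgroup.mem_zpowers a)
  have hDB : D ≤ B := le_sup_right
  have hBN : B ≤ N := sup_le (by simpa using ha) hDN
  have hBc : ∀ b ∈ B, b * a = a * b := by
    intro b hb
    have : B ≤ Subgroup.centralizer {a} := by
      refine sup_le ?_ ?_
      · rw [Subgroup.zpowers_le, Subgroup.mem_centralizer_singleton_iff]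
      · intro d hd
        rw [Subgroup.mem_centralizer_singleton_iff]
        exact hDc d hd a ha
    exact Subgroup.mem_centralizer_singleton_iff.1 (this hb)
  -- step 1 : zpowers a ⊴ B ⊴ N
  have hzN : ∀ n ∈ N, ∀ x ∈ Subgroup.zpowers a, n * x * n⁻¹ ∈ Subgroup.zpowers a := by
    refine hG (Subgroup.zpowers a) B N le_sup_left hBN ?_ ?_
    · rintro b hb _ ⟨i, rfl⟩
      have h1 : Commute b a := hBc b hb
      have h2 := (h1.zpow_right i).eq
      simp only
      rw [h2, mul_inv_cancel_right]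
      exact ⟨i, rfl⟩
    · intro n hn' b hb
      have hbN := hBN hb
      have : n * b * n⁻¹ = (n * b * n⁻¹ * b⁻¹) * b := by group
      rw [this]
      exact B.mul_mem (hDB (Subgroup.subset_closure ⟨n, hn', b, hbN, rfl⟩)) hb
  refine hG (Subgroup.zpowers a) N C (by simpa using ha) hNC hzN hn c hc a
    (Subgroup.mem_zpowers a)

/-- an element of infinite order in a class two normal subgroup is central -/
theorem central_of_class_two (hG : TB2 G) (N : Subgroup G)
    (hcl : ∀ x ∈ N, ∀ y ∈ N, ∀ z ∈ N, (x * y * x⁻¹ * y⁻¹) * z = z * (x * y * x⁻¹ * y⁻¹))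
    (hn : ∀ c : G, ∀ a ∈ N, c * a * c⁻¹ ∈ N) {a : G} (ha : a ∈ N) (hinf : ¬ IsOfFinOrder a)
    (c : G) : c * a = a * c := by
  have h : ∀ c : G, c * a * c⁻¹ ∈ Subgroup.zpowers a := fun c =>
    cyclic_normal_of_class_two hG N ⊤ hcl le_top (fun c _ => hn c) ha (Subgroup.mem_top c)
  have h2 : c⁻¹ * a * c ∈ Subgroup.zpowers a := by simpa using h c⁻¹
  have := commute_of_normalizes hG hinf (h c) h2
  rw [mul_inv_eq_iff_eq_mul] at this
  exact this

theorem not_finOrder_mul {x z : G} (hz : ¬ IsOfFinOrder z) (hc : x * z = z * x)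
    (hx : IsOfFinOrder x) : ¬ IsOfFinOrder (x * z) := by
  intro h
  apply hz
  have h1 : Commute x⁻¹ (x * z) := by
    have : Commute x z := hc
    exact (Commute.refl x).inv_left.mul_right this.inv_left
  have h2 := h1.isOfFinOrder_mul hx.inv h
  simpa using h2

/-- if there is a central element of infinite order, class two normal subgroups are central -/
theorem class_two_le_center (hG : TB2 G) {z : G} (hz : ¬ IsOfFinOrder z)
    (hzc : ∀ g : G, g * z = z * g) (N : Subgroup G)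
    (hcl : ∀ x ∈ N, ∀ y ∈ N, ∀ z ∈ N, (x * y * x⁻¹ * y⁻¹) * z = z * (x * y * x⁻¹ * y⁻¹))
    (hn : ∀ c : G, ∀ a ∈ N, c * a * c⁻¹ ∈ N) : ∀ a ∈ N, ∀ c : G, c * a = a * c := by
  intro a ha c
  -- N1 = N ⊔ zpowers z
  set N1 : Subgroup G :=
    { carrier := {w | ∃ x ∈ N, ∃ i : ℤ, w = x * z ^ i}
      one_mem' := ⟨1, N.one_mem, 0, by simp⟩
      mul_mem' := by
        rintro _ _ ⟨x, hx, i, rfl⟩ ⟨y, hy, j, rfl⟩
        refine ⟨x * y, N.mul_mem hx hy, i + j, ?_⟩
        have : z ^ i * y = y * z ^ i := by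
          have h : Commute y z := hzc y
          exact (h.zpow_right i).symm.eq
        rw [zpow_add]
        calc x * z ^ i * (y * z ^ j) = x * (z ^ i * y) * z ^ j := by simp only [mul_assoc]
          _ = x * (y * z ^ i) * z ^ j := by rw [this]
          _ = _ := by simp only [mul_assoc]
      inv_mem' := by
        rintro _ ⟨x, hx, i, rfl⟩
        refine ⟨x⁻¹, N.inv_mem hx, -i, ?_⟩
        have h : Commute x⁻¹ z := hzc x⁻¹
        rw [mul_inv_rev, ← zpow_neg]
        exact (h.zpow_right (-i)).symm.eq } with hN1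
  have hmem : ∀ w, w ∈ N1 ↔ ∃ x ∈ N, ∃ i : ℤ, w = x * z ^ i := fun w => Iff.rfl
  have hzi : ∀ (g : G) (i : ℤ), g * z ^ i = z ^ i * g := by
    intro g i
    have h : Commute g z := hzc g
    exact (h.zpow_right i).eq
  have hcl1 : ∀ x ∈ N1, ∀ y ∈ N1, ∀ w ∈ N1,
      (x * y * x⁻¹ * y⁻¹) * w = w * (x * y * x⁻¹ * y⁻¹) := by
    rintro _ ⟨x, hx, i, rfl⟩ _ ⟨y, hy, j, rfl⟩ _ ⟨w, hw, k, rfl⟩
    have e1 : (x * z ^ i) * (y * z ^ j) * (x * z ^ i)⁻¹ * (y * z ^ j)⁻¹ =
        x * y * x⁻¹ * y⁻¹ := by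
      rw [hzi x i, hzi y j]
      calc z ^ i * x * (z ^ j * y) * (z ^ i * x)⁻¹ * (z ^ j * y)⁻¹
          = z ^ i * (x * z ^ j) * (y * x⁻¹) * (z ^ i)⁻¹ * y⁻¹ * (z ^ j)⁻¹ := by group
        _ = z ^ i * (z ^ j * x) * (y * x⁻¹) * (z ^ i)⁻¹ * y⁻¹ * (z ^ j)⁻¹ := by rw [hzi x j]
        _ = z ^ i * (z ^ j * (x * (y * x⁻¹) * z ^ (-i)) * y⁻¹) * (z ^ j)⁻¹ := by
            rw [← zpow_neg z i]; simp only [mul_assoc]
        _ = z ^ i * (z ^ j * (z ^ (-i) * (x * (y * x⁻¹))) * y⁻¹) * z ^ (-j) := by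
            rw [hzi (x * (y * x⁻¹)) (-i), zpow_neg z j]
        _ = (z ^ i * z ^ j * z ^ (-i)) * ((x * (y * x⁻¹) * y⁻¹) * z ^ (-j)) := by
            simp only [mul_assoc]
        _ = (z ^ i * z ^ j * z ^ (-i)) * (z ^ (-j) * (x * (y * x⁻¹) * y⁻¹)) := by
            rw [hzi (x * (y * x⁻¹) * y⁻¹) (-j)]
        _ = _ := by
            rw [← mul_assoc, ← zpow_add, ← zpow_add, ← zpow_add]
            have : i + j + -i + -j = 0 := by ring
            rw [this, zpow_zero, one_mul]; simp only [mul_assoc]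
    rw [e1]
    have e2 := hcl x hx y hy w hw
    rw [← mul_assoc, e2, mul_assoc, hzi _ k, ← mul_assoc]

  have hn1 : ∀ c : G, ∀ a ∈ N1, c * a * c⁻¹ ∈ N1 := by
    rintro c _ ⟨x, hx, i, rfl⟩
    refine ⟨c * x * c⁻¹, hn c x hx, i, ?_⟩
    calc c * (x * z ^ i) * c⁻¹ = c * x * (z ^ i * c⁻¹) := by simp only [mul_assoc]
      _ = c * x * (c⁻¹ * z ^ i) := by rw [hzi]
      _ = _ := by simp only [mul_assoc]
  have haN1 : a ∈ N1 := ⟨a, ha, 0, by simp⟩
  have hazN1 : a * z ∈ N1 := ⟨a, ha, 1, by simp⟩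
  by_cases hfin : IsOfFinOrder a
  · have h1 := central_of_class_two hG N1 hcl1 hn1 hazN1 (not_finOrder_mul hz (hzc a) hfin) c
    have h2 : c * a * z = a * c * z := by
      rw [mul_assoc, h1, mul_assoc, ← hzc c, mul_assoc]
    exact mul_right_cancel h2
  · exact central_of_class_two hG N1 hcl1 hn1 haN1 hfin c

end Pool.Agent.H11.TB
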