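import Pool.Agent.H11.TB.Rosset

set_option autoImplicit false

namespace Pool.Agent.H11.TB

open scoped commutatorElement

variable {G : Type} [Group G]

theorem TBar.tb2 (hG : TBar G) : TB2 G := by
  intro A B C hAB hBC h1 h2 c hc a ha
  have hn := hG C (A.subgroupOf C) ⟨2, fun i => if i = 0 then A.subgroupOf C else
    if i = 1 then B.subgroupOf C else ⊤, by simp, by simp, ?_⟩
  · have := hn.conj_mem ⟨a, hBC (hAB ha)⟩ (Subgroup.mem_subgroupOf.2 ha) ⟨c, hc⟩
    exact Subgroup.mem_subgroupOf.1 this
  · intro i hi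
    have hi' : i = 0 ∨ i = 1 := by omega
    rcases hi' with rfl | rfl
    · simp only [if_true, zero_add, one_ne_zero, if_false]
      refine ⟨?_, ?_⟩
      · intro x hx
        exact Subgroup.mem_subgroupOf.2 (hAB (Subgroup.mem_subgroupOf.1 hx))
      · constructor
        intro n hn g
        rw [Subgroup.mem_subgroupOf, Subgroup.mem_subgroupOf] at *
        exact h1 _ (Subgroup.mem_subgroupOf.1 g.2) _ hn
    · simp only [one_ne_zero, if_false, if_true, OfNat.ofNat_ne_zero, Nat.reduceAdd,
        OfNat.ofNat_ne_one]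
      refine ⟨le_top, ?_⟩
      constructor
      intro n hn g
      rw [Subgroup.mem_subgroupOf, Subgroup.mem_subgroupOf] at *
      exact h2 _ g.1.2 _ hn

theorem TB2.tbar (hG : TB2 G) : TBar G := by
  intro K H hH
  obtain ⟨n, f, h0, hn, hstep⟩ := hH
  have hK : TB2 K := hG.subgroup K
  -- f 0 is normalised by f i
  have key : ∀ i ≤ n, f 0 ≤ f i ∧ ∀ b ∈ f i, ∀ a ∈ f 0, b * a * b⁻¹ ∈ f 0 := by
    intro i
    induction i with
    | zero =>
      intro _
      exact ⟨le_rfl, fun b hb a ha => (f 0).mul_mem ((f 0).mul_mem hb ha) ((f 0).inv_mem hb)⟩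
    | succ i ih =>
      intro hi
      obtain ⟨h1, h2⟩ := ih (by omega)
      obtain ⟨h3, h4⟩ := hstep i (by omega)
      refine ⟨h1.trans h3, ?_⟩
      refine hK (f 0) (f i) (f (i + 1)) h1 h3 h2 ?_
      intro c hc b hb
      have := h4.conj_mem ⟨b, h3 hb⟩ (Subgroup.mem_subgroupOf.2 hb) ⟨c, hc⟩
      exact Subgroup.mem_subgroupOf.1 this
  constructor
  intro a ha g
  rw [← h0] at ha ⊢
  exact (key n le_rfl).2 g (by rw [hn]; exact Subgroup.mem_top g) a ha

theorem LocGraded.noPerf (hG : TB2 G) (hl : LocGraded G) : NoPerf G := by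
  intro H hH hp
  by_contra hne
  obtain ⟨N, hN, hNt, hNf⟩ := hl H hH hne
  have hs := QuotientGroup.mk'_surjective N
  have hfin : Finite (H ⧸ N) := Subgroup.finite_quotient_of_finiteIndex
  have hnt : Nontrivial (H ⧸ N) := by
    by_contra h
    rw [not_nontrivial_iff_subsingleton] at h
    apply hNt
    rw [eq_top_iff]
    intro x _
    exact (QuotientGroup.eq_one_iff x).1 (Subsingleton.elim _ _)
  have h1 := finite_not_perfect ((hG.subgroup H).quotient N)
  apply h1
  have hcH : commutator H = ⊤ := by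
    apply Subgroup.map_injective H.subtype_injective
    rw [Subgroup.map_subtype_commutator, hp]
    rw [← MonoidHom.range_eq_map, Subgroup.range_subtype]
  have h2 : (commutator H).map (QuotientGroup.mk' N) = commutator (H ⧸ N) := by
    have := map_derivedSeries_eq hs 1
    rwa [derivedSeries_one, derivedSeries_one] at this
  rw [← h2, hcH]
  exact Subgroup.map_top_of_surjective _ hs

/-! ### groups over which locally graded `TB2` groups can be lifted -/

/-- every `TB2` group without finitely generated perfect subgroups mapping to `X` with metabelian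
kernel is metabelian -/
def Cap (X : Type) [Group X] : Prop :=
  ∀ (G : Type) [Group G], TB2 G → NoPerf G → ∀ φ : G →* X, Met φ.ker → MetG G

/-- sections of `X` have the previous property -/
def CapQ (X : Type) [Group X] : Prop :=
  ∀ (Z Y : Type) [Group Z] [Group Y] (i : Z →* X) (q : Z →* Y), Function.Injective i →
    Function.Surjective q → Cap Y

theorem Met.of_le_ker {G X Y : Type} [Group G] [Group X] [Group Y] {φ : G →* X} {ψ : G →* Y}
    (h : Met φ.ker) (hle : ψ.ker ≤ φ.ker) : Met ψ.ker := fun x hx y hy z hz w hw =>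
  h x (hle hx) y (hle hy) z (hle hz) w (hle hw)

theorem Met.restrict {G X : Type} [Group G] [Group X] {φ : G →* X} (h : Met φ.ker)
    {L : Type} [Group L] (j : L →* G) (hj : Function.Injective j) : Met (φ.comp j).ker := by
  intro x hx y hy z hz w hw
  apply hj
  rw [map_mul, map_mul, map_commutatorElement, map_commutatorElement]
  exact h (j x) hx (j y) hy (j z) hz (j w) hw

/-- it is enough to consider finitely generated groups -/
theorem cap_of_fg {X : Type} [Group X]
    (h : ∀ (G : Type) [Group G], Group.FG G → TB2 G → NoPerf G → ∀ φ : G →* X, Met φ.ker →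
      MetG G) : Cap X := by
  intro G _ hG hp φ hφ x y z w
  set L := Subgroup.closure ({x, y, z, w} : Set G) with hL
  have hx : x ∈ L := Subgroup.subset_closure (by simp)
  have hy : y ∈ L := Subgroup.subset_closure (by simp)
  have hz : z ∈ L := Subgroup.subset_closure (by simp)
  have hw : w ∈ L := Subgroup.subset_closure (by simp)
  have hfg : Group.FG L := by
    rw [Group.fg_iff_subgroup_fg]
    rw [Subgroup.fg_iff]
    exact ⟨_, rfl, by simp⟩
  have h1 := h L hfg (hG.subgroup L) (hp.of_injective L.subtype L.subtype_injective)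
    (φ.comp L.subtype) (hφ.restrict L.subtype L.subtype_injective) ⟨x, hx⟩ ⟨y, hy⟩ ⟨z, hz⟩ ⟨w, hw⟩
  have h2 := congrArg L.subtype h1
  simpa only [map_mul, map_commutatorElement, Subgroup.subtype_apply] using h2

theorem Cap.of_injective {X Y : Type} [Group X] [Group Y] (hX : Cap X) (i : Y →* X)
    (hi : Function.Injective i) : Cap Y := by
  intro G _ hG hp φ hφ
  refine hX G hG hp (i.comp φ) ?_
  intro x hx y hy z hz w hw
  have hk : ∀ g : G, (i.comp φ) g = 1 → φ g = 1 := fun g hg => hi (by rw [map_one]; exact hg)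
  exact hφ x (hk x hx) y (hk y hy) z (hk z hz) w (hk w hw)

theorem cap_of_local {X : Type} [Group X] (h : ∀ H : Subgroup X, H.FG → Cap H) : Cap X := by
  apply cap_of_fg
  intro G _ hfg hG hp φ hφ
  have h1 : φ.range.FG := by
    classical
    obtain ⟨S, hS⟩ := Group.fg_def.1 hfg
    refine ⟨S.image φ, ?_⟩
    rw [Finset.coe_image, ← MonoidHom.map_closure, hS, MonoidHom.range_eq_map]
  refine h φ.range h1 G hG hp φ.rangeRestrict ?_
  rw [MonoidHom.ker_rangeRestrict]
  exact hφ

theorem cap_ext {X : Type} [Group X] (K : Subgroup X) [K.Normal] (h1 : Cap K)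
    (h2 : Cap (X ⧸ K)) : Cap X := by
  intro G _ hG hp φ hφ
  refine h2 G hG hp ((QuotientGroup.mk' K).comp φ) ?_
  -- the kernel is the preimage of K
  set G1 := ((QuotientGroup.mk' K).comp φ).ker with hG1
  have hmem : ∀ g ∈ G1, φ g ∈ K := by
    intro g hg
    exact (QuotientGroup.eq_one_iff (φ g)).1 hg
  have h3 := h1 G1 (hG.subgroup G1) (hp.of_injective G1.subtype G1.subtype_injective)
    ((φ.comp G1.subtype).codRestrict K (fun g => hmem g.1 g.2)) (by
      intro x hx y hy z hz w hw
      have hk : ∀ g : G1, ((φ.comp G1.subtype).codRestrict K (fun g => hmem g.1 g.2)) g = 1 →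
          φ g = 1 := fun g hg => congrArg Subtype.val hg
      apply Subtype.ext
      have := hφ x (hk x hx) y (hk y hy) z (hk z hz) w (hk w hw)
      exact this)
  intro x hx y hy z hz w hw
  exact congrArg Subtype.val (h3 ⟨x, hx⟩ ⟨y, hy⟩ ⟨z, hz⟩ ⟨w, hw⟩)

/-- the base case: finitely generated `TB2` subgroups have finitely generated second derived
subgroup -/
theorem cap_of_fg2 {X : Type} [Group X]
    (h : ∀ H : Subgroup X, H.FG → TB2 H → (derivedSeries H 2).FG) : Cap X := by
  apply cap_of_fg
  intro G _ hfg hG hp φ hφ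
  have h1 : φ.range.FG := by
    classical
    obtain ⟨S, hS⟩ := Group.fg_def.1 hfg
    refine ⟨S.image φ, ?_⟩
    rw [Finset.coe_image, ← MonoidHom.map_closure, hS, MonoidHom.range_eq_map]
  have hs := φ.rangeRestrict_surjective
  have h2 := h φ.range h1 (hG.of_surjective φ.rangeRestrict hs)
  rw [← map_derivedSeries_eq hs] at h2
  obtain ⟨L, hL, hLD, hDL⟩ := exists_fg_lift φ.rangeRestrict _ h2
  rw [MonoidHom.ker_rangeRestrict] at hDL
  rw [← derived_two_eq_bot_iff]
  exact core hG hp φ.ker hφ L hL hLD hDL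

theorem CapQ.cap {X : Type} [Group X] (h : CapQ X) : Cap X :=
  h X X (MonoidHom.id X) (MonoidHom.id X) Function.injective_id Function.surjective_id

theorem CapQ.of_injective {X Y : Type} [Group X] [Group Y] (hX : CapQ X) (f : Y →* X)
    (hf : Function.Injective f) : CapQ Y := by
  intro Z W _ _ i q hi hq
  exact hX Z W (f.comp i) q (hf.comp hi) hq

theorem CapQ.of_surjective {X Y : Type} [Group X] [Group Y] (hX : CapQ X) (f : X →* Y)
    (hf : Function.Surjective f) : CapQ Y := by
  intro Z W _ _ i q hi hq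
  -- pull back
  set Z' : Subgroup X := i.range.comap f with hZ'
  have hmem : ∀ z : Z', ∃ y : Z, i y = f z := fun z => z.2
  choose g hg using hmem
  have hgm : ∀ a b : Z', g (a * b) = g a * g b := by
    intro a b
    apply hi
    rw [hg, map_mul, hg, hg]; simp
  let gh : Z' →* Z := MonoidHom.mk' g hgm
  refine hX Z' W Z'.subtype (q.comp gh) Z'.subtype_injective ?_
  refine hq.comp ?_
  intro z
  obtain ⟨x, hx⟩ := hf (i z)
  refine ⟨⟨x, ⟨z, hx.symm⟩⟩, ?_⟩
  apply hi
  change i (g _) = _
  rw [hg]; exact hx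

theorem capQ_ext {X : Type} [Group X] (K : Subgroup X) [hK : K.Normal] (h1 : CapQ K)
    (h2 : CapQ (X ⧸ K)) : CapQ X := by
  intro Z Y _ _ i q hi hq
  set ZK : Subgroup Z := K.comap i with hZK
  have hZKn : ZK.Normal := hK.comap i
  set YK : Subgroup Y := ZK.map q with hYK
  have hYKn : YK.Normal := hZKn.map q hq
  apply cap_ext YK
  · -- ZK → K and ZK → YK
    refine h1 ZK YK ((i.comp ZK.subtype).codRestrict K (fun z => z.2))
      ((q.comp ZK.subtype).codRestrict YK (fun z => ⟨z.1, z.2, rfl⟩)) ?_ ?_
    · intro a b hab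
      apply Subtype.ext
      apply hi
      exact congrArg Subtype.val hab
    · rintro ⟨_, z, hz, rfl⟩
      exact ⟨⟨z, hz⟩, rfl⟩
  · refine h2 (Z ⧸ ZK) (Y ⧸ YK) (QuotientGroup.map ZK K i le_rfl)
      (QuotientGroup.map ZK YK q (by
        intro z hz; exact ⟨z, hz, rfl⟩)) ?_ ?_
    · rw [← MonoidHom.ker_eq_bot_iff, eq_bot_iff]
      intro z hz
      obtain ⟨z, rfl⟩ := QuotientGroup.mk'_surjective ZK z
      rw [MonoidHom.mem_ker] at hz
      have h3 : ((i z : X) : X ⧸ K) = 1 := hz
      rw [QuotientGroup.eq_one_iff] at h3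
      rw [Subgroup.mem_bot]
      exact (QuotientGroup.eq_one_iff z).2 h3
    · intro y
      obtain ⟨y, rfl⟩ := QuotientGroup.mk'_surjective YK y
      obtain ⟨z, rfl⟩ := hq y
      exact ⟨QuotientGroup.mk' ZK z, rfl⟩

theorem capQ_local {X : Type} [Group X] (h : ∀ H : Subgroup X, H.FG → CapQ H) : CapQ X := by
  classical
  intro Z Y _ _ i q hi hq
  apply cap_of_local
  intro L hL
  obtain ⟨S, hS⟩ := hL
  choose g hg using hq
  set ZL : Subgroup Z := Subgroup.closure (S.image g : Finset Z) with hZL
  have hZLfg : (ZL.map i).FG := by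
    refine ⟨(S.image g).image i, ?_⟩
    rw [Finset.coe_image, ← MonoidHom.map_closure]
  have hmap : ZL.map q = L := by
    rw [hZL, MonoidHom.map_closure, ← hS]
    congr 1
    ext y
    constructor
    · rintro ⟨z, hz, rfl⟩
      rw [Finset.mem_coe, Finset.mem_image] at hz
      obtain ⟨s, hs, rfl⟩ := hz
      rw [hg]; exact hs
    · intro hy
      exact ⟨g y, by rw [Finset.mem_coe]; exact Finset.mem_image_of_mem g hy, hg y⟩
  refine h (ZL.map i) hZLfg ZL L
    ((i.comp ZL.subtype).codRestrict (ZL.map i) (fun z => ⟨z.1, z.2, rfl⟩))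
    ((q.comp ZL.subtype).codRestrict L (fun z => by rw [← hmap]; exact ⟨z.1, z.2, rfl⟩)) ?_ ?_
  · intro a b hab
    apply Subtype.ext
    apply hi
    exact congrArg Subtype.val hab
  · rintro ⟨y, hy⟩
    rw [← hmap] at hy
    obtain ⟨z, hz, rfl⟩ := hy
    exact ⟨⟨z, hz⟩, rfl⟩

theorem Restrained.cap {X : Type} [Group X] (hX : Restrained X) : Cap X := by
  apply cap_of_fg2
  intro H hH _
  exact derived_fg (hX.of_injective H.subtype H.subtype_injective)
    ((Group.fg_iff_subgroup_fg H).2 hH) 2

theorem Restrained.capQ {X : Type} [Group X] (hX : Restrained X) : CapQ X := by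
  intro Z Y _ _ i q hi hq
  exact ((hX.of_injective i hi).of_surjective q hq).cap

theorem finite_second_derived {Q : Type} [Group Q] [Finite Q] (hQ : TB2 Q) :
    derivedSeries Q 2 = ⊥ := by
  by_contra hne
  have hnt : Nontrivial (derivedSeries Q 2) := (Subgroup.nontrivial_iff_ne_bot _).2 hne
  have h1 := finite_not_perfect (hQ.subgroup (derivedSeries Q 2))
  apply h1
  apply Subgroup.map_injective (derivedSeries Q 2).subtype_injective
  rw [Subgroup.map_subtype_commutator]
  have h2 : ⁅derivedSeries Q 2, derivedSeries Q 2⁆ = derivedSeries Q 2 := three_eq_two hQ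
  rw [h2, ← MonoidHom.range_eq_map, Subgroup.range_subtype]

/-- residually (finite or solvable) `TB2` groups are metabelian -/
theorem second_derived_of_residually (hG : TB2 G)
    (hr : ∀ x : G, x ≠ 1 → ∃ (N : Subgroup G) (_ : N.Normal), x ∉ N ∧
      (Finite (G ⧸ N) ∨ Group.IsSolvable (G ⧸ N))) :
    derivedSeries G 2 = ⊥ := by
  rw [eq_bot_iff]
  intro x hx
  by_contra hne
  rw [Subgroup.mem_bot] at hne
  obtain ⟨N, hN, hxN, hf⟩ := hr x hne
  have h1 : derivedSeries (G ⧸ N) 2 = ⊥ := by
    rcases hf with hf | hf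
    · exact finite_second_derived (hG.quotient N)
    · obtain ⟨n, hn⟩ := hf.solvable
      exact two_eq_bot_of_eq_bot (hG.quotient N) hn
  rw [← map_derivedSeries_eq (QuotientGroup.mk'_surjective N), Subgroup.map_eq_bot_iff,
    QuotientGroup.ker_mk'] at h1
  exact hxN (h1 hx)

theorem restrained_of_finite [Finite G] : Restrained G := by
  intro a t
  rw [Subgroup.fg_iff]
  exact ⟨_, rfl, Set.toFinite _⟩

theorem restrained_of_comm (h : ∀ a b : G, a * b = b * a) : Restrained G := by
  intro a t
  rw [Subgroup.fg_iff]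
  refine ⟨_, rfl, ?_⟩
  apply Set.Finite.subset (Set.finite_singleton a)
  rintro z ⟨i, rfl⟩
  rw [Set.mem_singleton_iff, h (t ^ i) a, mul_inv_cancel_right]

theorem SG.capQ {G : Type} [inst : Group G] (h : SG G) : CapQ G := by
  induction h with
  | fin G hf => exact restrained_of_finite.capQ
  | comm G hc => exact (restrained_of_comm hc).capQ
  | nfs G hn => exact hn.restrained.capQ
  | res G hn => exact hn.capQ
  | sub G H f hf _ ih => exact ih.of_injective f hf
  | quot G H f hf _ ih => exact ih.of_surjective f hf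
  | ext G N _ _ ih1 ih2 => exact capQ_ext N ih1 ih2
  | union G _ ih => exact capQ_local ih

theorem Cls.cap {G : Type} [inst : Group G] (h : Cls G) : Cap G := by
  induction h with
  | sg G h => exact h.capQ.cap
  | rfs G h =>
    apply cap_of_fg2
    intro H hH hT
    rw [second_derived_of_residually hT (h H hH)]
    exact Subgroup.FG.bot
  | fg2 G h =>
    apply cap_of_fg2
    intro H hH hT
    exact h H hH hT.tbar
  | resid G N hx _ ih =>
    apply cap_of_fg2
    intro H hH hT
    have h0 : derivedSeries H 2 = ⊥ := by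
      rw [eq_bot_iff]
      intro x hxD
      by_contra hne
      rw [Subgroup.mem_bot] at hne
      obtain ⟨h1, h2⟩ := hx H hH x hne
      have hq : TB2 (H ⧸ N H x) := hT.quotient (N H x)
      have h3 : MetG (H ⧸ N H x) := ih H hH x hne _ hq (h2.noPerf hq) (MonoidHom.id _) (by
        intro x hx y _ z _ w _
        have hx' : x = 1 := hx
        subst hx'
        simp)
      rw [← derived_two_eq_bot_iff, ← map_derivedSeries_eq (QuotientGroup.mk'_surjective (N H x)),
        Subgroup.map_eq_bot_iff, QuotientGroup.ker_mk'] at h3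
      exact h1 (h3 hxD)
    rw [h0]
    exact Subgroup.FG.bot
  | sub G H f hf _ ih => exact ih.of_injective f hf
  | ext G N _ _ ih1 ih2 => exact cap_ext N ih1 ih2
  | union G _ ih => exact cap_of_local ih

theorem main_metabelian (hc : Cls G) (hT : TBar G) (hl : LocGraded G) : MetG G := by
  refine hc.cap G hT.tb2 (hl.noPerf hT.tb2) (MonoidHom.id G) ?_
  intro x hx y _ z _ w _
  have hx' : x = 1 := hx
  subst hx'
  simp

theorem main_comm (hc : Cls G) (hT : TBar G) (hl : LocGraded G) (hn : ∃ g : G, ¬ IsOfFinOrder g)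
    (a b : G) : a * b = b * a := by
  obtain ⟨g, hg⟩ := hn
  exact comm_of_metab hT.tb2 (derived_two_eq_bot_iff.2 (main_metabelian hc hT hl)) hg a b

end Pool.Agent.H11.TB
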