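import Pool.Agent.H11.TB.Finite

set_option autoImplicit false

namespace Pool.Agent.H11.TB

open scoped commutatorElement

variable {G : Type} [Group G]

/-- elementwise form of being metabelian -/
def MetG (G : Type) [Group G] : Prop := ∀ x y z w : G, ⁅x, y⁆ * ⁅z, w⁆ = ⁅z, w⁆ * ⁅x, y⁆

/-- elementwise form of being metabelian, for a subgroup -/
def Met (N : Subgroup G) : Prop :=
  ∀ x ∈ N, ∀ y ∈ N, ∀ z ∈ N, ∀ w ∈ N, ⁅x, y⁆ * ⁅z, w⁆ = ⁅z, w⁆ * ⁅x, y⁆

theorem closure_comm {S : Set G} (h : ∀ a ∈ S, ∀ b ∈ S, a * b = b * a) :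
    ∀ a ∈ Subgroup.closure S, ∀ b ∈ Subgroup.closure S, a * b = b * a := by
  have h1 : ∀ b ∈ S, ∀ a ∈ Subgroup.closure S, a * b = b * a := by
    intro b hb a ha
    have : Subgroup.closure S ≤ Subgroup.centralizer {b} := by
      rw [Subgroup.closure_le]
      intro c hc
      exact Subgroup.mem_centralizer_singleton_iff.2 (h c hc b hb)
    exact Subgroup.mem_centralizer_singleton_iff.1 (this ha)
  intro a ha b hb
  have : Subgroup.closure S ≤ Subgroup.centralizer {a} := by
    rw [Subgroup.closure_le]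
    intro c hc
    exact Subgroup.mem_centralizer_singleton_iff.2 (h1 c hc a ha).symm
  exact (Subgroup.mem_centralizer_singleton_iff.1 (this hb)).symm

theorem met_iff (N : Subgroup G) : Met N ↔ ∀ a ∈ ⁅N, N⁆, ∀ b ∈ ⁅N, N⁆, a * b = b * a := by
  constructor
  · intro h
    rw [Subgroup.commutator_def]
    apply closure_comm
    rintro _ ⟨x, hx, y, hy, rfl⟩ _ ⟨z, hz, w, hw, rfl⟩
    exact h x hx y hy z hz w hw
  · intro h x hx y hy z hz w hw
    exact h _ (Subgroup.commutator_mem_commutator hx hy) _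
      (Subgroup.commutator_mem_commutator hz hw)

theorem derived_two_eq_bot_iff : derivedSeries G 2 = ⊥ ↔ MetG G := by
  have h1 : MetG G ↔ Met (⊤ : Subgroup G) := by
    constructor
    · intro h x _ y _ z _ w _; exact h x y z w
    · intro h x y z w
      exact h x (Subgroup.mem_top _) y (Subgroup.mem_top _) z (Subgroup.mem_top _) w
        (Subgroup.mem_top _)
  rw [h1, met_iff]
  have h2 : derivedSeries G 2 = ⁅⁅(⊤ : Subgroup G), ⊤⁆, ⁅(⊤ : Subgroup G), ⊤⁆⁆ := rfl
  rw [h2]
  constructor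
  · intro h a ha b hb
    have := Subgroup.commutator_mem_commutator ha hb
    rw [h, Subgroup.mem_bot, commutatorElement_def] at this
    have e : a * b = (a * b * a⁻¹ * b⁻¹) * (b * a) := by group
    rw [e, this, one_mul]
  · intro h
    rw [eq_bot_iff, Subgroup.commutator_le]
    intro x hx y hy
    rw [Subgroup.mem_bot, commutatorElement_def, h x hx y hy]
    group

theorem NoPerf.of_injective {H : Type} [Group H] (hG : NoPerf G) (f : H →* G)
    (hf : Function.Injective f) : NoPerf H := by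
  intro K hK hp
  have h0 : (K.map f).FG := by
    classical
    obtain ⟨S, hS⟩ := hK
    refine ⟨S.image f, ?_⟩
    rw [Finset.coe_image, ← MonoidHom.map_closure, hS]
  have h1 := hG (K.map f) h0 (by rw [← Subgroup.map_commutator, hp])
  exact (Subgroup.map_eq_bot_iff_of_injective K hf).1 h1

/-- the main step -/
theorem core (hG : TB2 G) (hp : NoPerf G) (N : Subgroup G) [N.Normal] (hN : Met N)
    (L : Subgroup G) (hL : L.FG) (hLD : L ≤ derivedSeries G 2)
    (hcov : derivedSeries G 2 ≤ L ⊔ N) : derivedSeries G 2 = ⊥ := by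
  rw [met_iff] at hN
  set N1 : Subgroup G := ⁅N, N⁆ with hN1
  have hN1n : N1.Normal := Subgroup.commutator_normal N N
  have hN1N : N1 ≤ N := Subgroup.commutator_le_left N N
  have hNn : N.Normal := inferInstance
  -- G' centralises N1
  have h1 : ∀ x ∈ derivedSeries G 1, ∀ n ∈ N1, x * n = n * x := by
    intro x hx n hn
    refine comm_centralizes_of_power N1 ?_ hx hn
    intro c a ha
    exact cyclic_normal_of_abelian hG N1 ⊤ hN le_top (fun c _ a ha => hN1n.conj_mem a ha c) ha
      (Subgroup.mem_top c)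
  -- G' centralises N / N1
  have h2 : ∀ x ∈ derivedSeries G 1, ∀ n ∈ N, n⁻¹ * (x * n * x⁻¹) ∈ N1 := by
    intro x hx n hn
    have hs := QuotientGroup.mk'_surjective N1
    have hG' : TB2 (G ⧸ N1) := hG.quotient N1
    have hx' : QuotientGroup.mk' N1 x ∈ derivedSeries (G ⧸ N1) 1 := by
      rw [← map_derivedSeries_eq hs]
      exact ⟨x, hx, rfl⟩
    have hn' : QuotientGroup.mk' N1 n ∈ N.map (QuotientGroup.mk' N1) := ⟨n, hn, rfl⟩
    have hab : ∀ x ∈ N.map (QuotientGroup.mk' N1), ∀ y ∈ N.map (QuotientGroup.mk' N1),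
        x * y = y * x := by
      rintro _ ⟨x, hx, rfl⟩ _ ⟨y, hy, rfl⟩
      rw [← map_mul, ← map_mul]
      apply QuotientGroup.eq.2
      have h3 := Subgroup.commutator_mem_commutator (N.inv_mem hy) (N.inv_mem hx)
      rw [commutatorElement_def] at h3
      have e : (x * y)⁻¹ * (y * x) = y⁻¹ * x⁻¹ * y⁻¹⁻¹ * x⁻¹⁻¹ := by group
      rw [e]; exact h3
    have h4 := comm_centralizes_of_power (N.map (QuotientGroup.mk' N1)) (by
      intro c a ha
      refine cyclic_normal_of_abelian hG' (N.map (QuotientGroup.mk' N1)) ⊤ hab le_top ?_ ha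
        (Subgroup.mem_top c)
      rintro c _ _ ⟨a, ha, rfl⟩
      obtain ⟨c, rfl⟩ := hs c
      exact ⟨c * a * c⁻¹, hNn.conj_mem a ha c, by simp⟩) hx' hn'
    rw [← map_mul, ← map_mul] at h4
    have h5 := QuotientGroup.eq.1 h4
    -- (x n)⁻¹ (n x) ∈ N1
    have h6 := hN1n.conj_mem _ h5 x
    have h7 : n⁻¹ * (x * n * x⁻¹) = (x * ((x * n)⁻¹ * (n * x)) * x⁻¹)⁻¹ := by group
    rw [h7]; exact N1.inv_mem h6
  -- G'' centralises N
  have h3 : ∀ x ∈ derivedSeries G 2, ∀ n ∈ N, x * n = n * x := by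
    intro x hx n hn
    have hle : derivedSeries G 2 ≤ Subgroup.centralizer {n} := by
      change ⁅derivedSeries G 1, derivedSeries G 1⁆ ≤ _
      rw [Subgroup.commutator_le]
      intro a ha b hb
      rw [Subgroup.mem_centralizer_singleton_iff, commutatorElement_def]
      -- b a n = n d c b a etc
      obtain ⟨c, hc, hcn⟩ : ∃ c ∈ N1, a * n = n * c * a := ⟨_, h2 a ha n hn, by group⟩
      obtain ⟨d, hd, hdn⟩ : ∃ d ∈ N1, b * n = n * d * b := ⟨_, h2 b hb n hn, by group⟩
      have e1 : a * b * n = n * (c * d) * (a * b) := by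
        calc a * b * n = a * (b * n) := by rw [mul_assoc]
          _ = (a * n) * d * b := by rw [hdn]; simp only [mul_assoc]
          _ = n * c * (a * d) * b := by rw [hcn]; simp only [mul_assoc]
          _ = n * c * (d * a) * b := by rw [h1 a ha d hd]
          _ = _ := by simp only [mul_assoc]
      have e2 : b * a * n = n * (d * c) * (b * a) := by
        calc b * a * n = b * (a * n) := by rw [mul_assoc]
          _ = (b * n) * c * a := by rw [hcn]; simp only [mul_assoc]
          _ = n * d * (b * c) * a := by rw [hdn]; simp only [mul_assoc]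
          _ = n * d * (c * b) * a := by rw [h1 b hb c hc]
          _ = _ := by simp only [mul_assoc]
      have e3 : c * d = d * c := hN c hc d hd
      -- (a b)(b a)⁻¹ n = n (a b)(b a)⁻¹
      have hw : ∀ m : G, b * a * m = n * (d * c) * (b * a) → m = n := by
        intro m hm
        have : b * a * m = b * a * n := by rw [hm, e2]
        exact mul_left_cancel this
      have e4 : (b * a)⁻¹ * (n * (d * c)) = n * (b * a)⁻¹ := by
        have : n * (d * c) = b * a * n * (b * a)⁻¹ := by rw [e2]; group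
        rw [this]; group
      have hdc : ∀ m ∈ N1, (a * b) * m = m * (a * b) := by
        intro m hm
        rw [mul_assoc, h1 b hb m hm, ← mul_assoc, h1 a ha m hm, mul_assoc]
      have hdc' : ∀ m ∈ N1, (b * a) * m = m * (b * a) := by
        intro m hm
        rw [mul_assoc, h1 a ha m hm, ← mul_assoc, h1 b hb m hm, mul_assoc]
      have hmem : d * c ∈ N1 := N1.mul_mem hd hc
      have e5 : n * (b * a)⁻¹ = (b * a)⁻¹ * n * (d * c) := by rw [← e4]; simp only [mul_assoc]
      have e6 : (b * a)⁻¹ * n = n * (b * a)⁻¹ * (d * c)⁻¹ := by rw [e5]; group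
      have e7 : a * b * a⁻¹ * b⁻¹ = (a * b) * (b * a)⁻¹ := by group
      have e8 : (b * a)⁻¹ * (d * c)⁻¹ = (d * c)⁻¹ * (b * a)⁻¹ := by
        have h8 : Commute (b * a) (d * c) := hdc' _ hmem
        exact h8.inv_inv.eq
      have e9 : (a * b) * (d * c)⁻¹ = (d * c)⁻¹ * (a * b) := hdc _ (N1.inv_mem hmem)
      calc a * b * a⁻¹ * b⁻¹ * n = (a * b) * ((b * a)⁻¹ * n) := by rw [e7, mul_assoc]
        _ = (a * b) * n * ((b * a)⁻¹ * (d * c)⁻¹) := by rw [e6]; simp only [mul_assoc]
        _ = n * (c * d) * (a * b) * ((d * c)⁻¹ * (b * a)⁻¹) := by rw [e1, e8]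
        _ = n * (c * d) * ((a * b) * (d * c)⁻¹) * (b * a)⁻¹ := by simp only [mul_assoc]
        _ = n * (c * d) * ((d * c)⁻¹ * (a * b)) * (b * a)⁻¹ := by rw [e9]
        _ = n * ((c * d) * (d * c)⁻¹) * ((a * b) * (b * a)⁻¹) := by simp only [mul_assoc]
        _ = n * (a * b * a⁻¹ * b⁻¹) := by rw [e3, mul_inv_cancel, mul_one, ← e7]
    exact Subgroup.mem_centralizer_singleton_iff.1 (hle hx)
  -- the third derived subgroup is contained in the derived subgroup of L
  have h4 : derivedSeries G 3 ≤ ⁅L, L⁆ := by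
    change ⁅derivedSeries G 2, derivedSeries G 2⁆ ≤ _
    rw [Subgroup.commutator_le]
    intro x hx y hy
    obtain ⟨l, hl, n, hn, rfl⟩ := Subgroup.mem_sup_of_normal_right.1 (hcov hx)
    obtain ⟨m, hm, k, hk, rfl⟩ := Subgroup.mem_sup_of_normal_right.1 (hcov hy)
    have hlD := hLD hl
    have hmD := hLD hm
    have c1 : l * n = n * l := h3 l hlD n hn
    have c2 : m * n = n * m := h3 m hmD n hn
    have c3 : l * k = k * l := h3 l hlD k hk
    have c4 : m * k = k * m := h3 m hmD k hk
    have hkD : k ∈ derivedSeries G 2 := by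
      have := (derivedSeries G 2).mul_mem ((derivedSeries G 2).inv_mem hmD) hy
      simpa using this
    have c5 : k * n = n * k := h3 k hkD n hn
    have e : ⁅l * n, m * k⁆ = ⁅l, m⁆ := by
      rw [commutatorElement_def, commutatorElement_def]
      have C1 : Commute l n := c1
      have C2 : Commute m n := c2
      have C3 : Commute l k := c3
      have C4 : Commute m k := c4
      have C5 : Commute k n := c5
      have D1 : l⁻¹ * k = k * l⁻¹ := C3.inv_left.eq
      have D2 : m⁻¹ * n⁻¹ = n⁻¹ * m⁻¹ := C2.inv_inv.eq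
      calc l * n * (m * k) * (l * n)⁻¹ * (m * k)⁻¹
          = l * (n * m) * k * (n⁻¹ * l⁻¹) * (k⁻¹ * m⁻¹) := by group
        _ = l * (m * n) * k * (n⁻¹ * l⁻¹) * (k⁻¹ * m⁻¹) := by rw [c2]
        _ = l * m * (n * k) * (n⁻¹ * l⁻¹) * (k⁻¹ * m⁻¹) := by simp only [mul_assoc]
        _ = l * m * (k * n) * (n⁻¹ * l⁻¹) * (k⁻¹ * m⁻¹) := by rw [c5]
        _ = l * m * (k * l⁻¹) * (k⁻¹ * m⁻¹) := by group
        _ = l * m * (l⁻¹ * k) * (k⁻¹ * m⁻¹) := by rw [D1]
        _ = l * m * l⁻¹ * m⁻¹ := by group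
    rw [e]
    exact Subgroup.commutator_mem_commutator hl hm
  rw [three_eq_two hG] at h4
  have h5 : ⁅L, L⁆ = L := le_antisymm (Subgroup.commutator_le_self L) (hLD.trans h4)
  have h6 := hp L hL h5
  rw [eq_bot_iff]
  refine h4.trans ?_
  rw [h5, h6]

/-- lifting generators -/
theorem exists_fg_lift {H : Type} [Group H] (f : G →* H) (D : Subgroup G)
    (hD : (D.map f).FG) : ∃ L : Subgroup G, L.FG ∧ L ≤ D ∧ D ≤ L ⊔ f.ker := by
  classical
  obtain ⟨S, hS⟩ := hD
  have hch : ∀ s : H, ∃ d : G, s ∈ S → d ∈ D ∧ f d = s := by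
    intro s
    by_cases hs : s ∈ S
    · have : s ∈ D.map f := by rw [← hS]; exact Subgroup.subset_closure hs
      obtain ⟨d, hd, hds⟩ := this
      exact ⟨d, fun _ => ⟨hd, hds⟩⟩
    · exact ⟨1, fun h => absurd h hs⟩
  choose d hd using hch
  refine ⟨Subgroup.closure (S.image d : Finset G), ⟨S.image d, rfl⟩, ?_, ?_⟩
  · rw [Subgroup.closure_le]
    intro x hx
    rw [Finset.mem_coe, Finset.mem_image] at hx
    obtain ⟨s, hs, rfl⟩ := hx
    exact (hd s hs).1
  · intro x hx
    have h1 : f x ∈ (Subgroup.closure (S.image d : Finset G) : Subgroup G).map f := by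
      have h2 : D.map f ≤ (Subgroup.closure (S.image d : Finset G) : Subgroup G).map f := by
        rw [← hS, Subgroup.closure_le]
        intro s hs
        exact ⟨d s, Subgroup.subset_closure (by
          rw [Finset.mem_coe]; exact Finset.mem_image_of_mem d hs), (hd s hs).2⟩
      exact h2 ⟨x, hx, rfl⟩
    obtain ⟨l, hl, hlx⟩ := h1
    have h3 : l⁻¹ * x ∈ f.ker := by
      rw [MonoidHom.mem_ker, map_mul, map_inv, hlx, inv_mul_cancel]
    have h4 : x = l * (l⁻¹ * x) := by group
    rw [h4]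
    exact Subgroup.mul_mem_sup hl h3

end Pool.Agent.H11.TB
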