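import Mathlib

set_option autoImplicit false

/-! Definitions used in the statements about groups all of whose subgroups are T-groups. -/

namespace Pool.Agent.H11.TB

/-- `H` is subnormal in `K` -/
def IsSubnormal {K : Type} [Group K] (H : Subgroup K) : Prop :=
  ∃ n : ℕ, ∃ f : ℕ → Subgroup K, f 0 = H ∧ f n = ⊤ ∧
    ∀ i < n, f i ≤ f (i + 1) ∧ ((f i).subgroupOf (f (i + 1))).Normal

/-- in every subgroup, subnormal subgroups are normal -/
def TBar (G : Type) [Group G] : Prop :=
  ∀ K : Subgroup G, ∀ H : Subgroup K, IsSubnormal H → H.Normal

/-- nontrivial finitely generated subgroups have proper normal subgroups of finite index -/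
def LocGraded (G : Type) [Group G] : Prop :=
  ∀ H : Subgroup G, H.FG → H ≠ ⊥ → ∃ N : Subgroup H, N.Normal ∧ N ≠ ⊤ ∧ N.FiniteIndex

/-- the value of a word in two letters -/
def word {G : Type} [Group G] (x y : G) (w : List Bool) : G := (w.map fun b => if b then x else y).prod

/-- no two elements generate a free subsemigroup of rank two -/
def NoFreeSemi (G : Type) [Group G] : Prop :=
  ∀ x y : G, ∃ u v : List Bool, u ≠ v ∧ word x y u = word x y v

/-- restrained groups: the conjugates of an element by the powers of another element generate a
finitely generated subgroup -/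
def Restrained (G : Type) [Group G] : Prop :=
  ∀ a t : G, (Subgroup.closure {z : G | ∃ i : ℤ, z = t ^ i * a * (t ^ i)⁻¹}).FG

/-- the closure of the class of restrained groups (which contains all finite groups, all abelian
groups and all groups without free subsemigroups) under subgroups, quotients, extensions and
directed unions -/
inductive SG : (G : Type) → [Group G] → Prop
  | fin (G : Type) [Group G] : Finite G → SG G
  | comm (G : Type) [Group G] : (∀ a b : G, a * b = b * a) → SG G
  | nfs (G : Type) [Group G] : NoFreeSemi G → SG G
  | res (G : Type) [Group G] : Restrained G → SG G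
  | sub (G H : Type) [Group G] [Group H] (f : H →* G) : Function.Injective f → SG G → SG H
  | quot (G H : Type) [Group G] [Group H] (f : G →* H) : Function.Surjective f → SG G → SG H
  | ext (G : Type) [Group G] (N : Subgroup G) [N.Normal] : SG N → SG (G ⧸ N) → SG G
  | union (G : Type) [Group G] : (∀ H : Subgroup G, H.FG → SG H) → SG G

/-- the final class: it contains `SG`, the groups whose finitely generated subgroups are
residually (finite or solvable), and the groups in which every finitely generated subgroup all of
whose subgroups are T-groups has a finitely generated second derived subgroup; it is closed under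
subgroups, extensions, directed unions, and contains `G` if every finitely generated subgroup of
`G` is residually (a locally graded member of the class) -/
inductive Cls : (G : Type) → [Group G] → Prop
  | sg (G : Type) [Group G] : SG G → Cls G
  | rfs (G : Type) [Group G] : (∀ H : Subgroup G, H.FG → ∀ x : H, x ≠ 1 →
      ∃ (N : Subgroup H) (_ : N.Normal), x ∉ N ∧ (Finite (H ⧸ N) ∨ Group.IsSolvable (H ⧸ N))) → Cls G
  | fg2 (G : Type) [Group G] :
      (∀ H : Subgroup G, H.FG → TBar H → (derivedSeries H 2).FG) → Cls G
  | resid (G : Type) [Group G] (N : (H : Subgroup G) → H → Subgroup H)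
      [∀ H x, (N H x).Normal] :
      (∀ H : Subgroup G, H.FG → ∀ x : H, x ≠ 1 → x ∉ N H x ∧ LocGraded (H ⧸ N H x)) →
      (∀ H : Subgroup G, H.FG → ∀ x : H, x ≠ 1 → Cls (H ⧸ N H x)) → Cls G
  | sub (G H : Type) [Group G] [Group H] (f : H →* G) : Function.Injective f → Cls G → Cls H
  | ext (G : Type) [Group G] (N : Subgroup G) [N.Normal] : Cls N → Cls (G ⧸ N) → Cls G
  | union (G : Type) [Group G] : (∀ H : Subgroup G, H.FG → Cls H) → Cls G

/-- every nontrivial finitely generated subgroup has an infinite cyclic quotient -/
def LocIndicable (G : Type) [Group G] : Prop :=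
  ∀ H : Subgroup G, H.FG → H ≠ ⊥ → ∃ f : H →* Multiplicative ℤ, Function.Surjective f

end Pool.Agent.H11.TB
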