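import Pool.Agent.H11.TB.Basic

set_option autoImplicit false

namespace Pool.Agent.H11.TB

variable {G : Type} [Group G]

/-- no nontrivial finitely generated subgroup is perfect -/
def NoPerf (G : Type) [Group G] : Prop := ∀ H : Subgroup G, H.FG → ⁅H, H⁆ = H → H = ⊥

theorem comm_centralizes_of_power (N : Subgroup G)
    (h : ∀ c : G, ∀ a ∈ N, c * a * c⁻¹ ∈ Subgroup.zpowers a) {x : G}
    (hx : x ∈ derivedSeries G 1) {n : G} (hn : n ∈ N) : x * n = n * x := by
  have h1 : derivedSeries G 1 ≤ Subgroup.centralizer {n} := by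
    rw [derivedSeries_succ, derivedSeries_zero, Subgroup.commutator_le]
    intro a _ b _
    rw [Subgroup.mem_centralizer_singleton_iff, commutatorElement_def]
    obtain ⟨i, hi⟩ := h a n hn
    obtain ⟨j, hj⟩ := h b n hn
    simp only at hi hj
    have e1 : a * b * n * (a * b)⁻¹ = n ^ (i * j) := by
      have : a * b * n * (a * b)⁻¹ = a * (b * n * b⁻¹) * a⁻¹ := by group
      rw [this, ← hj, ← conj_zpow, ← hi, zpow_mul]
    have e2 : b * a * n * (b * a)⁻¹ = n ^ (i * j) := by
      have : b * a * n * (b * a)⁻¹ = b * (a * n * a⁻¹) * b⁻¹ := by group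
      rw [this, ← hi, ← conj_zpow, ← hj, ← zpow_mul, mul_comm]
    have e3 : a * b * n * (a * b)⁻¹ = b * a * n * (b * a)⁻¹ := by rw [e1, e2]
    have e4 : a * b * a⁻¹ * b⁻¹ = (a * b) * (b * a)⁻¹ := by group
    have e3' : ∀ m ∈ Subgroup.zpowers n, a * b * m * (a * b)⁻¹ = b * a * m * (b * a)⁻¹ := by
      rintro _ ⟨k, rfl⟩
      simp only
      rw [← conj_zpow, ← conj_zpow, e3]
    have h5 : (b * a)⁻¹ * n * (b * a) ∈ Subgroup.zpowers n := by
      have h6 := h b⁻¹ n hn
      obtain ⟨k, hk⟩ := h6
      simp only at hk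
      have h7 := h a⁻¹ n hn
      obtain ⟨l, hl⟩ := h7
      simp only at hl
      have : (b * a)⁻¹ * n * (b * a) = a⁻¹ * (b⁻¹ * n * b⁻¹⁻¹) * a⁻¹⁻¹ := by group
      rw [this, ← hk, ← conj_zpow, ← hl, ← zpow_mul]
      exact ⟨l * k, rfl⟩
    have h6 := e3' _ h5
    have h7 : b * a * ((b * a)⁻¹ * n * (b * a)) * (b * a)⁻¹ = n := by group
    rw [h7] at h6
    have h8 : (a * b) * (b * a)⁻¹ * n * ((a * b) * (b * a)⁻¹)⁻¹ = n := by
      calc (a * b) * (b * a)⁻¹ * n * ((a * b) * (b * a)⁻¹)⁻¹
          = a * b * ((b * a)⁻¹ * n * (b * a)) * (a * b)⁻¹ := by group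
        _ = n := h6
    rw [e4]
    rw [mul_inv_eq_iff_eq_mul] at h8
    exact h8
  exact Subgroup.mem_centralizer_singleton_iff.1 (h1 hx)

theorem derived_conj_mem (n : ℕ) (c : G) {a : G} (ha : a ∈ derivedSeries G n) :
    c * a * c⁻¹ ∈ derivedSeries G n :=
  (derivedSeries_normal G n).conj_mem a ha c

theorem derived_comm_mem (n : ℕ) {x y : G} (hx : x ∈ derivedSeries G n)
    (hy : y ∈ derivedSeries G n) : x * y * x⁻¹ * y⁻¹ ∈ derivedSeries G (n + 1) := by
  rw [← commutatorElement_def]
  exact Subgroup.commutator_mem_commutator hx hy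

theorem metab_of_three (hG : TB2 G) (h3 : derivedSeries G 3 = ⊥) : derivedSeries G 2 = ⊥ := by
  have hab : ∀ x ∈ derivedSeries G 2, ∀ y ∈ derivedSeries G 2, x * y = y * x := by
    intro x hx y hy
    have := derived_comm_mem 2 hx hy
    rw [h3, Subgroup.mem_bot] at this
    have e : x * y = (x * y * x⁻¹ * y⁻¹) * (y * x) := by group
    rw [e, this, one_mul]
  have h1 : ∀ c : G, ∀ a ∈ derivedSeries G 2, c * a * c⁻¹ ∈ Subgroup.zpowers a := by
    intro c a ha
    exact cyclic_normal_of_abelian hG (derivedSeries G 2) ⊤ hab le_top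
      (fun c _ a ha => derived_conj_mem 2 c ha) ha (Subgroup.mem_top c)
  have h2 : ∀ x ∈ derivedSeries G 1, ∀ n ∈ derivedSeries G 2, x * n = n * x := fun x hx n hn =>
    comm_centralizes_of_power (derivedSeries G 2) h1 hx hn
  have h4 : ∀ c : G, ∀ a ∈ derivedSeries G 1, c * a * c⁻¹ ∈ Subgroup.zpowers a := by
    intro c a ha
    refine cyclic_normal_of_class_two hG (derivedSeries G 1) ⊤ ?_ le_top
      (fun c _ a ha => derived_conj_mem 1 c ha) ha (Subgroup.mem_top c)
    intro x hx y hy z hz
    exact (h2 z hz _ (derived_comm_mem 1 hx hy)).symm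
  have h5 : ∀ x ∈ derivedSeries G 1, ∀ n ∈ derivedSeries G 1, x * n = n * x := fun x hx n hn =>
    comm_centralizes_of_power (derivedSeries G 1) h4 hx hn
  rw [eq_bot_iff]
  change ⁅derivedSeries G 1, derivedSeries G 1⁆ ≤ ⊥
  rw [Subgroup.commutator_le]
  intro x hx y hy
  rw [Subgroup.mem_bot, commutatorElement_def, h5 x hx y hy]
  group

theorem three_eq_two (hG : TB2 G) : derivedSeries G 3 = derivedSeries G 2 := by
  apply le_antisymm
  · exact derivedSeries_antitone G (by norm_num)
  · have hs := QuotientGroup.mk'_surjective (derivedSeries G 3)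
    have h1 : derivedSeries (G ⧸ derivedSeries G 3) 3 = ⊥ := by
      rw [← map_derivedSeries_eq hs, Subgroup.map_eq_bot_iff, QuotientGroup.ker_mk']
    have h2 := metab_of_three (hG.quotient _) h1
    rw [← map_derivedSeries_eq hs, Subgroup.map_eq_bot_iff, QuotientGroup.ker_mk'] at h2
    exact h2

theorem series_eq_two (hG : TB2 G) (n : ℕ) : derivedSeries G (n + 2) = derivedSeries G 2 := by
  induction n with
  | zero => rfl
  | succ n ih =>
    have : derivedSeries G (n + 1 + 2) = ⁅derivedSeries G (n + 2), derivedSeries G (n + 2)⁆ := rfl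
    rw [this, ih]
    exact three_eq_two hG

theorem two_eq_bot_of_eq_bot (hG : TB2 G) {n : ℕ} (h : derivedSeries G n = ⊥) :
    derivedSeries G 2 = ⊥ := by
  rw [← series_eq_two hG n, eq_bot_iff, ← h]
  exact derivedSeries_antitone G (by omega)

/-- a nonperiodic class two `TB2` group is commutative -/
theorem comm_of_class_two (hG : TB2 G)
    (hcl : ∀ x y z : G, (x * y * x⁻¹ * y⁻¹) * z = z * (x * y * x⁻¹ * y⁻¹))
    {g : G} (hg : ¬ IsOfFinOrder g) (a b : G) : a * b = b * a := by
  have h1 := central_of_class_two hG ⊤ (fun x _ y _ z _ => hcl x y z)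
    (fun _ _ _ => Subgroup.mem_top _) (Subgroup.mem_top g) hg
  exact class_two_le_center hG hg h1 ⊤ (fun x _ y _ z _ => hcl x y z)
    (fun _ _ _ => Subgroup.mem_top _) b (Subgroup.mem_top b) a

/-- elements of infinite order centralise an abelian normal subgroup -/
theorem centralizes_abelian (hG : TB2 G) (A : Subgroup G)
    (hab : ∀ x ∈ A, ∀ y ∈ A, x * y = y * x) (hn : ∀ c : G, ∀ a ∈ A, c * a * c⁻¹ ∈ A)
    {g : G} (hg : ¬ IsOfFinOrder g) {a : G} (ha : a ∈ A) : g * a = a * g := by
  have hcyc : ∀ c : G, c * a * c⁻¹ ∈ Subgroup.zpowers a := fun c =>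
    cyclic_normal_of_abelian hG A ⊤ hab le_top (fun c _ => hn c) ha (Subgroup.mem_top c)
  by_cases hfin : IsOfFinOrder a
  · -- some positive power of g commutes with a
    have hcycg : ∀ i : ℕ, g ^ i * a * (g ^ i)⁻¹ ∈ Subgroup.zpowers a := fun i => hcyc _
    have hfinite : Finite (Subgroup.zpowers a) := by
      exact Set.finite_coe_iff.2 (finite_zpowers.2 hfin)
    obtain ⟨i, j, hij, he⟩ : ∃ i j : ℕ, i < j ∧
        g ^ i * a * (g ^ i)⁻¹ = g ^ j * a * (g ^ j)⁻¹ := by
      have hni : ¬ Function.Injective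
          (fun i : ℕ => (⟨g ^ i * a * (g ^ i)⁻¹, hcycg i⟩ : Subgroup.zpowers a)) := by
        intro hinj
        exact not_injective_infinite_finite _ hinj
      rw [Function.Injective] at hni
      push Not at hni
      obtain ⟨i, j, he, hne⟩ := hni
      have he' : g ^ i * a * (g ^ i)⁻¹ = g ^ j * a * (g ^ j)⁻¹ := congrArg Subtype.val he
      rcases lt_or_gt_of_ne hne with h | h
      · exact ⟨i, j, h, he'⟩
      · exact ⟨j, i, h, he'.symm⟩
    obtain ⟨k, rfl⟩ := Nat.exists_eq_add_of_lt hij
    have hk : g ^ (k + 1) * a = a * g ^ (k + 1) := by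
      have e : g ^ (i + k + 1) = g ^ i * g ^ (k + 1) := by rw [← pow_add]; rfl
      rw [e] at he
      have h2 : g ^ i * g ^ (k + 1) * a * (g ^ i * g ^ (k + 1))⁻¹ =
          g ^ i * (g ^ (k + 1) * a * (g ^ (k + 1))⁻¹) * (g ^ i)⁻¹ := by group
      rw [h2] at he
      have h3 := mul_right_cancel he
      have h4 := mul_left_cancel h3
      rw [eq_mul_inv_iff_mul_eq] at h4
      exact h4.symm
    -- K = closure {a, g}
    set K := Subgroup.closure ({a, g} : Set G) with hK
    have haK : a ∈ K := Subgroup.subset_closure (by simp)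
    have hgK : g ∈ K := Subgroup.subset_closure (by simp)
    have hKc : ∀ x ∈ K, x * g ^ (k + 1) = g ^ (k + 1) * x := by
      intro x hx
      have : K ≤ Subgroup.centralizer {g ^ (k + 1)} := by
        rw [hK, Subgroup.closure_le]
        rintro y (rfl | hy)
        · exact Subgroup.mem_centralizer_singleton_iff.2 hk.symm
        · rw [Set.mem_singleton_iff] at hy; subst hy
          exact Subgroup.mem_centralizer_singleton_iff.2 ((Commute.refl y).pow_right _).eq
      exact Subgroup.mem_centralizer_singleton_iff.1 (this hx)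
    have hcK := class_two_le_center (hG.subgroup K) (z := (⟨g ^ (k + 1), K.pow_mem hgK _⟩ : K))
      (by
        intro h
        have h' : IsOfFinOrder (g ^ (k + 1)) := K.subtype.isOfFinOrder h
        exact hg ((isOfFinOrder_pow.1 h').resolve_right (by omega)))
      (by
        rintro ⟨x, hx⟩
        exact Subtype.ext (hKc x hx))
      ((Subgroup.zpowers a).subgroupOf K)
      (by
        rintro ⟨x, hxK⟩ hx ⟨y, hyK⟩ hy ⟨z, hzK⟩ hz
        rw [Subgroup.mem_subgroupOf] at hx hy hz
        obtain ⟨i, hi⟩ := hx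
        obtain ⟨j, hj⟩ := hy
        obtain ⟨l, hl⟩ := hz
        apply Subtype.ext
        simp only at hi hj hl
        simp only [Subgroup.coe_mul, Subgroup.coe_inv, ← hi, ← hj, ← hl]
        group)
      (by
        rintro ⟨c, hc⟩ ⟨x, hxK⟩ hx
        rw [Subgroup.mem_subgroupOf] at *
        obtain ⟨i, hi⟩ := hx
        simp only at hi
        simp only [Subgroup.coe_mul, Subgroup.coe_inv, ← hi]
        rw [← conj_zpow]
        exact Subgroup.zpow_mem _ (hcyc c) i)
      ⟨a, haK⟩ (by rw [Subgroup.mem_subgroupOf]; exact Subgroup.mem_zpowers a) ⟨g, hgK⟩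
    exact congrArg Subtype.val hcK
  · have h2 : g⁻¹ * a * g ∈ Subgroup.zpowers a := by simpa using hcyc g⁻¹
    have := commute_of_normalizes hG hfin (hcyc g) h2
    rw [mul_inv_eq_iff_eq_mul] at this
    exact this

/-- the main classical fact: nonperiodic metabelian `TB2` groups are commutative -/
theorem comm_of_metab (hG : TB2 G) (h2 : derivedSeries G 2 = ⊥) {g : G}
    (hg : ¬ IsOfFinOrder g) (a b : G) : a * b = b * a := by
  have hab : ∀ x ∈ derivedSeries G 1, ∀ y ∈ derivedSeries G 1, x * y = y * x := by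
    intro x hx y hy
    have := derived_comm_mem 1 hx hy
    rw [h2, Subgroup.mem_bot] at this
    have e : x * y = (x * y * x⁻¹ * y⁻¹) * (y * x) := by group
    rw [e, this, one_mul]
  have hcomm : ∀ x y : G, x * y * x⁻¹ * y⁻¹ ∈ derivedSeries G 1 := fun x y =>
    derived_comm_mem 0 (by simp) (by simp)
  have hinf : ∀ x : G, ¬ IsOfFinOrder x → ∀ n ∈ derivedSeries G 1, x * n = n * x := fun x hx n hn =>
    centralizes_abelian hG (derivedSeries G 1) hab (fun c _ ha => derived_conj_mem 1 c ha) hx hn
  -- every element centralises the derived subgroup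
  have hall : ∀ x : G, ∀ n ∈ derivedSeries G 1, x * n = n * x := by
    intro x n hn
    by_cases hx : IsOfFinOrder x
    · by_cases hgx : IsOfFinOrder (g * x)
      · -- then some power of g lies in the derived subgroup
        obtain ⟨m, hm, hxm⟩ := isOfFinOrder_iff_pow_eq_one.1 hx
        obtain ⟨k, hk, hgk⟩ := isOfFinOrder_iff_pow_eq_one.1 hgx
        have h1 : (g ^ (m * k)) ∈ derivedSeries G 1 := by
          have hq : ∀ y : G ⧸ derivedSeries G 1, ∀ z : G ⧸ derivedSeries G 1, y * z = z * y := by
            intro y z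
            obtain ⟨y, rfl⟩ := QuotientGroup.mk'_surjective _ y
            obtain ⟨z, rfl⟩ := QuotientGroup.mk'_surjective _ z
            rw [← map_mul, ← map_mul]
            apply (QuotientGroup.eq).2
            have := hcomm (y⁻¹) (z⁻¹)
            have e : (y * z)⁻¹ * (z * y) = z⁻¹ * y⁻¹ * (z⁻¹)⁻¹ * (y⁻¹)⁻¹ := by group
            rw [e]; exact hcomm _ _
          have h3 : (QuotientGroup.mk' (derivedSeries G 1) g *
              QuotientGroup.mk' (derivedSeries G 1) x) ^ (m * k) = 1 := by
            rw [← map_mul, ← map_pow, mul_comm m k, pow_mul, hgk, one_pow, map_one]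
          have h4 : Commute (QuotientGroup.mk' (derivedSeries G 1) g)
              (QuotientGroup.mk' (derivedSeries G 1) x) := hq _ _
          rw [h4.mul_pow, ← map_pow, ← map_pow, pow_mul x, hxm, one_pow, map_one, mul_one] at h3
          exact (QuotientGroup.eq_one_iff _).1 h3
        -- g^(mk) is an element of infinite order of the abelian normal subgroup
        have h5 : ¬ IsOfFinOrder (g ^ (m * k)) := by
          intro h
          exact hg ((isOfFinOrder_pow.1 h).resolve_right (by positivity))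
        have hcyc : ∀ (c : G) (a : G), a ∈ derivedSeries G 1 → ¬ IsOfFinOrder a →
            c * a = a * c := by
          intro c a ha hinfa
          have hcyc : ∀ c : G, c * a * c⁻¹ ∈ Subgroup.zpowers a := fun c =>
            cyclic_normal_of_abelian hG _ ⊤ hab le_top (fun c _ _ h => derived_conj_mem 1 c h)
              ha (Subgroup.mem_top c)
          have h2 : c⁻¹ * a * c ∈ Subgroup.zpowers a := by simpa using hcyc c⁻¹
          have := commute_of_normalizes hG hinfa (hcyc c) h2
          rw [mul_inv_eq_iff_eq_mul] at this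
          exact this
        by_cases hnf : IsOfFinOrder n
        · have h6 : ¬ IsOfFinOrder (n * g ^ (m * k)) :=
            not_finOrder_mul h5 (hab n hn _ h1) hnf
          have h7 := hcyc x _ ((derivedSeries G 1).mul_mem hn h1) h6
          have h8 := hcyc x _ h1 h5
          have h9 : x * n * g ^ (m * k) = n * x * g ^ (m * k) := by
            rw [mul_assoc, h7, mul_assoc, ← h8, mul_assoc]
          exact mul_right_cancel h9
        · exact hcyc x n hn hnf
      · have h1 := hinf g hg n hn
        have h2 := hinf (g * x) hgx n hn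
        have h3 : g * (x * n) = g * (n * x) := by
          rw [← mul_assoc, h2, ← mul_assoc, ← h1, mul_assoc]
        exact mul_left_cancel h3
    · exact hinf x hx n hn
  exact comm_of_class_two hG (fun x y z => (hall z _ (hcomm x y)).symm) hg a b

theorem comm_of_solvable (hG : TB2 G) {n : ℕ} (h : derivedSeries G n = ⊥) {g : G}
    (hg : ¬ IsOfFinOrder g) (a b : G) : a * b = b * a :=
  comm_of_metab hG (two_eq_bot_of_eq_bot hG h) hg a b

end Pool.Agent.H11.TB
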