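import Pool.Agent.H11.TB.Derived

set_option autoImplicit false

namespace Pool.Agent.H11.TB

open Subgroup
open scoped commutatorElement

/-- every subgroup of a finite `p`-group satisfying `TB2` is normal -/
theorem conj_mem_of_pgroup {P : Type} [Group P] [Finite P] {p : ℕ} [Fact p.Prime]
    (hp : IsPGroup p P) (hP : TB2 P) (H : Subgroup P) (c : P) {a : P} (ha : a ∈ H) :
    c * a * c⁻¹ ∈ H := by
  have hnil : Group.IsNilpotent P := hp.isNilpotent
  have hnc : NormalizerCondition P := Group.normalizerCondition_of_isNilpotent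
  by_cases htop : normalizer (H : Set P) = (⊤ : Subgroup P)
  · have : c ∈ normalizer (H : Set P) := by rw [htop]; exact Subgroup.mem_top c
    exact (mem_normalizer_iff.1 this a).1 ha
  · exfalso
    have hlt := hnc (normalizer (H : Set P)) (lt_top_iff_ne_top.2 htop)
    have hle : normalizer ((normalizer (H : Set P) : Subgroup P) : Set P) ≤ normalizer (H : Set P) := by
      intro d hd
      have h1 : ∀ e ∈ normalizer ((normalizer (H : Set P) : Subgroup P) : Set P), ∀ a ∈ H, e * a * e⁻¹ ∈ H := by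
        refine hP H (normalizer (H : Set P)) (normalizer ((normalizer (H : Set P) : Subgroup P) : Set P)) le_normalizer
          le_normalizer ?_ ?_
        · intro b hb a ha
          exact (mem_normalizer_iff.1 hb a).1 ha
        · intro b hb a ha
          exact (mem_normalizer_iff.1 hb a).1 ha
      rw [mem_normalizer_iff]
      intro h
      constructor
      · exact h1 d hd h
      · intro hh
        have := h1 d⁻¹ (Subgroup.inv_mem _ hd) _ hh
        have e : d⁻¹ * (d * h * d⁻¹) * d⁻¹⁻¹ = h := by group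
        rwa [e] at this
    exact absurd hle (not_le_of_gt hlt)

section
variable {Q : Type} [Group Q] [Finite Q]

theorem zpowers_conj_of_mem {p : ℕ} [Fact p.Prime] (hQ : TB2 Q) (P : Sylow p Q) {x c : Q}
    (hx : x ∈ P) (hc : c ∈ P) : c * x * c⁻¹ ∈ zpowers x := by
  have := conj_mem_of_pgroup (P := P) P.2 (hQ.subgroup P) (zpowers (⟨x, hx⟩ : P)) ⟨c, hc⟩
    (mem_zpowers _)
  obtain ⟨k, hk⟩ := this
  refine ⟨k, ?_⟩
  have := congrArg Subtype.val hk
  simpa using this

/-- conjugate elements of a Sylow subgroup generate the same subgroup -/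
theorem fusion {p : ℕ} [Fact p.Prime] (hQ : TB2 Q) (P : Sylow p Q) {x g : Q}
    (hx : x ∈ P) (hy : g⁻¹ * x * g ∈ P) : g ∈ normalizer (zpowers x : Set Q) := by
  have hnz : ∀ (y : Q) (c : Q), (∀ d ∈ zpowers c, d * y * d⁻¹ ∈ zpowers y) →
      c ∈ normalizer (zpowers y : Set Q) := by
    intro y c h
    rw [mem_normalizer_iff]
    intro z
    constructor
    · rintro ⟨i, rfl⟩
      simp only
      rw [← conj_zpow]
      exact Subgroup.zpow_mem _ (h c (mem_zpowers c)) i
    · rintro ⟨i, hi⟩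
      simp only at hi
      have h1 := h c⁻¹ (inv_mem (mem_zpowers c))
      have h2 : z = (c⁻¹ * y * c⁻¹⁻¹) ^ i := by
        rw [conj_zpow, hi]; group
      rw [h2]
      exact Subgroup.zpow_mem _ h1 i
  have h1 : (P : Subgroup Q) ≤ normalizer (zpowers x : Set Q) := by
    intro c hc
    refine hnz x c ?_
    intro d hd
    have hdP : d ∈ P := (zpowers_le.2 hc) hd
    exact zpowers_conj_of_mem hQ P hx hdP
  have h2 : ↑(g • P) ≤ normalizer (zpowers x : Set Q) := by
    rintro - ⟨z, hz, rfl⟩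
    refine hnz x _ ?_
    rintro d ⟨i, rfl⟩
    simp only [MulDistribMulAction.toMonoidEnd_apply, MulDistribMulAction.toMonoidHom_apply,
      MulAut.smul_def, MulAut.conj_apply]
    have hzi : z ^ i ∈ P := zpow_mem hz i
    obtain ⟨k, hk⟩ := zpowers_conj_of_mem hQ P hy hzi
    simp only at hk
    refine ⟨k, ?_⟩
    simp only
    have e1 : (g * z * g⁻¹) ^ i = g * z ^ i * g⁻¹ := by rw [conj_zpow]
    rw [e1]
    have e2 : g * z ^ i * g⁻¹ * x * (g * z ^ i * g⁻¹)⁻¹ =
        g * (z ^ i * (g⁻¹ * x * g) * (z ^ i)⁻¹) * g⁻¹ := by group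
    rw [e2, ← hk]
    have e3 : g⁻¹ * x * g = g⁻¹ * x * g⁻¹⁻¹ := by rw [inv_inv]
    rw [e3, conj_zpow]; group
  obtain ⟨h, hh⟩ :=
    MulAction.exists_smul_eq (normalizer (zpowers x : Set Q)) ((g • P).subtype h2) (P.subtype h1)
  simp_rw [Sylow.smul_subtype, Subgroup.smul_def, smul_smul] at hh
  have h3 : (h : Q) * g ∈ normalizer (P : Set Q) :=
    Sylow.smul_eq_iff_mem_normalizer.mp (Sylow.subtype_injective hh)
  have h4 : ∀ c ∈ normalizer (P : Set Q), ∀ a ∈ zpowers x, c * a * c⁻¹ ∈ zpowers x := by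
    refine hQ (zpowers x) (P : Subgroup Q) (normalizer (P : Set Q)) (zpowers_le.2 hx) le_normalizer ?_ ?_
    · intro b hb a ha
      exact (mem_normalizer_iff.1 (h1 hb) a).1 ha
    · intro b hb a ha
      exact (mem_normalizer_iff.1 hb a).1 ha
  have h5 : (h : Q) * g ∈ normalizer (zpowers x : Set Q) := by
    apply hnz
    intro d hd
    exact h4 d ((zpowers_le.2 h3) hd) x (mem_zpowers x)
  have h6 : g = (h : Q)⁻¹ * ((h : Q) * g) := by group
  rw [h6]
  exact mul_mem (inv_mem h.2) h5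

/-- the key arithmetic: homomorphisms to groups of exponent `p` do not see conjugation -/
theorem hom_conj_eq {p : ℕ} [Fact p.Prime] (hpmin : p = (Nat.card Q).minFac) (hQ : TB2 Q)
    (P : Sylow p Q) {A : Type} [Group A] (φ : P →* A) (hA : ∀ a : A, a ^ p = 1) {x g : Q}
    (hx : x ∈ P) (hy : g⁻¹ * x * g ∈ P) : φ ⟨g⁻¹ * x * g, hy⟩ = φ ⟨x, hx⟩ := by
  have hpp : p.Prime := Fact.out
  by_cases hx1 : x = 1
  · subst hx1
    congr 1
    apply Subtype.ext
    simp
  have hn := fusion hQ P hx hy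
  have hmem : g⁻¹ * x * g ∈ zpowers x := by
    have := (mem_normalizer_iff''.1 hn x).1 (mem_zpowers x)
    exact this
  have hxfin : IsOfFinOrder x := isOfFinOrder_of_finite x
  rw [← hxfin.mem_powers_iff_mem_zpowers] at hmem
  obtain ⟨k, hk⟩ := hmem
  simp only at hk
  -- g^{-n} x g^n = x^(k^n)
  have hpow : ∀ n : ℕ, (g ^ n)⁻¹ * x * g ^ n = x ^ (k ^ n) := by
    intro n
    induction n with
    | zero => simp
    | succ n ih =>
      have : (g ^ (n + 1))⁻¹ * x * g ^ (n + 1) = g⁻¹ * ((g ^ n)⁻¹ * x * g ^ n) * g := by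
        rw [pow_succ]; group
      rw [this, ih]
      have e3 : g⁻¹ * x ^ k ^ n * g = (g⁻¹ * x * g⁻¹⁻¹) ^ k ^ n := by
        rw [conj_pow, inv_inv]
      rw [e3, inv_inv, ← hk, ← pow_mul, pow_succ, mul_comm]
  have h1 := hpow (orderOf g)
  rw [pow_orderOf_eq_one, inv_one, one_mul, mul_one] at h1
  -- p divides the order of x
  have hdvd : p ∣ orderOf x := by
    obtain ⟨m, hm⟩ := P.2 ⟨x, hx⟩
    have hm' : x ^ p ^ m = 1 := by simpa using congrArg Subtype.val hm
    have h2 : orderOf x ∣ p ^ m := orderOf_dvd_of_pow_eq_one hm'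
    obtain ⟨l, _, hl⟩ := (Nat.dvd_prime_pow hpp).1 h2
    rcases l with _ | l
    · exfalso
      rw [pow_zero] at hl
      exact hx1 (orderOf_eq_one_iff.1 hl)
    · rw [hl]; exact dvd_pow_self p (by omega)
  have h2 : k ^ orderOf g ≡ 1 [MOD orderOf x] := by
    rw [← pow_eq_pow_iff_modEq, pow_one]; exact h1.symm
  have h3 : k ^ orderOf g ≡ 1 [MOD p] := h2.of_dvd hdvd
  have h4 : (k : ZMod p) ^ orderOf g = 1 := by
    have := (ZMod.natCast_eq_natCast_iff _ _ _).2 h3
    push_cast at this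
    simpa using this
  have hg0 : 0 < orderOf g := orderOf_pos g
  have hk0 : (k : ZMod p) ≠ 0 := by
    intro h
    rw [h, zero_pow hg0.ne'] at h4
    exact zero_ne_one h4
  have h5 : (k : ZMod p) ^ (p - 1) = 1 := ZMod.pow_card_sub_one_eq_one hk0
  have hcop : Nat.Coprime (orderOf g) (p - 1) := by
    rw [Nat.coprime_iff_gcd_eq_one]
    by_contra hne
    obtain ⟨q, hq, hqd⟩ := Nat.exists_prime_and_dvd hne
    have hq1 : q ∣ orderOf g := hqd.trans (Nat.gcd_dvd_left _ _)
    have hq2 : q ∣ p - 1 := hqd.trans (Nat.gcd_dvd_right _ _)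
    have hq3 : q ∣ Nat.card Q := hq1.trans (orderOf_dvd_natCard g)
    have hq4 : p ≤ q := by rw [hpmin]; exact Nat.minFac_le_of_dvd hq.two_le hq3
    have hq5 : q ≤ p - 1 := Nat.le_of_dvd (by have := hpp.two_le; omega) hq2
    have := hpp.two_le
    omega
  have h6 : (k : ZMod p) = 1 := by
    have h7 : orderOf (k : ZMod p) ∣ Nat.gcd (orderOf g) (p - 1) :=
      Nat.dvd_gcd (orderOf_dvd_of_pow_eq_one h4) (orderOf_dvd_of_pow_eq_one h5)
    rw [hcop.gcd_eq_one, Nat.dvd_one] at h7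
    exact orderOf_eq_one_iff.1 h7
  have h7 : k ≡ 1 [MOD p] := by
    rw [← ZMod.natCast_eq_natCast_iff]; simpa using h6
  have h8 : (⟨g⁻¹ * x * g, hy⟩ : P) = (⟨x, hx⟩ : P) ^ k := by
    apply Subtype.ext
    simp [hk]
  rw [h8, map_pow]
  have h9 : k ≡ 1 [MOD orderOf (φ ⟨x, hx⟩)] := h7.of_dvd (orderOf_dvd_of_pow_eq_one (hA _))
  rw [← pow_eq_pow_iff_modEq, pow_one] at h9
  exact h9

/-- a nontrivial finite `TB2` group is not perfect -/
theorem finite_not_perfect [Nontrivial Q] (hQ : TB2 Q) : commutator Q ≠ ⊤ := by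
  intro htop
  have hcard : Nat.card Q ≠ 1 := by
    intro h
    have := (Nat.card_eq_one_iff_unique.1 h).1
    exact not_subsingleton Q this
  set p := (Nat.card Q).minFac with hpdef
  have hpp : p.Prime := Nat.minFac_prime hcard
  have : Fact p.Prime := ⟨hpp⟩
  obtain ⟨P⟩ : Nonempty (Sylow p Q) := inferInstance
  have hdvd : p ∣ Nat.card Q := Nat.minFac_dvd _
  obtain ⟨n, hn⟩ := P.2.exists_card_eq
  have hn0 : n ≠ 0 := by
    rintro rfl
    rw [pow_zero] at hn
    have h1 := P.dvd_card_of_dvd_card hdvd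
    rw [hn, Nat.dvd_one] at h1
    exact hpp.one_lt.ne' h1
  obtain ⟨m, rfl⟩ := Nat.exists_eq_succ_of_ne_zero hn0
  obtain ⟨M, hM⟩ := Sylow.exists_subgroup_card_pow_prime (G := P) p (n := m)
    (by rw [hn]; exact pow_dvd_pow p (Nat.le_succ m))
  have hMn : M.Normal := ⟨fun a ha c => conj_mem_of_pgroup P.2 (hQ.subgroup P) M c ha⟩
  have hcardA : Nat.card (P ⧸ M) = p := by
    have h1 := M.card_mul_index
    rw [hM, hn] at h1
    have h2 : M.index = p := by
      have h3 : p ^ m * M.index = p ^ m * p := by rw [h1, pow_succ]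
      exact Nat.eq_of_mul_eq_mul_left (pow_pos hpp.pos m) h3
    exact h2
  have hA : ∀ a : P ⧸ M, a ^ p = 1 := by
    intro a
    have := pow_card_eq_one' (x := a)
    rwa [hcardA] at this
  have hfoc := commutator_inf_eq_focalSubgroup P
  rw [htop, top_inf_eq] at hfoc
  -- the focal subgroup is contained in the kernel
  have hker : ∀ z ∈ P.focalSubgroup, ∀ hz : z ∈ P, QuotientGroup.mk' M ⟨z, hz⟩ = 1 := by
    intro z hz
    rw [focalSubgroup_def] at hz
    have hsub : closure { g | g ∈ (P : Subgroup Q) ∧ ∃ x ∈ (P : Subgroup Q), ∃ u : Q,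
        g = ⁅x, u⁆ } ≤ M.map (P : Subgroup Q).subtype := by
      rw [closure_le]
      rintro w ⟨hw, x, hx, u, rfl⟩
      have h1 : u * x⁻¹ * u⁻¹ ∈ (P : Subgroup Q) := by
        have e : u * x⁻¹ * u⁻¹ = x⁻¹ * ⁅x, u⁆ := by rw [commutatorElement_def]; group
        rw [e]; exact mul_mem (inv_mem hx) hw
      have h2 : u⁻¹⁻¹ * x⁻¹ * u⁻¹ ∈ P := by rw [inv_inv]; exact h1
      have h3 := hom_conj_eq hpdef hQ P (QuotientGroup.mk' M) hA (x := x⁻¹) (g := u⁻¹)
        (inv_mem hx) h2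
      have h4 : (⟨⁅x, u⁆, hw⟩ : P) = ⟨x, hx⟩ * ⟨u⁻¹⁻¹ * x⁻¹ * u⁻¹, h2⟩ := by
        apply Subtype.ext
        change ⁅x, u⁆ = x * (u⁻¹⁻¹ * x⁻¹ * u⁻¹)
        rw [commutatorElement_def]
        group
      refine ⟨⟨⁅x, u⁆, hw⟩, ?_, rfl⟩
      have h5 : QuotientGroup.mk' M (⟨⁅x, u⁆, hw⟩ : P) = 1 := by
        rw [h4, map_mul, h3, ← map_mul]
        have : (⟨x, hx⟩ : P) * ⟨x⁻¹, inv_mem hx⟩ = 1 := by
          apply Subtype.ext; simp
        rw [this, map_one]
      exact (QuotientGroup.eq_one_iff _).1 h5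
    intro hzP
    obtain ⟨w, hw, hwz⟩ := hsub hz
    have : w = ⟨z, hzP⟩ := Subtype.ext hwz
    rw [← this]
    exact (QuotientGroup.eq_one_iff _).2 hw
  have htriv : ∀ a : P ⧸ M, a = 1 := by
    intro a
    obtain ⟨⟨z, hz⟩, rfl⟩ := QuotientGroup.mk'_surjective M a
    exact hker z (by rw [← hfoc]; exact hz) hz
  have h1 : Nat.card (P ⧸ M) = 1 :=
    Nat.card_eq_one_iff_unique.2 ⟨⟨fun a b => by rw [htriv a, htriv b]⟩, ⟨1⟩⟩
  rw [hcardA] at h1
  exact hpp.one_lt.ne' h1

end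

end Pool.Agent.H11.TB
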