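import Pool.Agent.H11.TB.Structure

set_option autoImplicit false

namespace Pool.Agent.H11.TB

open scoped commutatorElement

variable {G : Type} [Group G]

/-- a free group of rank two has a subgroup with a quotient violating `TB2` -/
theorem not_tb2_freeGroup : ¬ TB2 (FreeGroup Bool) := by
  intro h
  -- map onto the dihedral group of order 8
  set f : FreeGroup Bool →* DihedralGroup 4 :=
    FreeGroup.lift (fun b => if b then DihedralGroup.r 1 else DihedralGroup.sr 0) with hf
  have hr : DihedralGroup.r (1 : ZMod 4) ∈ f.range := ⟨FreeGroup.of true, by simp [hf]⟩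
  have hs0 : DihedralGroup.sr (0 : ZMod 4) ∈ f.range := ⟨FreeGroup.of false, by simp [hf]⟩
  have hrr : ∀ i : ZMod 4, DihedralGroup.r i ∈ f.range := by
    intro i
    have h1 : DihedralGroup.r i = (DihedralGroup.r (1 : ZMod 4)) ^ (i.val) := by
      rw [DihedralGroup.r_one_pow]
      simp
    rw [h1]
    exact Subgroup.pow_mem _ hr _
  have hsurj : Function.Surjective f := by
    rw [← MonoidHom.range_eq_top, eq_top_iff]
    rintro (i | i) _
    · exact hrr i
    · have h2 : DihedralGroup.sr i = DihedralGroup.sr (0 : ZMod 4) * DihedralGroup.r i := by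
        rw [DihedralGroup.sr_mul_r, zero_add]
      rw [h2]
      exact Subgroup.mul_mem _ hs0 (hrr i)
  have h4 : TB2 (DihedralGroup 4) := h.of_surjective f hsurj
  -- subgroups: A = <sr 0>, B = <r 2, sr 0>, C = top
  have h5 := h4 (Subgroup.zpowers (DihedralGroup.sr 0))
    ({ carrier := {x | x = 1 ∨ x = DihedralGroup.r 2 ∨ x = DihedralGroup.sr 0 ∨
          x = DihedralGroup.sr 2}
       one_mem' := Or.inl rfl
       mul_mem' := by
         intro a b ha hb
         revert a b
         decide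
       inv_mem' := by
         intro a ha
         revert a
         decide } : Subgroup (DihedralGroup 4)) ⊤
    (by
      rw [Subgroup.zpowers_le]
      exact Or.inr (Or.inr (Or.inl rfl)))
    le_top
    (by
      rintro b hb _ ⟨i, rfl⟩
      simp only
      rw [← conj_zpow]
      apply Subgroup.zpow_mem
      have : b * DihedralGroup.sr 0 * b⁻¹ = DihedralGroup.sr 0 := by
        rcases hb with rfl | rfl | rfl | rfl <;> decide
      rw [this]
      exact Subgroup.mem_zpowers _)
    (by
      have key : ∀ c b : DihedralGroup 4, (b = 1 ∨ b = DihedralGroup.r 2 ∨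
          b = DihedralGroup.sr 0 ∨ b = DihedralGroup.sr 2) → (c * b * c⁻¹ = 1 ∨
          c * b * c⁻¹ = DihedralGroup.r 2 ∨ c * b * c⁻¹ = DihedralGroup.sr 0 ∨
          c * b * c⁻¹ = DihedralGroup.sr 2) := by decide
      intro c _ b hb
      exact key c b hb)
    (DihedralGroup.r 1) (Subgroup.mem_top _) (DihedralGroup.sr 0) (Subgroup.mem_zpowers _)
  obtain ⟨i, hi⟩ := h5
  have h6 : ∀ i : ℤ, (DihedralGroup.sr (0 : ZMod 4)) ^ i = 1 ∨
      (DihedralGroup.sr (0 : ZMod 4)) ^ i = DihedralGroup.sr 0 := by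
    intro i
    have h7 : (DihedralGroup.sr (0 : ZMod 4)) ^ (2 : ℤ) = 1 := by decide
    rcases Int.even_or_odd' i with ⟨k, rfl | rfl⟩
    · left; rw [zpow_mul, h7, one_zpow]
    · right; rw [zpow_add, zpow_mul, h7, one_zpow, one_mul, zpow_one]
  simp only at hi
  rcases h6 i with h7 | h7
  · rw [h7] at hi; revert hi; decide
  · rw [h7] at hi; revert hi; decide

/-- the normaliser of a subgroup centralises the central elements of infinite order -/
theorem normalizer_centralizes (hG : TB2 G) (H : Subgroup G) {a : G} (ha : a ∈ H)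
    (hc : ∀ h ∈ H, a * h = h * a) (hinf : ¬ IsOfFinOrder a) {n : G}
    (hn : n ∈ Subgroup.normalizer (H : Set G)) : n * a = a * n := by
  set Z : Subgroup G :=
    { carrier := {z | z ∈ H ∧ ∀ h ∈ H, z * h = h * z}
      one_mem' := ⟨H.one_mem, by simp⟩
      mul_mem' := by
        rintro x y ⟨hx, hx'⟩ ⟨hy, hy'⟩
        refine ⟨H.mul_mem hx hy, fun h hh => ?_⟩
        rw [mul_assoc, hy' h hh, ← mul_assoc, hx' h hh, mul_assoc]
      inv_mem' := by
        rintro x ⟨hx, hx'⟩
        refine ⟨H.inv_mem hx, fun h hh => ?_⟩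
        have : Commute x h := hx' h hh
        exact this.inv_left.eq } with hZ
  have hZH : Z ≤ H := fun z hz => hz.1
  have hconj : ∀ c ∈ Subgroup.normalizer (H : Set G), ∀ z ∈ Z, c * z * c⁻¹ ∈ Z := by
    rintro c hc' z ⟨hz, hz'⟩
    refine ⟨(Subgroup.mem_normalizer_iff.1 hc' z).1 hz, fun h hh => ?_⟩
    have h1 : c⁻¹ * h * c ∈ H := (Subgroup.mem_normalizer_iff''.1 hc' h).1 hh
    have h2 := hz' _ h1
    calc c * z * c⁻¹ * h = c * (z * (c⁻¹ * h * c)) * c⁻¹ := by group
      _ = c * ((c⁻¹ * h * c) * z) * c⁻¹ := by rw [h2]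
      _ = h * (c * z * c⁻¹) := by group
  have haZ : a ∈ Z := ⟨ha, hc⟩
  have hcyc : ∀ c ∈ Subgroup.normalizer (H : Set G), c * a * c⁻¹ ∈ Subgroup.zpowers a :=
    fun c hc' => cyclic_normal_of_abelian hG Z (Subgroup.normalizer (H : Set G))
      (fun x hx y hy => hx.2 y (hZH hy)) (hZH.trans Subgroup.le_normalizer) hconj haZ hc'
  have h2 : n⁻¹ * a * n ∈ Subgroup.zpowers a := by
    simpa using hcyc n⁻¹ ((Subgroup.normalizer (H : Set G)).inv_mem hn)
  have := commute_of_normalizes hG hinf (hcyc n hn) h2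
  rw [mul_inv_eq_iff_eq_mul] at this
  exact this

/-- a finitely generated nonperiodic group has perfect derived subgroup -/
theorem derived_perfect (hG : TB2 G) (hp : NoPerf G) (hfg : Group.FG G)
    (hn : ∃ g : G, ¬ IsOfFinOrder g) : derivedSeries G 2 = derivedSeries G 1 := by
  obtain ⟨g, hg⟩ := infinite_abelianization hG hp hfg hn
  have hn2 : (derivedSeries G 2).Normal := derivedSeries_normal G 2
  have hs := QuotientGroup.mk'_surjective (derivedSeries G 2)
  have h1 : derivedSeries (G ⧸ derivedSeries G 2) 2 = ⊥ := by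
    rw [← map_derivedSeries_eq hs, Subgroup.map_eq_bot_iff, QuotientGroup.ker_mk']
  have hinf : ¬ IsOfFinOrder (QuotientGroup.mk' (derivedSeries G 2) g) := by
    intro h
    rw [isOfFinOrder_iff_pow_eq_one] at h
    obtain ⟨n, hn, h⟩ := h
    rw [← map_pow] at h
    have h2 := (QuotientGroup.eq_one_iff _).1 h
    apply hg n hn
    rw [← derivedSeries_one]
    exact derivedSeries_antitone G (by norm_num : 1 ≤ 2) h2
  have hcomm := comm_of_metab (hG.quotient (derivedSeries G 2)) h1 hinf
  apply le_antisymm (derivedSeries_antitone G (by norm_num))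
  change ⁅(⊤ : Subgroup G), ⊤⁆ ≤ _
  rw [Subgroup.commutator_le]
  intro a _ b _
  have h3 := hcomm (QuotientGroup.mk' (derivedSeries G 2) a)
    (QuotientGroup.mk' (derivedSeries G 2) b)
  apply (QuotientGroup.eq_one_iff _).1
  change QuotientGroup.mk' (derivedSeries G 2) ⁅a, b⁆ = 1
  rw [map_commutatorElement, commutatorElement_def, h3]; group

/-- the derived series of a subgroup -/
theorem map_derived_one (H : Subgroup G) : (derivedSeries H 1).map H.subtype = ⁅H, H⁆ := by
  rw [derivedSeries_one]; exact Subgroup.map_subtype_commutator H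

theorem map_derived_two (H : Subgroup G) :
    (derivedSeries H 2).map H.subtype = ⁅⁅H, H⁆, ⁅H, H⁆⁆ := by
  change (⁅derivedSeries H 1, derivedSeries H 1⁆).map H.subtype = _
  rw [Subgroup.map_commutator, map_derived_one]

/-- structure of finitely generated nonabelian subgroups of locally indicable groups -/
theorem fg_subgroup_structure (hT : TBar G) (hl : LocIndicable G) (H : Subgroup G) (hH : H.FG)
    (hne : ∃ x ∈ H, ∃ y ∈ H, x * y ≠ y * x) :
    ⁅⁅H, H⁆, ⁅H, H⁆⁆ = ⁅H, H⁆ ∧ ¬ (⁅H, H⁆).FG ∧ ¬ Cls H := by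
  obtain ⟨x, hx, y, hy, hxy⟩ := hne
  have hG := hT.tb2
  have hp : NoPerf G := hl.locGraded.noPerf hG
  have hpH : NoPerf H := hp.of_injective H.subtype H.subtype_injective
  have hx1 : x ≠ 1 := by rintro rfl; simp at hxy
  have hxinf : ¬ IsOfFinOrder (⟨x, hx⟩ : H) := by
    intro h; exact hl.torsionFree hx1 (H.subtype.isOfFinOrder h)
  have h1 := derived_perfect (hG.subgroup H) hpH ((Group.fg_iff_subgroup_fg H).2 hH) ⟨_, hxinf⟩
  have h2 : ⁅⁅H, H⁆, ⁅H, H⁆⁆ = ⁅H, H⁆ := by
    rw [← map_derived_two, h1, map_derived_one]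
  refine ⟨h2, ?_, ?_⟩
  · intro hfg
    have h3 := hp _ hfg h2
    apply hxy
    have h4 : ⁅x, y⁆ ∈ ⁅H, H⁆ := Subgroup.commutator_mem_commutator hx hy
    rw [h3, Subgroup.mem_bot, commutatorElement_def] at h4
    have e : x * y = (x * y * x⁻¹ * y⁻¹) * (y * x) := by group
    rw [e, h4, one_mul]
  · intro hc
    have h3 := main_comm hc (hG.subgroup H).tbar (hl.subgroup H).locGraded ⟨_, hxinf⟩
      ⟨x, hx⟩ ⟨y, hy⟩
    exact hxy (congrArg Subtype.val h3)

end Pool.Agent.H11.TB
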