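import Pool.Agent.H11.TB.Core

set_option autoImplicit false

namespace Pool.Agent.H11.TB

open scoped commutatorElement

variable {G : Type} [Group G]

theorem word_cons (x y : G) (b : Bool) (w : List Bool) :
    word x y (b :: w) = (if b then x else y) * word x y w := by
  simp [word]

theorem word_map {H : Type} [Group H] (f : G →* H) (x y : G) (w : List Bool) :
    f (word x y w) = word (f x) (f y) w := by
  induction w with
  | nil => simp [word]
  | cons b w ih => rw [word_cons, word_cons, map_mul, ih]; cases b <;> simp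

theorem NoFreeSemi.of_injective {H : Type} [Group H] (hG : NoFreeSemi G) (f : H →* G)
    (hf : Function.Injective f) : NoFreeSemi H := by
  intro x y
  obtain ⟨u, v, hne, he⟩ := hG (f x) (f y)
  refine ⟨u, v, hne, hf ?_⟩
  rw [word_map, word_map, he]

theorem NoFreeSemi.of_surjective {H : Type} [Group H] (hG : NoFreeSemi G) (f : G →* H)
    (hf : Function.Surjective f) : NoFreeSemi H := by
  intro x y
  obtain ⟨x, rfl⟩ := hf x
  obtain ⟨y, rfl⟩ := hf y
  obtain ⟨u, v, hne, he⟩ := hG x y
  refine ⟨u, v, hne, ?_⟩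
  rw [← word_map, ← word_map, he]

/-- structure of words in `t` and `t * a` -/
theorem word_form (t a : G) (w : List Bool) :
    ∃ s ∈ Subgroup.closure {z | ∃ j : ℕ, 1 ≤ j ∧ j ≤ w.length ∧ z = t ^ j * a * (t ^ j)⁻¹},
      word t (t * a) w = s * t ^ w.length := by
  induction w with
  | nil => exact ⟨1, Subgroup.one_mem _, by simp [word]⟩
  | cons b w ih =>
    obtain ⟨s, hs, he⟩ := ih
    -- t s t⁻¹ lies in the big closure
    have h1 : t * s * t⁻¹ ∈ Subgroup.closure {z | ∃ j : ℕ, 1 ≤ j ∧ j ≤ (b :: w).length ∧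
        z = t ^ j * a * (t ^ j)⁻¹} := by
      clear he
      induction hs using Subgroup.closure_induction with
      | mem x hx =>
        obtain ⟨j, hj1, hj2, rfl⟩ := hx
        apply Subgroup.subset_closure
        refine ⟨j + 1, by omega, by simp only [List.length_cons]; omega, ?_⟩
        rw [pow_succ']; group
      | one => simpa using Subgroup.one_mem _
      | mul x y _ _ hx hy =>
        have : t * (x * y) * t⁻¹ = (t * x * t⁻¹) * (t * y * t⁻¹) := by group
        rw [this]; exact Subgroup.mul_mem _ hx hy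
      | inv x _ hx =>
        have : t * x⁻¹ * t⁻¹ = (t * x * t⁻¹)⁻¹ := by group
        rw [this]; exact Subgroup.inv_mem _ hx
    have h2 : t * a * t⁻¹ ∈ Subgroup.closure {z | ∃ j : ℕ, 1 ≤ j ∧ j ≤ (b :: w).length ∧
        z = t ^ j * a * (t ^ j)⁻¹} := by
      apply Subgroup.subset_closure
      exact ⟨1, le_refl _, by simp only [List.length_cons]; omega, by simp⟩
    cases b with
    | true =>
      refine ⟨t * s * t⁻¹, h1, ?_⟩
      rw [word_cons, he]
      simp only [if_true, List.length_cons]
      rw [pow_succ']; group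
    | false =>
      refine ⟨(t * a * t⁻¹) * (t * s * t⁻¹), Subgroup.mul_mem _ h2 h1, ?_⟩
      rw [word_cons, he]
      simp only [List.length_cons]
      rw [pow_succ']
      simp only [Bool.false_eq_true, if_false]
      group

theorem word_length_eq (t a : G) (N : Subgroup G) [N.Normal] (ha : a ∈ N)
    (ht : ∀ i : ℤ, t ^ i ∈ N → i = 0) (u v : List Bool)
    (h : word t (t * a) u = word t (t * a) v) : u.length = v.length := by
  have hlen : ∀ w : List Bool, QuotientGroup.mk' N (word t (t * a) w) =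
      QuotientGroup.mk' N (t ^ w.length) := by
    intro w
    induction w with
    | nil => simp [word]
    | cons b w ih =>
      have ha' : QuotientGroup.mk' N a = 1 := (QuotientGroup.eq_one_iff a).2 ha
      rw [word_cons, map_mul, ih, List.length_cons, pow_succ', map_mul]
      cases b
      · simp only [Bool.false_eq_true, if_false, map_mul, ha', mul_one]
      · simp
  have h1 := hlen u
  rw [h, hlen v] at h1
  have h2 := QuotientGroup.eq.1 h1
  have h3 : (t ^ v.length)⁻¹ * t ^ u.length = t ^ ((u.length : ℤ) - v.length) := by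
    rw [zpow_sub, zpow_natCast, zpow_natCast]
    have : Commute (t ^ v.length)⁻¹ (t ^ u.length) :=
      (Commute.pow_pow_self t _ _).inv_left
    exact this.eq
  rw [h3] at h2
  have := ht _ h2
  omega

/-- one direction of the lemma of Milnor and Rosset -/
theorem milnor_half (hG : NoFreeSemi G) (t a : G) (N : Subgroup G) [N.Normal] (ha : a ∈ N)
    (ht : ∀ i : ℤ, t ^ i ∈ N → i = 0) :
    ∃ k : ℕ, ∀ i : ℕ, (t ^ i)⁻¹ * a * t ^ i ∈
      Subgroup.closure {z | ∃ j : ℕ, 1 ≤ j ∧ j ≤ k ∧ z = t ^ j * a * (t ^ j)⁻¹} := by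
  -- find words with different first letters
  have key : ∀ n : ℕ, ∀ u v : List Bool, u.length ≤ n → u ≠ v →
      word t (t * a) u = word t (t * a) v →
      ∃ u' v' : List Bool, word t (t * a) (true :: u') = word t (t * a) (false :: v') := by
    intro n
    induction n with
    | zero =>
      intro u v hu hne he
      exfalso
      have hl := word_length_eq t a N ha ht u v he
      have h0 : u.length = 0 := by omega
      rw [List.length_eq_zero_iff] at h0
      subst h0
      have : v = [] := by
        rw [← List.length_eq_zero_iff, ← hl]; rfl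
      exact hne this.symm
    | succ n ih =>
      intro u v hu hne he
      have hl := word_length_eq t a N ha ht u v he
      cases u with
      | nil =>
        exfalso
        have : v = [] := by
          rw [← List.length_eq_zero_iff, ← hl]; rfl
        exact hne this.symm
      | cons b u =>
        cases v with
        | nil => simp at hl
        | cons c v =>
          by_cases hbc : b = c
          · subst hbc
            rw [word_cons, word_cons] at he
            have he' := mul_left_cancel he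
            refine ih u v (by simpa using hu) ?_ he'
            intro h; exact hne (by rw [h])
          · cases b
            · cases c
              · exact absurd rfl hbc
              · exact ⟨v, u, he.symm⟩
            · cases c
              · exact ⟨u, v, he⟩
              · exact absurd rfl hbc
  obtain ⟨u, v, hne, he⟩ := hG t (t * a)
  obtain ⟨u', v', he'⟩ := key u.length u v le_rfl hne he
  have hl : u'.length = v'.length := by
    have := word_length_eq t a N ha ht _ _ he'
    simpa using this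
  rw [word_cons, word_cons] at he'
  simp only [if_true, Bool.false_eq_true, if_false] at he'
  have he2 : word t (t * a) u' = a * word t (t * a) v' := by
    have : t * word t (t * a) u' = t * (a * word t (t * a) v') := by rw [he', mul_assoc]
    exact mul_left_cancel this
  obtain ⟨s, hs, hse⟩ := word_form t a u'
  obtain ⟨s', hs', hse'⟩ := word_form t a v'
  rw [← hl] at hs'
  set S := Subgroup.closure {z | ∃ j : ℕ, 1 ≤ j ∧ j ≤ u'.length ∧ z = t ^ j * a * (t ^ j)⁻¹}
    with hS
  have haS : a ∈ S := by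
    rw [hse, hse', hl] at he2
    have : a = s * s'⁻¹ := by
      have h3 : s * t ^ v'.length = (a * s') * t ^ v'.length := by rw [he2]; group
      have h4 := mul_right_cancel h3
      rw [h4]; group
    rw [this]
    exact S.mul_mem hs (S.inv_mem hs')
  -- t⁻¹ S t ≤ S
  have hconj : ∀ x ∈ S, t⁻¹ * x * t ∈ S := by
    intro x hx
    rw [hS] at hx
    induction hx using Subgroup.closure_induction with
    | mem x hx =>
      obtain ⟨j, hj1, hj2, rfl⟩ := hx
      obtain ⟨j, rfl⟩ := Nat.exists_eq_add_of_le hj1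
      have e : t⁻¹ * (t ^ (1 + j) * a * (t ^ (1 + j))⁻¹) * t = t ^ j * a * (t ^ j)⁻¹ := by
        rw [pow_add, pow_one]; group
      rw [e]
      rcases Nat.eq_zero_or_pos j with h0 | h0
      · subst h0; simpa using haS
      · exact Subgroup.subset_closure ⟨j, h0, by omega, rfl⟩
    | one => simpa using S.one_mem
    | mul x y _ _ hx hy =>
      have : t⁻¹ * (x * y) * t = (t⁻¹ * x * t) * (t⁻¹ * y * t) := by group
      rw [this]; exact S.mul_mem hx hy
    | inv x _ hx =>
      have : t⁻¹ * x⁻¹ * t = (t⁻¹ * x * t)⁻¹ := by group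
      rw [this]; exact S.inv_mem hx
  refine ⟨u'.length, fun i => ?_⟩
  induction i with
  | zero => simpa using haS
  | succ i ih =>
    have : (t ^ (i + 1))⁻¹ * a * t ^ (i + 1) = t⁻¹ * ((t ^ i)⁻¹ * a * t ^ i) * t := by
      rw [pow_succ]; group
    rw [this]; exact hconj _ ih

theorem fg_closure_range {k : ℕ} (f : ℕ → G) :
    (Subgroup.closure {z | ∃ j : ℕ, 1 ≤ j ∧ j ≤ k ∧ z = f j}).FG := by
  classical
  rw [Subgroup.fg_iff]
  refine ⟨_, rfl, ?_⟩
  apply Set.Finite.subset ((Finset.range (k + 1)).image f).finite_toSet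
  rintro z ⟨j, _, hj, rfl⟩
  rw [Finset.mem_coe]
  exact Finset.mem_image_of_mem f (by rw [Finset.mem_range]; omega)

/-- all conjugates of `a ∈ N` by powers of `t` lie in a finitely generated subgroup of `N` -/
theorem milnor (hG : NoFreeSemi G) (t a : G) (N : Subgroup G) [hNn : N.Normal] (ha : a ∈ N) :
    ∃ A : Subgroup G, A.FG ∧ A ≤ N ∧ (∀ i : ℤ, t ^ i * a * (t ^ i)⁻¹ ∈ A) ∧
      (∀ i : ℤ, t ^ i ∈ N → t ^ i ∈ A) := by
  classical
  by_cases ht : ∀ i : ℤ, t ^ i ∈ N → i = 0
  · obtain ⟨k, hk⟩ := milnor_half hG t a N ha ht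
    obtain ⟨l, hl⟩ := milnor_half hG t⁻¹ a N ha (by
      intro i hi
      rw [inv_zpow] at hi
      exact ht i (by simpa using N.inv_mem hi))
    refine ⟨Subgroup.closure {z | ∃ j : ℕ, 1 ≤ j ∧ j ≤ k ∧ z = t ^ j * a * (t ^ j)⁻¹} ⊔
      Subgroup.closure {z | ∃ j : ℕ, 1 ≤ j ∧ j ≤ l ∧ z = t⁻¹ ^ j * a * (t⁻¹ ^ j)⁻¹},
      Subgroup.FG.sup (fg_closure_range _) (fg_closure_range _), ?_, ?_, ?_⟩
    · refine sup_le ?_ ?_
      · rw [Subgroup.closure_le]
        rintro z ⟨j, _, _, rfl⟩
        exact hNn.conj_mem a ha _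
      · rw [Subgroup.closure_le]
        rintro z ⟨j, _, _, rfl⟩
        exact hNn.conj_mem a ha _
    · intro i
      rcases Int.eq_nat_or_neg i with ⟨n, rfl | rfl⟩
      · apply Subgroup.mem_sup_right
        have := hl n
        rw [inv_pow, inv_inv] at this
        rw [zpow_natCast]; exact this
      · apply Subgroup.mem_sup_left
        have := hk n
        rw [zpow_neg, zpow_natCast, inv_inv]; exact this
    · intro i hi
      rw [ht i hi, zpow_zero]; exact Subgroup.one_mem _
  · -- a positive power of t lies in N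
    obtain ⟨m, hm0, hm⟩ : ∃ m : ℕ, 0 < m ∧ t ^ m ∈ N := by
      push Not at ht
      obtain ⟨i, hi, hne⟩ := ht
      refine ⟨i.natAbs, Int.natAbs_pos.2 hne, ?_⟩
      rcases Int.natAbs_eq i with h | h
      · rw [h, zpow_natCast] at hi; exact hi
      · rw [h, zpow_neg, zpow_natCast] at hi
        simpa using N.inv_mem hi
    set f : ℕ → G := fun j => if j = m + 1 then t ^ m else
      if j ≤ m then t ^ j * a * (t ^ j)⁻¹ else
        if t ^ (j - m - 1) ∈ N then t ^ (j - m - 1) else 1 with hf
    set A := Subgroup.closure {z | ∃ j : ℕ, 1 ≤ j ∧ j ≤ 3 * m + 3 ∧ z = f j} with hA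
    have hAfg : A.FG := fg_closure_range f
    have htm : t ^ m ∈ A := by
      apply Subgroup.subset_closure
      exact ⟨m + 1, by omega, by omega, by simp [hf]⟩
    have hconj : ∀ j : ℕ, 1 ≤ j → j ≤ m → t ^ j * a * (t ^ j)⁻¹ ∈ A := by
      intro j h1 h2
      apply Subgroup.subset_closure
      refine ⟨j, h1, by omega, ?_⟩
      simp only [hf]
      rw [if_neg (by omega), if_pos h2]
    have hpow : ∀ j : ℕ, j ≤ m → t ^ j ∈ N → t ^ j ∈ A := by
      intro j h1 h2
      rcases Nat.eq_zero_or_pos j with h0 | h0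
      · subst h0; simpa using A.one_mem
      · apply Subgroup.subset_closure
        refine ⟨j + m + 1, by omega, by omega, ?_⟩
        simp only [hf]
        rw [if_neg (by omega), if_neg (by omega)]
        have : j + m + 1 - m - 1 = j := by omega
        rw [this, if_pos h2]
    refine ⟨A, hAfg, ?_, ?_, ?_⟩
    · rw [hA, Subgroup.closure_le]
      rintro z ⟨j, _, _, rfl⟩
      simp only [hf]
      split_ifs with h1 h2 h3
      · exact hm
      · exact hNn.conj_mem a ha _
      · exact h3
      · exact N.one_mem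
    · intro i
      -- write i = m q + r with 1 ≤ r ≤ m
      obtain ⟨q, r, hr1, hr2, hi⟩ : ∃ (q : ℤ) (r : ℕ), 1 ≤ r ∧ r ≤ m ∧ i = m * q + r := by
        have hmz : (0 : ℤ) < m := by exact_mod_cast hm0
        refine ⟨(i - 1) / m, ((i - 1) % m + 1).toNat, ?_, ?_, ?_⟩
        · have := Int.emod_nonneg (i - 1) hmz.ne'
          omega
        · have h1 := Int.emod_lt_of_pos (i - 1) hmz
          omega
        · have h1 := Int.emod_nonneg (i - 1) hmz.ne'
          rw [Int.toNat_of_nonneg (by omega)]
          have h2 := Int.mul_ediv_add_emod (i - 1) m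
          linarith
      have e : t ^ i * a * (t ^ i)⁻¹ = (t ^ m) ^ q * (t ^ r * a * (t ^ r)⁻¹) * ((t ^ m) ^ q)⁻¹ := by
        rw [hi, zpow_add, zpow_mul, zpow_natCast, zpow_natCast]; group
      rw [e]
      exact A.mul_mem (A.mul_mem (A.zpow_mem htm q) (hconj r hr1 hr2))
        (A.inv_mem (A.zpow_mem htm q))
    · intro i hi
      obtain ⟨q, r, hr2, hi'⟩ : ∃ (q : ℤ) (r : ℕ), r ≤ m ∧ i = m * q + r := by
        have hmz : (0 : ℤ) < m := by exact_mod_cast hm0
        refine ⟨i / m, (i % m).toNat, ?_, ?_⟩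
        · have h1 := Int.emod_lt_of_pos i hmz
          omega
        · have h1 := Int.emod_nonneg i hmz.ne'
          rw [Int.toNat_of_nonneg h1]
          have h2 := Int.mul_ediv_add_emod i m
          linarith
      have e : t ^ i = (t ^ m) ^ q * t ^ r := by
        rw [hi', zpow_add, zpow_mul, zpow_natCast, zpow_natCast]
      have hr : t ^ r ∈ N := by
        have h1 := N.mul_mem (N.inv_mem (N.zpow_mem hm q)) hi
        rw [e] at h1
        simpa using h1
      rw [e]
      exact A.mul_mem (A.zpow_mem htm q) (hpow r hr2 hr)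

theorem Restrained.of_injective {H : Type} [Group H] (hG : Restrained G) (f : H →* G)
    (hf : Function.Injective f) : Restrained H := by
  classical
  intro a t
  obtain ⟨S, hS⟩ := hG (f a) (f t)
  have e : (Subgroup.closure {z : H | ∃ i : ℤ, z = t ^ i * a * (t ^ i)⁻¹}).map f =
      Subgroup.closure (S : Set G) := by
    rw [hS, MonoidHom.map_closure]
    congr 1
    ext z
    constructor
    · rintro ⟨_, ⟨i, rfl⟩, rfl⟩
      exact ⟨i, by simp⟩
    · rintro ⟨i, rfl⟩
      exact ⟨_, ⟨i, rfl⟩, by simp⟩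
  have hSr : ∀ s ∈ S, ∃ h : H, f h = s := by
    intro s hs
    have : s ∈ (Subgroup.closure {z : H | ∃ i : ℤ, z = t ^ i * a * (t ^ i)⁻¹}).map f := by
      rw [e]; exact Subgroup.subset_closure hs
    obtain ⟨h, _, hh⟩ := this
    exact ⟨h, hh⟩
  have hch : ∀ s : G, ∃ h : H, s ∈ S → f h = s := by
    intro s
    by_cases hs : s ∈ S
    · obtain ⟨h, hh⟩ := hSr s hs
      exact ⟨h, fun _ => hh⟩
    · exact ⟨1, fun h => absurd h hs⟩
  choose g hg using hch
  refine ⟨S.image g, ?_⟩
  apply Subgroup.map_injective hf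
  rw [e, MonoidHom.map_closure]
  congr 1
  ext z
  constructor
  · rintro ⟨y, hy, rfl⟩
    rw [Finset.mem_coe, Finset.mem_image] at hy
    obtain ⟨s, hs, rfl⟩ := hy
    rw [hg s hs]; exact hs
  · intro hz
    refine ⟨g z, ?_, hg z hz⟩
    rw [Finset.mem_coe]; exact Finset.mem_image_of_mem g hz

theorem Restrained.of_surjective {H : Type} [Group H] (hG : Restrained G) (f : G →* H)
    (hf : Function.Surjective f) : Restrained H := by
  classical
  intro a t
  obtain ⟨a, rfl⟩ := hf a
  obtain ⟨t, rfl⟩ := hf t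
  obtain ⟨S, hS⟩ := hG a t
  refine ⟨S.image f, ?_⟩
  rw [Finset.coe_image, ← MonoidHom.map_closure, hS, MonoidHom.map_closure]
  congr 1
  ext z
  constructor
  · rintro ⟨_, ⟨i, rfl⟩, rfl⟩
    exact ⟨i, by simp⟩
  · rintro ⟨i, rfl⟩
    exact ⟨_, ⟨i, rfl⟩, by simp⟩

/-- the strong form used below -/
def Good (G : Type) [Group G] : Prop :=
  ∀ (t a : G) (N : Subgroup G), N.Normal → a ∈ N →
    ∃ A : Subgroup G, A.FG ∧ A ≤ N ∧ (∀ i : ℤ, t ^ i * a * (t ^ i)⁻¹ ∈ A) ∧
      (∀ i : ℤ, t ^ i ∈ N → t ^ i ∈ A)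

theorem NoFreeSemi.good (hG : NoFreeSemi G) : Good G := by
  intro t a N hN ha
  exact milnor hG t a N ha

theorem Restrained.good (hG : Restrained G) : Good G := by
  intro t a N hN ha
  have hcyc : (Subgroup.zpowers t ⊓ N : Subgroup G).FG := by
    have h1 : IsCyclic (Subgroup.zpowers t) := inferInstance
    have h2 : IsCyclic (N.subgroupOf (Subgroup.zpowers t)) := inferInstance
    obtain ⟨g, hg⟩ := h2.exists_generator
    refine ⟨{(g : G)}, ?_⟩
    apply le_antisymm
    · rw [Subgroup.closure_le]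
      intro x hx
      rw [Finset.coe_singleton, Set.mem_singleton_iff] at hx
      subst hx
      exact ⟨g.1.2, Subgroup.mem_subgroupOf.1 g.2⟩
    · rintro x ⟨hx1, hx2⟩
      obtain ⟨k, hk⟩ := hg ⟨⟨x, hx1⟩, Subgroup.mem_subgroupOf.2 hx2⟩
      have hk' : ((g : Subgroup.zpowers t) : G) ^ k = x := by
        have := congrArg (fun z : N.subgroupOf (Subgroup.zpowers t) => ((z : Subgroup.zpowers t) : G)) hk
        simpa using this
      rw [← hk']
      apply Subgroup.zpow_mem
      apply Subgroup.subset_closure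
      simp
  refine ⟨Subgroup.closure {z : G | ∃ i : ℤ, z = t ^ i * a * (t ^ i)⁻¹} ⊔
    (Subgroup.zpowers t ⊓ N), (hG a t).sup hcyc, sup_le ?_ inf_le_right, ?_, ?_⟩
  · rw [Subgroup.closure_le]
    rintro z ⟨i, rfl⟩
    exact hN.conj_mem a ha _
  · intro i
    apply Subgroup.mem_sup_left
    exact Subgroup.subset_closure ⟨i, rfl⟩
  · intro i hi
    apply Subgroup.mem_sup_right
    exact ⟨⟨i, rfl⟩, hi⟩

/-- removing a cyclic quotient preserves finite generation -/
theorem fg_of_sup_zpowers (hG : Good G) (N : Subgroup G) [hNn : N.Normal] (t : G)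
    (hK : (N ⊔ Subgroup.zpowers t).FG) : N.FG := by
  classical
  obtain ⟨S, hS⟩ := hK
  have hdec : ∀ s : G, ∃ n : G, ∃ i : ℤ, s ∈ S → n ∈ N ∧ s = n * t ^ i := by
    intro s
    by_cases hs : s ∈ S
    · have h1 : s ∈ N ⊔ Subgroup.zpowers t := by
        rw [← hS]; exact Subgroup.subset_closure hs
      obtain ⟨n, hn, z, hz, rfl⟩ := Subgroup.mem_sup_of_normal_left.1 h1
      obtain ⟨i, rfl⟩ := hz
      exact ⟨n, i, fun _ => ⟨hn, rfl⟩⟩
    · exact ⟨1, 0, fun h => absurd h hs⟩
  choose n i hni using hdec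
  have hA : ∀ s : G, ∃ A : Subgroup G, s ∈ S → A.FG ∧ A ≤ N ∧
      (∀ i : ℤ, t ^ i * (n s) * (t ^ i)⁻¹ ∈ A) ∧ (∀ i : ℤ, t ^ i ∈ N → t ^ i ∈ A) := by
    intro s
    by_cases hs : s ∈ S
    · obtain ⟨A, h⟩ := hG t (n s) N hNn (hni s hs).1
      exact ⟨A, fun _ => h⟩
    · exact ⟨⊥, fun h => absurd h hs⟩
  choose A hA using hA
  obtain ⟨A0, hA0fg, hA0N, _, hA0t⟩ := hG t 1 N hNn N.one_mem
  -- M' : generated by all conjugates and the powers of t in N
  set T : Set G := {z | (∃ s ∈ S, ∃ i : ℤ, z = t ^ i * n s * (t ^ i)⁻¹) ∨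
    (z ∈ N ∧ ∃ i : ℤ, z = t ^ i)} with hT
  set M := Subgroup.closure T with hM
  set B := (⨆ s ∈ S, A s) ⊔ A0 with hB
  have hMB : M ≤ B := by
    rw [hM, Subgroup.closure_le]
    rintro z (⟨s, hs, i, rfl⟩ | ⟨hz, i, rfl⟩)
    · have h1 : A s ≤ B := le_trans (le_biSup A hs) le_sup_left
      exact h1 ((hA s hs).2.2.1 i)
    · have h1 : A0 ≤ B := le_sup_right
      exact h1 (hA0t i hz)
  have hBN : B ≤ N := by
    refine sup_le (iSup₂_le fun s hs => (hA s hs).2.1) hA0N
  have hBfg : B.FG := by
    refine Subgroup.FG.sup ?_ hA0fg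
    exact Subgroup.FG.biSup_finset S A (fun s hs => (hA s hs).1)
  have hconj : ∀ j : ℤ, ∀ m ∈ M, t ^ j * m * (t ^ j)⁻¹ ∈ M := by
    intro j m hm
    rw [hM] at hm
    induction hm using Subgroup.closure_induction with
    | mem x hx =>
      apply Subgroup.subset_closure
      rcases hx with ⟨s, hs, i, rfl⟩ | ⟨hz, i, rfl⟩
      · left
        refine ⟨s, hs, j + i, ?_⟩
        rw [zpow_add]; group
      · right
        refine ⟨hNn.conj_mem _ hz _, i, ?_⟩
        have : Commute (t ^ j) (t ^ i) := Commute.zpow_zpow_self t j i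
        rw [this.eq, mul_inv_cancel_right]
    | one => simpa using M.one_mem
    | mul x y _ _ hx hy =>
      have : t ^ j * (x * y) * (t ^ j)⁻¹ = (t ^ j * x * (t ^ j)⁻¹) * (t ^ j * y * (t ^ j)⁻¹) := by
        group
      rw [this]; exact M.mul_mem hx hy
    | inv x _ hx =>
      have : t ^ j * x⁻¹ * (t ^ j)⁻¹ = (t ^ j * x * (t ^ j)⁻¹)⁻¹ := by group
      rw [this]; exact M.inv_mem hx
  -- elements of the form m t^i form a subgroup
  have hform : ∀ x ∈ Subgroup.closure (S : Set G), ∃ m ∈ M, ∃ i : ℤ, x = m * t ^ i := by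
    intro x hx
    induction hx using Subgroup.closure_induction with
    | mem s hs =>
      refine ⟨n s, ?_, i s, (hni s hs).2⟩
      apply Subgroup.subset_closure
      left; exact ⟨s, hs, 0, by simp⟩
    | one => exact ⟨1, M.one_mem, 0, by simp⟩
    | mul x y _ _ hx hy =>
      obtain ⟨m, hm, i, rfl⟩ := hx
      obtain ⟨m', hm', i', rfl⟩ := hy
      refine ⟨m * (t ^ i * m' * (t ^ i)⁻¹), M.mul_mem hm (hconj i m' hm'), i + i', ?_⟩
      rw [zpow_add]; group
    | inv x _ hx =>
      obtain ⟨m, hm, i, rfl⟩ := hx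
      refine ⟨t ^ (-i) * m⁻¹ * (t ^ (-i))⁻¹, hconj (-i) _ (M.inv_mem hm), -i, ?_⟩
      group
  have hNM : N ≤ M := by
    intro x hx
    have h1 : x ∈ Subgroup.closure (S : Set G) := by
      rw [hS]; exact (le_sup_left : N ≤ _) hx
    obtain ⟨m, hm, i, rfl⟩ := hform x h1
    have hmN : m ∈ N := hBN (hMB hm)
    have hti : t ^ i ∈ N := by
      have := N.mul_mem (N.inv_mem hmN) hx
      simpa using this
    exact M.mul_mem hm (Subgroup.subset_closure (Or.inr ⟨hti, i, rfl⟩))
  have : N = B := le_antisymm (hNM.trans hMB) hBN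
  rw [this]; exact hBfg

theorem normal_of_commutator_le (H : Subgroup G) (h : commutator G ≤ H) : H.Normal := by
  constructor
  intro a ha c
  have h1 : ⁅c, a⁆ ∈ commutator G :=
    Subgroup.commutator_mem_commutator (Subgroup.mem_top _) (Subgroup.mem_top _)
  have : c * a * c⁻¹ = ⁅c, a⁆ * a := by rw [commutatorElement_def]; group
  rw [this]; exact H.mul_mem (h h1) ha

theorem fg_of_sup_closure (hG : Good G) (T : Finset G) :
    ∀ H : Subgroup G, commutator G ≤ H → (H ⊔ Subgroup.closure (T : Set G)).FG → H.FG := by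
  classical
  induction T using Finset.induction_on with
  | empty => intro H _ h; simpa using h
  | insert t T _ ih =>
    intro H hH h
    have hn : H.Normal := normal_of_commutator_le H hH
    refine fg_of_sup_zpowers hG H t ?_
    refine ih (H ⊔ Subgroup.zpowers t) (hH.trans le_sup_left) ?_
    have : H ⊔ Subgroup.zpowers t ⊔ Subgroup.closure (T : Set G) =
        H ⊔ Subgroup.closure ((insert t T : Finset G) : Set G) := by
      rw [Finset.coe_insert, Set.insert_eq, Subgroup.closure_union, ← Subgroup.zpowers_eq_closure,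
        sup_assoc]
    rw [this]; exact h

theorem commutator_fg (hG : Good G) (hfg : Group.FG G) : (commutator G).FG := by
  obtain ⟨T, hT⟩ := Group.fg_def.1 hfg
  refine fg_of_sup_closure hG T _ le_rfl ?_
  rw [hT, sup_top_eq]
  exact Group.fg_def.1 hfg

theorem commutator_subgroup_fg (hG : Restrained G) (H : Subgroup G) (hH : H.FG) :
    ⁅H, H⁆.FG := by
  have h1 := commutator_fg (hG.of_injective H.subtype H.subtype_injective).good
    ((Group.fg_iff_subgroup_fg H).2 hH)
  rw [← Subgroup.map_subtype_commutator]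
  classical
  obtain ⟨S, hS⟩ := h1
  refine ⟨S.image H.subtype, ?_⟩
  rw [Finset.coe_image, ← MonoidHom.map_closure, hS]

theorem derived_fg (hG : Restrained G) (hfg : Group.FG G) (n : ℕ) : (derivedSeries G n).FG := by
  induction n with
  | zero => exact Group.fg_def.1 hfg
  | succ n ih => exact commutator_subgroup_fg hG _ ih

theorem NoFreeSemi.restrained (hG : NoFreeSemi G) : Restrained G := by
  classical
  intro a t
  set H := Subgroup.closure ({a, t} : Set G) with hH
  have haH : a ∈ H := Subgroup.subset_closure (by simp)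
  have htH : t ∈ H := Subgroup.subset_closure (by simp)
  set A := Subgroup.closure {z : G | ∃ i : ℤ, z = t ^ i * a * (t ^ i)⁻¹} with hA
  have haA : a ∈ A := Subgroup.subset_closure ⟨0, by simp⟩
  have hAH : A ≤ H := by
    rw [hA, Subgroup.closure_le]
    rintro z ⟨i, rfl⟩
    exact H.mul_mem (H.mul_mem (H.zpow_mem htH i) haH) (H.inv_mem (H.zpow_mem htH i))
  have htA : ∀ j : ℤ, ∀ x ∈ A, t ^ j * x * (t ^ j)⁻¹ ∈ A := by
    intro j x hx
    rw [hA] at hx
    induction hx using Subgroup.closure_induction with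
    | mem x hx =>
      obtain ⟨i, rfl⟩ := hx
      apply Subgroup.subset_closure
      exact ⟨j + i, by rw [zpow_add]; group⟩
    | one => simpa using A.one_mem
    | mul x y _ _ hx hy =>
      have : t ^ j * (x * y) * (t ^ j)⁻¹ = (t ^ j * x * (t ^ j)⁻¹) * (t ^ j * y * (t ^ j)⁻¹) := by
        group
      rw [this]; exact A.mul_mem hx hy
    | inv x _ hx =>
      have : t ^ j * x⁻¹ * (t ^ j)⁻¹ = (t ^ j * x * (t ^ j)⁻¹)⁻¹ := by group
      rw [this]; exact A.inv_mem hx
  have hnorm : H ≤ Subgroup.normalizer (A : Set G) := by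
    rw [hH, Subgroup.closure_le]
    rintro y (rfl | hy)
    · exact Subgroup.le_normalizer haA
    · rw [Set.mem_singleton_iff] at hy
      subst hy
      rw [SetLike.mem_coe, Subgroup.mem_normalizer_iff]
      intro x
      constructor
      · intro hx
        have := htA 1 x hx
        simpa using this
      · intro hx
        have := htA (-1) _ hx
        have e : y ^ (-1 : ℤ) * (y * x * y⁻¹) * (y ^ (-1 : ℤ))⁻¹ = x := by group
        rwa [e] at this
  have hN : (A.subgroupOf H).Normal := by
    constructor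
    intro n hn g
    rw [Subgroup.mem_subgroupOf] at *
    have := (Subgroup.mem_normalizer_iff.1 (hnorm g.2) n).1 hn
    simpa using this
  have hgood : Good H := (hG.of_injective H.subtype H.subtype_injective).good
  obtain ⟨B, hB, hBN, hBi, _⟩ := hgood ⟨t, htH⟩ ⟨a, haH⟩ (A.subgroupOf H) hN
    (by rw [Subgroup.mem_subgroupOf]; exact haA)
  have hAB : A = B.map H.subtype := by
    apply le_antisymm
    · rw [hA, Subgroup.closure_le]
      rintro z ⟨i, rfl⟩
      exact ⟨_, hBi i, by simp⟩
    · rintro _ ⟨b, hb, rfl⟩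
      exact Subgroup.mem_subgroupOf.1 (hBN hb)
  rw [hAB]
  obtain ⟨S, hS⟩ := hB
  refine ⟨S.image H.subtype, ?_⟩
  rw [Finset.coe_image, ← MonoidHom.map_closure, hS]

end Pool.Agent.H11.TB
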