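import Pool.Agent.H11.TB.Classes

set_option autoImplicit false

namespace Pool.Agent.H11.TB

open scoped commutatorElement

variable {G : Type} [Group G]

theorem two_eq_bot_of_fg (hG : TB2 G) (hp : NoPerf G) (h : (derivedSeries G 2).FG) :
    derivedSeries G 2 = ⊥ :=
  hp _ h (three_eq_two hG)

/-- a finitely generated periodic-by-... : if all elements have a positive power in the normal
subgroup `N` containing the commutators, then `N` has finite index -/
theorem finiteIndex_of_periodic_quotient (hfg : Group.FG G) (N : Subgroup G) [hN : N.Normal]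
    (hc : commutator G ≤ N) (h : ∀ g : G, ∃ n : ℕ, 0 < n ∧ g ^ n ∈ N) : Finite (G ⧸ N) := by
  have hcomm : ∀ a b : G ⧸ N, a * b = b * a := by
    intro a b
    obtain ⟨a, rfl⟩ := QuotientGroup.mk'_surjective N a
    obtain ⟨b, rfl⟩ := QuotientGroup.mk'_surjective N b
    rw [← map_mul, ← map_mul]
    apply QuotientGroup.eq.2
    apply hc
    have h3 : ⁅b⁻¹, a⁻¹⁆ ∈ commutator G :=
      Subgroup.commutator_mem_commutator (Subgroup.mem_top _) (Subgroup.mem_top _)
    have e : (a * b)⁻¹ * (b * a) = ⁅b⁻¹, a⁻¹⁆ := by rw [commutatorElement_def]; group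
    rw [e]; exact h3
  let _ : CommGroup (G ⧸ N) := { (inferInstance : Group (G ⧸ N)) with mul_comm := hcomm }
  have hfg' : Group.FG (G ⧸ N) := by
    classical
    obtain ⟨S, hS⟩ := Group.fg_def.1 hfg
    rw [Group.fg_def]
    refine ⟨S.image (QuotientGroup.mk' N), ?_⟩
    rw [Finset.coe_image, ← MonoidHom.map_closure, hS]
    exact Subgroup.map_top_of_surjective _ (QuotientGroup.mk'_surjective N)
  have ht : IsMulTorsion (G ⧸ N) := by
    intro x
    obtain ⟨g, rfl⟩ := QuotientGroup.mk'_surjective N x
    obtain ⟨n, hn, hg⟩ := h g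
    rw [isOfFinOrder_iff_pow_eq_one]
    exact ⟨n, hn, by rw [← map_pow]; exact (QuotientGroup.eq_one_iff _).2 hg⟩
  exact CommGroup.finite_of_fg_isMulTorsion (G ⧸ N) ht

/-- finitely generated nonperiodic `TB2` groups without f.g. perfect subgroups have infinite
abelianisation -/
theorem infinite_abelianization (hG : TB2 G) (hp : NoPerf G) (hfg : Group.FG G)
    (hn : ∃ g : G, ¬ IsOfFinOrder g) : ∃ g : G, ∀ n : ℕ, 0 < n → g ^ n ∉ commutator G := by
  by_contra hcon
  push Not at hcon
  have hD1 : derivedSeries G 1 = commutator G := derivedSeries_one G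
  -- G / G' is finite
  have hn1 : (derivedSeries G 1).Normal := derivedSeries_normal G 1
  have hfin1 : Finite (G ⧸ derivedSeries G 1) :=
    finiteIndex_of_periodic_quotient hfg (derivedSeries G 1) (by rw [hD1]) (by
      intro g; rw [hD1]; exact hcon g)
  have hfi1 : (derivedSeries G 1).FiniteIndex := Subgroup.finiteIndex_of_finite_quotient
  have hfg1 : Group.FG (derivedSeries G 1) := inferInstance
  by_cases hper : ∀ g : derivedSeries G 1, ∃ n : ℕ, 0 < n ∧
      g ^ n ∈ (derivedSeries G 2).subgroupOf (derivedSeries G 1)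
  · have hnn : ((derivedSeries G 2).subgroupOf (derivedSeries G 1)).Normal :=
      (derivedSeries_normal G 2).subgroupOf _
    have hc : commutator (derivedSeries G 1) ≤
        (derivedSeries G 2).subgroupOf (derivedSeries G 1) := by
      have h1 : (commutator (derivedSeries G 1)).map (derivedSeries G 1).subtype =
          derivedSeries G 2 := Subgroup.map_subtype_commutator _
      intro x hx
      rw [Subgroup.mem_subgroupOf, ← h1]
      exact ⟨x, hx, rfl⟩
    have hfin2 := finiteIndex_of_periodic_quotient hfg1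
      ((derivedSeries G 2).subgroupOf (derivedSeries G 1)) hc hper
    have hfi2 : ((derivedSeries G 2).subgroupOf (derivedSeries G 1)).FiniteIndex :=
      Subgroup.finiteIndex_of_finite_quotient
    have hfg2 : Group.FG ((derivedSeries G 2).subgroupOf (derivedSeries G 1)) := inferInstance
    have hfg2' : (derivedSeries G 2).FG := by
      classical
      obtain ⟨S, hS⟩ := (Group.fg_iff_subgroup_fg _).1 hfg2
      refine ⟨S.image (derivedSeries G 1).subtype, ?_⟩
      rw [Finset.coe_image, ← MonoidHom.map_closure, hS, Subgroup.subgroupOf_map_subtype]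
      exact inf_eq_left.2 (derivedSeries_antitone G (by norm_num))
    have h2 := two_eq_bot_of_fg hG hp hfg2'
    -- then G is periodic
    obtain ⟨g, hg⟩ := hn
    apply hg
    obtain ⟨n, hn, hgn⟩ := hcon g
    rw [← hD1] at hgn
    obtain ⟨m, hm, hgm⟩ := hper ⟨g ^ n, hgn⟩
    rw [Subgroup.mem_subgroupOf, h2, Subgroup.mem_bot] at hgm
    rw [isOfFinOrder_iff_pow_eq_one]
    refine ⟨n * m, by positivity, ?_⟩
    rw [pow_mul]
    exact hgm
  · push Not at hper
    obtain ⟨⟨c, hc⟩, hcn⟩ := hper
    have hn2 : (derivedSeries G 2).Normal := derivedSeries_normal G 2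
    have hs := QuotientGroup.mk'_surjective (derivedSeries G 2)
    have h1 : derivedSeries (G ⧸ derivedSeries G 2) 2 = ⊥ := by
      rw [← map_derivedSeries_eq hs, Subgroup.map_eq_bot_iff, QuotientGroup.ker_mk']
    have hcinf : ¬ IsOfFinOrder (QuotientGroup.mk' (derivedSeries G 2) c) := by
      intro h
      rw [isOfFinOrder_iff_pow_eq_one] at h
      obtain ⟨n, hn, h⟩ := h
      rw [← map_pow] at h
      have h2 := (QuotientGroup.eq_one_iff _).1 h
      exact hcn n hn (by rw [Subgroup.mem_subgroupOf]; exact h2)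
    have hcomm := comm_of_metab (hG.quotient (derivedSeries G 2)) h1 hcinf
    have h12 : derivedSeries G 1 ≤ derivedSeries G 2 := by
      rw [hD1]
      change ⁅(⊤ : Subgroup G), ⊤⁆ ≤ _
      rw [Subgroup.commutator_le]
      intro a _ b _
      have h3 := hcomm (QuotientGroup.mk' (derivedSeries G 2) a)
        (QuotientGroup.mk' (derivedSeries G 2) b)
      apply (QuotientGroup.eq_one_iff _).1
      change QuotientGroup.mk' (derivedSeries G 2) ⁅a, b⁆ = 1
      rw [map_commutatorElement, commutatorElement_def, h3]; group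
    have h12' : derivedSeries G 2 = derivedSeries G 1 :=
      le_antisymm (derivedSeries_antitone G (by norm_num)) h12
    have hfg2 : (derivedSeries G 2).FG := by
      rw [h12']; exact (Group.fg_iff_subgroup_fg _).1 hfg1
    have h2 := two_eq_bot_of_fg hG hp hfg2
    obtain ⟨g, hg⟩ := hn
    apply hg
    obtain ⟨n, hn, hgn⟩ := hcon g
    rw [← hD1, ← h12', h2, Subgroup.mem_bot] at hgn
    rw [isOfFinOrder_iff_pow_eq_one]
    exact ⟨n, hn, hgn⟩

/-- a group generated by finitely many elements of finite order is periodic -/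
theorem periodic_of_generated (hG : TB2 G) (hp : NoPerf G) (S : Finset G)
    (hS : Subgroup.closure (S : Set G) = ⊤) (hfin : ∀ s ∈ S, IsOfFinOrder s) (g : G) :
    IsOfFinOrder g := by
  by_contra hg
  have hfg : Group.FG G := Group.fg_def.2 ⟨S, hS⟩
  obtain ⟨a, ha⟩ := infinite_abelianization hG hp hfg ⟨g, hg⟩
  -- in the abelianisation everything is periodic
  have h1 : ∀ x ∈ Subgroup.closure (S : Set G), IsOfFinOrder (Abelianization.of x) := by
    intro x hx
    induction hx using Subgroup.closure_induction with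
    | mem x hx => exact Abelianization.of.isOfFinOrder (hfin x hx)
    | one => rw [map_one]; exact IsOfFinOrder.one
    | mul x y _ _ hx hy => rw [map_mul]; exact hx.mul hy
    | inv x _ hx => rw [map_inv]; exact hx.inv
  have h2 := h1 a (by rw [hS]; exact Subgroup.mem_top a)
  rw [isOfFinOrder_iff_pow_eq_one] at h2
  obtain ⟨n, hn, h⟩ := h2
  rw [← map_pow] at h
  exact ha n hn ((QuotientGroup.eq_one_iff _).1 h)

theorem finOrder_mul (hG : TB2 G) (hp : NoPerf G) {x y : G} (hx : IsOfFinOrder x)
    (hy : IsOfFinOrder y) : IsOfFinOrder (x * y) := by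
  classical
  set H := Subgroup.closure ({x, y} : Set G) with hH
  have hxH : x ∈ H := Subgroup.subset_closure (by simp)
  have hyH : y ∈ H := Subgroup.subset_closure (by simp)
  have h1 := periodic_of_generated (hG.subgroup H)
    (hp.of_injective H.subtype H.subtype_injective)
    {(⟨x, hxH⟩ : H), (⟨y, hyH⟩ : H)} (by
      apply Subgroup.map_injective H.subtype_injective
      rw [MonoidHom.map_closure, ← MonoidHom.range_eq_map, Subgroup.range_subtype]
      rw [Finset.coe_insert, Finset.coe_singleton, Set.image_insert_eq, Set.image_singleton]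
      rfl) (by
      intro s hs
      rw [Finset.mem_insert, Finset.mem_singleton] at hs
      rcases hs with rfl | rfl
      · exact (Submonoid.isOfFinOrder_coe (x := (⟨x, hxH⟩ : H.toSubmonoid))).1 hx
      · exact (Submonoid.isOfFinOrder_coe (x := (⟨y, hyH⟩ : H.toSubmonoid))).1 hy)
    (⟨x, hxH⟩ * ⟨y, hyH⟩)
  exact H.subtype.isOfFinOrder h1

/-- the subgroup of elements of finite order -/
def torsionSub (hG : TB2 G) (hp : NoPerf G) : Subgroup G where
  carrier := {x | IsOfFinOrder x}
  one_mem' := IsOfFinOrder.one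
  mul_mem' := fun hx hy => finOrder_mul hG hp hx hy
  inv_mem' := fun hx => hx.inv

theorem mem_torsionSub (hG : TB2 G) (hp : NoPerf G) (x : G) :
    x ∈ torsionSub hG hp ↔ IsOfFinOrder x := Iff.rfl

theorem torsionSub_normal (hG : TB2 G) (hp : NoPerf G) : (torsionSub hG hp).Normal := by
  constructor
  intro x hx g
  rw [mem_torsionSub] at *
  exact (MulAut.conj g).toMonoidHom.isOfFinOrder hx

theorem torsionSub_met (hG : TB2 G) (hp : NoPerf G) : Met (torsionSub hG hp) := by
  have hres : Restrained (torsionSub hG hp) := by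
    intro a t
    rw [Subgroup.fg_iff]
    refine ⟨_, rfl, ?_⟩
    have ht : IsOfFinOrder t :=
      (Submonoid.isOfFinOrder_coe (x := (t : (torsionSub hG hp).toSubmonoid))).1 t.2
    have hfin : (Subgroup.zpowers t : Set (torsionSub hG hp)).Finite := finite_zpowers.2 ht
    apply Set.Finite.subset (hfin.image fun s => s * a * s⁻¹)
    rintro z ⟨i, rfl⟩
    exact ⟨t ^ i, ⟨i, rfl⟩, rfl⟩
  have h1 : MetG (torsionSub hG hp) := hres.cap _ (hG.subgroup _)
    (hp.of_injective (torsionSub hG hp).subtype (Subgroup.subtype_injective _))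
    (MonoidHom.id _) (by
      intro x hx y _ z _ w _
      have hx' : x = 1 := hx
      subst hx'
      simp)
  intro x hx y hy z hz w hw
  exact congrArg Subtype.val (h1 ⟨x, hx⟩ ⟨y, hy⟩ ⟨z, hz⟩ ⟨w, hw⟩)

/-- elements of infinite order commute with elements of finite order -/
theorem inf_comm_fin (hG : TB2 G) (hp : NoPerf G) {g x : G} (hg : ¬ IsOfFinOrder g)
    (hx : IsOfFinOrder x) : g * x = x * g := by
  have hTn := torsionSub_normal hG hp
  set T := torsionSub hG hp with hT
  set H := Subgroup.closure ({g, x} : Set G) with hH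
  have hgH : g ∈ H := Subgroup.subset_closure (by simp)
  have hxH : x ∈ H := Subgroup.subset_closure (by simp)
  have h1 : ∀ a ∈ H, QuotientGroup.mk' T a ∈ Subgroup.zpowers (QuotientGroup.mk' T g) := by
    intro a ha
    have : H ≤ (Subgroup.zpowers (QuotientGroup.mk' T g)).comap (QuotientGroup.mk' T) := by
      rw [hH, Subgroup.closure_le]
      rintro y (rfl | hy)
      · exact Subgroup.mem_zpowers _
      · rw [Set.mem_singleton_iff] at hy
        subst hy
        rw [SetLike.mem_coe, Subgroup.mem_comap]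
        have : QuotientGroup.mk' T y = 1 := (QuotientGroup.eq_one_iff y).2 hx
        rw [this]; exact Subgroup.one_mem _
    exact this ha
  have h2 : ∀ a ∈ derivedSeries H 1, (a : G) ∈ T := by
    have : derivedSeries H 1 ≤ T.comap H.subtype := by
      change ⁅(⊤ : Subgroup H), ⊤⁆ ≤ _
      rw [Subgroup.commutator_le]
      intro a _ b _
      rw [Subgroup.mem_comap]
      apply (QuotientGroup.eq_one_iff _).1
      change QuotientGroup.mk' T (H.subtype ⁅a, b⁆) = 1
      rw [map_commutatorElement, map_commutatorElement]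
      obtain ⟨i, hi⟩ := h1 a a.2
      obtain ⟨j, hj⟩ := h1 b b.2
      simp only at hi hj
      rw [Subgroup.subtype_apply, Subgroup.subtype_apply, ← hi, ← hj, commutatorElement_def]
      group
    intro a ha
    exact this ha
  have h3 : Met (derivedSeries H 1) := by
    intro a ha b hb c hc d hd
    apply Subtype.ext
    exact torsionSub_met hG hp a (h2 a ha) b (h2 b hb) c (h2 c hc) d (h2 d hd)
  have h4 : derivedSeries H 3 = ⊥ := by
    rw [met_iff] at h3
    rw [eq_bot_iff]
    change ⁅derivedSeries H 2, derivedSeries H 2⁆ ≤ ⊥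
    rw [Subgroup.commutator_le]
    intro a ha b hb
    rw [Subgroup.mem_bot, commutatorElement_def, h3 a ha b hb]
    group
  have h5 := comm_of_solvable (hG.subgroup H) h4 (g := (⟨g, hgH⟩ : H)) (by
    intro h; exact hg (H.subtype.isOfFinOrder h)) ⟨g, hgH⟩ ⟨x, hxH⟩
  exact congrArg Subtype.val h5

/-- torsion elements are central in nonperiodic groups -/
theorem torsion_central (hG : TB2 G) (hp : NoPerf G) (hn : ∃ g : G, ¬ IsOfFinOrder g) {x : G}
    (hx : IsOfFinOrder x) (y : G) : x * y = y * x := by
  obtain ⟨g, hg⟩ := hn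
  by_cases hy : IsOfFinOrder y
  · have hgy : ¬ IsOfFinOrder (g * y) := by
      intro h
      apply hg
      have := finOrder_mul hG hp h hy.inv
      simpa using this
    have h1 := inf_comm_fin hG hp hg hx
    have h2 := inf_comm_fin hG hp hgy hx
    have h3 : g * (x * y) = g * (y * x) := by
      rw [← mul_assoc, h1, mul_assoc, ← h2, mul_assoc]
    exact mul_left_cancel h3
  · exact (inf_comm_fin hG hp hy hx).symm

/-- a nonperiodic finitely generated group has `ℤ` as a quotient -/
theorem exists_surj {K : Type} [Group K] (hfg : Group.FG K) {k : K}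
    (hk : ∀ n : ℕ, 0 < n → k ^ n ∉ commutator K) :
    ∃ f : K →* Multiplicative ℤ, Function.Surjective f := by
  have hfg' : Group.FG (Abelianization K) := by
    classical
    obtain ⟨S, hS⟩ := Group.fg_def.1 hfg
    rw [Group.fg_def]
    refine ⟨S.image Abelianization.of, ?_⟩
    rw [Finset.coe_image, ← MonoidHom.map_closure, hS]
    exact Subgroup.map_top_of_surjective _ (QuotientGroup.mk'_surjective _)
  obtain ⟨ι, j, hι, hj, p, hpp, e, ⟨φ⟩⟩ :=
    CommGroup.equiv_free_prod_prod_multiplicative_zmod (Abelianization K)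
  by_cases hje : IsEmpty j
  · exfalso
    have hpos : ∀ i, NeZero (p i ^ e i) := fun i => ⟨(pow_pos (hpp i).pos _).ne'⟩
    have hfin : Finite ((j → Multiplicative ℤ) × ((i : ι) → Multiplicative (ZMod (p i ^ e i)))) := by
      have h1 : Finite (j → Multiplicative ℤ) := inferInstance
      have h2 : ∀ i, Finite (Multiplicative (ZMod (p i ^ e i))) := fun i => by
        have := hpos i
        exact Finite.of_fintype (ZMod (p i ^ e i))
      exact inferInstance
    have hfin' : Finite (Abelianization K) := Finite.of_equiv _ φ.symm.toEquiv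
    have h3 : IsOfFinOrder (Abelianization.of k) := isOfFinOrder_of_finite _
    rw [isOfFinOrder_iff_pow_eq_one] at h3
    obtain ⟨n, hn, h⟩ := h3
    rw [← map_pow] at h
    exact hk n hn ((QuotientGroup.eq_one_iff _).1 h)
  · rw [not_isEmpty_iff] at hje
    obtain ⟨j0⟩ := hje
    classical
    refine ⟨(Pi.evalMonoidHom _ j0).comp ((MonoidHom.fst _ _).comp
      (φ.toMonoidHom.comp Abelianization.of)), ?_⟩
    intro m
    obtain ⟨a, ha⟩ := φ.surjective (Function.update (1 : j → Multiplicative ℤ) j0 m, 1)
    obtain ⟨b, rfl⟩ := QuotientGroup.mk'_surjective _ a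
    refine ⟨b, ?_⟩
    change (φ (Abelianization.of b)).1 j0 = m
    have : φ (Abelianization.of b) = (Function.update (1 : j → Multiplicative ℤ) j0 m, 1) := ha
    rw [this]
    simp

/-- the quotient by the torsion subgroup is locally indicable -/
theorem quotient_locIndicable (hG : TB2 G) (hp : NoPerf G) (hn : ∃ g : G, ¬ IsOfFinOrder g)
    (T : Subgroup G) [hTn : T.Normal] (hT : ∀ x, x ∈ T ↔ IsOfFinOrder x) :
    LocIndicable (G ⧸ T) := by
  intro K hK hKne
  have hs := QuotientGroup.mk'_surjective T
  have hDmap : (K.comap (QuotientGroup.mk' T)).map (QuotientGroup.mk' T) = K :=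
    Subgroup.map_comap_eq_self_of_surjective hs K
  obtain ⟨H, hH, hHD, hDH⟩ := exists_fg_lift (QuotientGroup.mk' T)
    (K.comap (QuotientGroup.mk' T)) (by rw [hDmap]; exact hK)
  rw [QuotientGroup.ker_mk'] at hDH
  have hmap : H.map (QuotientGroup.mk' T) = K := by
    apply le_antisymm
    · rw [Subgroup.map_le_iff_le_comap]; exact hHD
    · intro k hk
      obtain ⟨g, rfl⟩ := hs k
      have h1 : g ∈ H ⊔ T := hDH hk
      obtain ⟨h, hh, t, ht, rfl⟩ := Subgroup.mem_sup_of_normal_right.1 h1
      refine ⟨h, hh, ?_⟩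
      rw [map_mul]
      have : QuotientGroup.mk' T t = 1 := (QuotientGroup.eq_one_iff t).2 ht
      rw [this, mul_one]
  -- H is not periodic
  have hHn : ∃ h : H, ¬ IsOfFinOrder h := by
    by_contra hcon
    push Not at hcon
    apply hKne
    rw [← hmap, Subgroup.map_eq_bot_iff, QuotientGroup.ker_mk']
    intro h hh
    rw [hT]
    exact H.subtype.isOfFinOrder (hcon ⟨h, hh⟩)
  obtain ⟨h, hh⟩ := infinite_abelianization (hG.subgroup H)
    (hp.of_injective H.subtype H.subtype_injective) ((Group.fg_iff_subgroup_fg H).2 hH) hHn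
  have hhK : QuotientGroup.mk' T h ∈ K := by rw [← hmap]; exact ⟨h, h.2, rfl⟩
  refine exists_surj ((Group.fg_iff_subgroup_fg K).2 hK) (k := ⟨QuotientGroup.mk' T h, hhK⟩) ?_
  intro n hn0 hmem
  -- transfer to H
  have h1 : QuotientGroup.mk' T (h ^ n : G) ∈ ⁅K, K⁆ := by
    rw [← Subgroup.map_subtype_commutator]
    refine ⟨_, hmem, ?_⟩
    simp
  rw [← hmap, ← Subgroup.map_commutator] at h1
  obtain ⟨c, hc, hce⟩ := h1
  have h2 : c⁻¹ * (h : G) ^ n ∈ T := QuotientGroup.eq.1 hce
  have h3 := (hT _).1 h2
  rw [isOfFinOrder_iff_pow_eq_one] at h3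
  obtain ⟨m, hm, hme⟩ := h3
  have hcen : Commute (c⁻¹ * (h : G) ^ n) c :=
    torsion_central hG hp hn ((hT _).1 h2) c
  have h4 : (h : G) ^ (n * m) = c ^ m := by
    have h5 : (h : G) ^ n = c * (c⁻¹ * (h : G) ^ n) := by group
    rw [pow_mul, h5, hcen.symm.mul_pow, hme, mul_one]
  have h6 : (h : G) ^ (n * m) ∈ ⁅H, H⁆ := by
    rw [h4]; exact Subgroup.pow_mem _ hc m
  rw [← Subgroup.map_subtype_commutator] at h6
  obtain ⟨d, hd, hde⟩ := h6
  have h7 : d = h ^ (n * m) := by
    apply Subtype.ext
    simpa using hde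
  rw [h7] at hd
  exact hh (n * m) (by positivity) hd

theorem LocIndicable.locGraded (hl : LocIndicable G) : LocGraded G := by
  intro H hH hne
  obtain ⟨f, hf⟩ := hl H hH hne
  set ψ : Multiplicative ℤ →* Multiplicative (ZMod 2) :=
    AddMonoidHom.toMultiplicative (Int.castAddHom (ZMod 2)) with hψ
  have hψs : Function.Surjective ψ := by
    intro x
    obtain ⟨n, hn⟩ := ZMod.intCast_surjective (Multiplicative.toAdd x)
    exact ⟨Multiplicative.ofAdd n, by
      change Multiplicative.ofAdd ((n : ZMod 2)) = x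
      rw [hn]; rfl⟩
  have hs : Function.Surjective (ψ.comp f) := hψs.comp hf
  have : Finite (Multiplicative (ZMod 2)) := Finite.of_fintype (ZMod 2)
  refine ⟨(ψ.comp f).ker, inferInstance, ?_, ?_⟩
  · intro htop
    have h1 : ∀ x, (ψ.comp f) x = 1 := by
      intro x
      have : x ∈ (ψ.comp f).ker := by rw [htop]; exact Subgroup.mem_top x
      exact this
    obtain ⟨x, hx⟩ := hs (Multiplicative.ofAdd 1)
    rw [h1 x] at hx
    have h2 : (0 : ZMod 2) = 1 := congrArg Multiplicative.toAdd hx
    exact zero_ne_one h2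
  · have : Finite (H ⧸ (ψ.comp f).ker) :=
      Finite.of_equiv _ (QuotientGroup.quotientKerEquivOfSurjective _ hs).symm.toEquiv
    exact Subgroup.finiteIndex_of_finite_quotient

theorem LocIndicable.torsionFree (hl : LocIndicable G) {x : G} (hx : x ≠ 1) :
    ¬ IsOfFinOrder x := by
  intro hfin
  obtain ⟨f, hf⟩ := hl (Subgroup.zpowers x) (by
    rw [Subgroup.zpowers_eq_closure]
    exact ⟨{x}, by rw [Finset.coe_singleton]⟩) (by
    rw [Ne, Subgroup.zpowers_eq_bot]; exact hx)
  have h1 : Finite (Subgroup.zpowers x) := Set.finite_coe_iff.2 (finite_zpowers.2 hfin)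
  have h2 : Finite (Multiplicative ℤ) := Finite.of_surjective f hf
  have h3 : Infinite ℤ := inferInstance
  exact h3.not_finite h2

theorem LocIndicable.subgroup (hl : LocIndicable G) (H : Subgroup G) : LocIndicable H := by
  intro K hK hne
  have h0 : (K.map H.subtype).FG := by
    classical
    obtain ⟨S, hS⟩ := hK
    refine ⟨S.image H.subtype, ?_⟩
    rw [Finset.coe_image, ← MonoidHom.map_closure, hS]
  obtain ⟨f, hf⟩ := hl (K.map H.subtype) h0 (by
    intro h
    exact hne ((Subgroup.map_eq_bot_iff_of_injective K H.subtype_injective).1 h))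
  set e := K.equivMapOfInjective H.subtype H.subtype_injective
  exact ⟨f.comp e.toMonoidHom, hf.comp e.surjective⟩

end Pool.Agent.H11.TB
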